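import Pool.Agent.T9h34.Chain

/-!
The average-case form of the abstract lower bound.
-/

namespace Pool.Agent.T9h34

open Finset

variable {X : Type*} [Fintype X] [DecidableEq X] {Ω : Type*} [Fintype Ω]

theorem En_sum {α : Type*} {D : ℕ} (hD : 0 < D) (k : ℕ) (s : Finset α) (F : α → Finset X → ℝ) :
    En D k (fun U => ∑ a ∈ s, F a U) = ∑ a ∈ s, En D k (F a) := by
  classical
  induction s using Finset.induction_on with
  | empty => simp [En_const hD]
  | insert a s ha ih =>
    simp only [Finset.sum_insert ha]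
    rw [En_add, ih]

variable {D L e : ℕ} {κ : ℝ} {v : Ω → Finset X}

/-- The expected number of correct answers, over a random level, on the noise set and on the
noise set with a positive test added. -/
noncomputable def score (D L r : ℕ) (v : Ω → Finset X) (g : Finset X → ℝ) : ℝ :=
  ∑ j ∈ Finset.range r, En D (j * (L + 1)) (fun U => g U + Ev v (fun V => g (U ∪ V)))

theorem score_le [Nonempty Ω] (hD : 0 < D) (hL : 0 < L) (he : 1 ≤ e) (hκ : 0 ≤ κ)
    (hsp : Spread v (2 * e) κ) (hBκ : 2 * ((2 * e : ℕ) : ℝ) * D * κ ≤ 1 / 4)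
    (r s d : ℕ) {a : ℕ} (hcard : ∀ ω, (v ω).card = a)
    (C : Circuit X) (hs : C.size ≤ s) (hd : C.FanIn d) :
    score D L r v (fun Z => ind (C.eval (chi Z) = true ↔ ∃ ω, v ω ⊆ Z))
      ≤ r + (2 : ℝ) ^ C.numOther * (1 + d) * (2 + r * err X L e s)
        + r * ((Fintype.card Ω : ℝ) * ((r * (L + 1) : ℕ) / (D : ℝ)) ^ a) := by
  have hup := Mf_circuit hD hL he hκ hsp hBκ r s d C.numOther C rfl hs hd
  have hpt : ∀ U : Finset X, ind (C.eval (chi U) = true ↔ ∃ ω, v ω ⊆ U)
      + Ev v (fun V => ind (C.eval (chi (U ∪ V)) = true ↔ ∃ ω, v ω ⊆ U ∪ V))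
      ≤ 1 + (Ev v (fun V => ind (C.eval (chi U) ≠ C.eval (chi (U ∪ V))))
        + ∑ ω : Ω, ind (v ω ⊆ U)) := by
    intro U
    by_cases hU : ∃ ω, v ω ⊆ U
    · obtain ⟨ω, hω⟩ := hU
      have h1 : (1 : ℝ) ≤ ∑ ω : Ω, ind (v ω ⊆ U) := by
        rw [← ind_of hω]
        exact Finset.single_le_sum (f := fun ω => ind (v ω ⊆ U)) (fun b _ => ind_nonneg _)
          (Finset.mem_univ ω)
      have h2 := Ev_nonneg v (F := fun V => ind (C.eval (chi U) ≠ C.eval (chi (U ∪ V))))
        (fun z => ind_nonneg _)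
      have h3 := ind_le_one (C.eval (chi U) = true ↔ ∃ ω, v ω ⊆ U)
      have h4 := Ev_le_one v
        (F := fun V => ind (C.eval (chi (U ∪ V)) = true ↔ ∃ ω, v ω ⊆ U ∪ V))
        (fun z => ind_le_one _)
      linarith
    · have h2 : 0 ≤ ∑ ω : Ω, ind (v ω ⊆ U) := Finset.sum_nonneg (fun b _ => ind_nonneg _)
      have h3 : ind (C.eval (chi U) = true ↔ ∃ ω, v ω ⊆ U)
          + Ev v (fun V => ind (C.eval (chi (U ∪ V)) = true ↔ ∃ ω, v ω ⊆ U ∪ V))
          ≤ Ev v (fun V => 1 + ind (C.eval (chi U) ≠ C.eval (chi (U ∪ V)))) := by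
        rw [← Ev_const v (ind (C.eval (chi U) = true ↔ ∃ ω, v ω ⊆ U)), ← Ev_add]
        apply Ev_mono'
        intro ω
        have hW : ∃ ω', v ω' ⊆ U ∪ v ω := ⟨ω, Finset.subset_union_right⟩
        by_cases hne : C.eval (chi U) ≠ C.eval (chi (U ∪ v ω))
        · rw [ind_of hne]
          have h5 := ind_le_one (C.eval (chi U) = true ↔ ∃ ω, v ω ⊆ U)
          have h6 := ind_le_one (C.eval (chi (U ∪ v ω)) = true ↔ ∃ ω', v ω' ⊆ U ∪ v ω)
          linarith
        · rw [ind_not hne]
          push Not at hne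
          by_cases hc : C.eval (chi U) = true
          · rw [ind_not (p := C.eval (chi U) = true ↔ ∃ ω, v ω ⊆ U)
              (fun h => hU (h.1 hc))]
            have h6 := ind_le_one (C.eval (chi (U ∪ v ω)) = true ↔ ∃ ω', v ω' ⊆ U ∪ v ω)
            linarith
          · rw [ind_not (p := C.eval (chi (U ∪ v ω)) = true ↔ ∃ ω', v ω' ⊆ U ∪ v ω)
              (fun h => hc (by rw [hne]; exact h.2 hW))]
            have h5 := ind_le_one (C.eval (chi U) = true ↔ ∃ ω, v ω ⊆ U)
            linarith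
      rw [Ev_add, Ev_const] at h3
      linarith
  have hstep : ∀ j ∈ Finset.range r, En D (j * (L + 1))
      (fun U => ind (C.eval (chi U) = true ↔ ∃ ω, v ω ⊆ U)
        + Ev v (fun V => ind (C.eval (chi (U ∪ V)) = true ↔ ∃ ω, v ω ⊆ U ∪ V)))
      ≤ 1 + (En D (j * (L + 1)) (fun U => Ev v (fun V => ind (C.eval (chi U) ≠ C.eval (chi (U ∪ V)))))
        + (Fintype.card Ω : ℝ) * ((r * (L + 1) : ℕ) / (D : ℝ)) ^ a) := by
    intro j hj
    rw [Finset.mem_range] at hj
    refine le_trans (En_mono _ hpt) ?_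
    rw [En_add, En_const hD, En_add, En_sum hD]
    have h2 : ∀ ω ∈ (Finset.univ : Finset Ω), En D (j * (L + 1)) (fun U => ind (v ω ⊆ U))
        ≤ ((r * (L + 1) : ℕ) / (D : ℝ)) ^ a := by
      intro ω _
      refine le_trans (En_subset_le hD _ _) ?_
      rw [hcard ω]
      apply pow_le_pow_left₀ (by positivity)
      apply div_le_div_of_nonneg_right _ (by positivity)
      exact_mod_cast Nat.mul_le_mul_right _ hj.le
    have h3 := Finset.sum_le_sum h2
    rw [Finset.sum_const, Finset.card_univ, nsmul_eq_mul] at h3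
    linarith
  unfold score
  refine le_trans (Finset.sum_le_sum hstep) ?_
  rw [Finset.sum_add_distrib, Finset.sum_add_distrib, Finset.sum_const, Finset.sum_const,
    Finset.card_range, nsmul_eq_mul, nsmul_eq_mul, mul_one]
  have hγ0 : 0 ≤ 2 + r * err X L e s := by
    have := err_nonneg (X := X) (L := L) (e := e) (s := s)
    positivity
  have h5 : ((2 : ℝ) ^ C.numOther * (1 + d) - d) * (2 + r * err X L e s)
      ≤ (2 : ℝ) ^ C.numOther * (1 + d) * (2 + r * err X L e s) := by
    apply mul_le_mul_of_nonneg_right _ hγ0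
    have : (0 : ℝ) ≤ d := by positivity
    linarith
  unfold Mf at hup
  linarith

/-- The weight of a point in the image of the score distribution. -/
noncomputable def pushW {β : Type*} (D L r : ℕ) (v : Ω → Finset X) (Φ : Finset X → β) (y : β) : ℝ :=
  score D L r v (fun Z => ind (Φ Z = y)) / (2 * r)

theorem score_mono {r : ℕ} {g h : Finset X → ℝ} (H : ∀ Z, g Z ≤ h Z) :
    score D L r v g ≤ score D L r v h := by
  unfold score
  apply Finset.sum_le_sum
  intro j _
  apply En_mono
  intro U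
  exact add_le_add (H U) (Ev_mono v (fun V => H _))

theorem score_sum {α : Type*} (hD : 0 < D) (r : ℕ) (s : Finset α) (F : α → Finset X → ℝ) :
    score D L r v (fun Z => ∑ a ∈ s, F a Z) = ∑ a ∈ s, score D L r v (F a) := by
  unfold score
  rw [Finset.sum_comm]
  apply Finset.sum_congr rfl
  intro j _
  rw [← En_sum hD]
  congr 1
  funext U
  rw [Finset.sum_add_distrib, Ev_sum]

theorem score_const_mul (r : ℕ) (c : ℝ) (g : Finset X → ℝ) :
    score D L r v (fun Z => c * g Z) = c * score D L r v g := by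
  unfold score
  rw [Finset.mul_sum]
  apply Finset.sum_congr rfl
  intro j _
  rw [← En_const_mul]
  congr 1
  funext U
  rw [Ev_const_mul]
  ring

theorem score_one [Nonempty Ω] (hD : 0 < D) (r : ℕ) :
    score D L r v (fun _ => (1 : ℝ)) = 2 * r := by
  unfold score
  have : ∀ j ∈ Finset.range r, En D (j * (L + 1)) (fun _ : Finset X => (1 : ℝ)
      + Ev v (fun _ => (1 : ℝ))) = 2 := by
    intro j _
    rw [Ev_const, En_const hD]
    norm_num
  rw [Finset.sum_congr rfl this]
  simp
  ring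

theorem score_nonneg {r : ℕ} {g : Finset X → ℝ} (H : ∀ Z, 0 ≤ g Z) : 0 ≤ score D L r v g := by
  unfold score
  apply Finset.sum_nonneg
  intro j _
  apply En_nonneg
  intro U
  exact add_nonneg (H U) (Ev_nonneg v (fun V => H _))

theorem pushW_nonneg {β : Type*} {r : ℕ} (Φ : Finset X → β) (y : β) : 0 ≤ pushW D L r v Φ y := by
  unfold pushW
  exact div_nonneg (score_nonneg (fun Z => ind_nonneg _)) (by positivity)

theorem sum_pushW_mul {β : Type*} [Fintype β] (hD : 0 < D) (r : ℕ) (Φ : Finset X → β)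
    (F : β → ℝ) :
    ∑ y, pushW D L r v Φ y * F y = score D L r v (fun Z => F (Φ Z)) / (2 * r) := by
  classical
  have h1 : ∀ y : β, pushW D L r v Φ y * F y
      = score D L r v (fun Z => F y * ind (Φ Z = y)) / (2 * r) := by
    intro y
    unfold pushW
    rw [score_const_mul]
    ring
  simp only [h1]
  rw [← Finset.sum_div, ← score_sum hD]
  congr 2
  funext Z
  rw [Finset.sum_eq_single (Φ Z)]
  · rw [ind_of rfl, mul_one]
  · intro y _ hy
    rw [ind_not (Ne.symm hy), mul_zero]
  · intro h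
    exact absurd (Finset.mem_univ _) h

theorem sum_pushW {β : Type*} [Fintype β] [Nonempty Ω] (hD : 0 < D) {r : ℕ} (hr : 0 < r)
    (Φ : Finset X → β) : ∑ y, pushW D L r v Φ y = 1 := by
  have h := sum_pushW_mul (v := v) (L := L) hD r Φ (fun _ => 1)
  simp only [mul_one] at h
  rw [h, score_one hD]
  have : (r : ℝ) ≠ 0 := by positivity
  field_simp

end Pool.Agent.T9h34
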