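import Pool.Agent.T9h34.Reads
import Pool.Agent.T9h34.Average

/-!
The values read by the non-monotone gates change often along some chain.
-/

namespace Pool.Agent.T9h34

open Finset

variable {X : Type*}

section potential

variable {β : Type*} (ν : Finset X → β)

/-- There is a chain of sets that ends in `U` along which `ν` changes `k` times. -/
def ChainTo (k : ℕ) (U : Finset X) : Prop :=
  ∃ G : ℕ → Finset X, Monotone G ∧ G k = U ∧ ∀ i < k, ν (G i) ≠ ν (G (i + 1))

theorem chainTo_zero (U : Finset X) : ChainTo ν 0 U :=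
  ⟨fun _ => U, fun _ _ _ => le_rfl, rfl, fun i hi => absurd hi (by omega)⟩

theorem ChainTo.step {k : ℕ} {U U' : Finset X} (h : ChainTo ν k U) (hU : U ⊆ U')
    (hne : ν U ≠ ν U') : ChainTo ν (k + 1) U' := by
  obtain ⟨G, hG, hk, hch⟩ := h
  refine ⟨fun i => if i ≤ k then G i else U', ?_, by simp, ?_⟩
  · intro i j hij
    simp only
    by_cases hj : j ≤ k
    · rw [if_pos (le_trans hij hj), if_pos hj]
      exact hG hij
    · rw [if_neg hj]
      by_cases hi : i ≤ k
      · rw [if_pos hi]
        refine le_trans (hG hi) ?_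
        rw [hk]
        exact hU
      · rw [if_neg hi]
  · intro i hi
    simp only
    by_cases hik : i < k
    · rw [if_pos hik.le, if_pos (by omega)]
      exact hch i hik
    · have : i = k := by omega
      subst this
      rw [if_pos le_rfl, if_neg (by omega), hk]
      exact hne

theorem ChainTo.mono {k : ℕ} {U U' : Finset X} (h : ChainTo ν k U) (hU : U ⊆ U')
    (he : ν U = ν U') : ChainTo ν k U' := by
  obtain ⟨G, hG, hk, hch⟩ := h
  refine ⟨fun i => if i < k then G i else U', ?_, by simp, ?_⟩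
  · intro i j hij
    simp only
    by_cases hj : j < k
    · rw [if_pos (by omega), if_pos hj]
      exact hG hij
    · rw [if_neg hj]
      by_cases hi : i < k
      · rw [if_pos hi]
        refine le_trans (hG hi.le) ?_
        rw [hk]
        exact hU
      · rw [if_neg hi]
  · intro i hi
    simp only
    rw [if_pos hi]
    by_cases hik : i + 1 < k
    · rw [if_pos hik]
      exact hch i hi
    · have h1 : i + 1 = k := by omega
      rw [if_neg hik]
      have h2 := hch i hi
      rw [h1, hk, he] at h2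
      exact h2

/-- The largest number of changes along a chain that ends in `U`. -/
noncomputable def pot (U : Finset X) : ℕ := sSup {k | ChainTo ν k U}

variable {ν} {R : ℕ} (hR : ∀ k U, ChainTo ν k U → k ≤ R)

include hR

theorem pot_spec (U : Finset X) : ChainTo ν (pot ν U) U := by
  have : pot ν U ∈ {k | ChainTo ν k U} :=
    Nat.sSup_mem ⟨0, chainTo_zero ν U⟩ ⟨R, fun k hk => hR k U hk⟩
  exact this

theorem le_pot {k : ℕ} {U : Finset X} (h : ChainTo ν k U) : k ≤ pot ν U :=
  le_csSup ⟨R, fun k hk => hR k U hk⟩ h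

theorem pot_le (U : Finset X) : pot ν U ≤ R := hR _ _ (pot_spec hR U)

theorem ind_le_pot {U U' : Finset X} (hU : U ⊆ U') :
    ind (ν U ≠ ν U') ≤ (pot ν U' : ℝ) - pot ν U := by
  by_cases h : ν U = ν U'
  · rw [ind_not (by simpa using h)]
    have := le_pot hR ((pot_spec hR U).mono ν hU h)
    have h2 : (pot ν U : ℝ) ≤ pot ν U' := by exact_mod_cast this
    linarith
  · rw [ind_of h]
    have := le_pot hR ((pot_spec hR U).step ν hU h)
    have h2 : ((pot ν U + 1 : ℕ) : ℝ) ≤ pot ν U' := by exact_mod_cast this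
    push_cast at h2
    linarith

end potential

variable [Fintype X] [DecidableEq X] {Ω : Type*} [Fintype Ω] {D L e : ℕ} {κ : ℝ} {v : Ω → Finset X}

/-- At every noise set, the next noise set is detected with probability almost one half. -/
theorem detect_prob [Nonempty Ω] (hD : 0 < D) (hL : 0 < L) (he : 1 ≤ e) (hκ : 0 ≤ κ)
    (hsp : Spread v (2 * e) κ) (hBκ : 2 * ((2 * e : ℕ) : ℝ) * D * κ ≤ 1 / 4) (s : ℕ)
    (C : Circuit X) (hs : C.size + C.numReads + 1 ≤ s)
    (hC : ∀ Z : Finset X, C.eval (chi Z) = true ↔ ∃ ω, v ω ⊆ Z) (U : Finset X) :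
    (1 : ℝ) ≤ 2 * En D (L + 1) (fun W => ind (C.reads (chi U) ≠ C.reads (chi (U ∪ W)))
      + ind (∃ ω, v ω ⊆ U ∪ W)) + err X L e s := by
  obtain ⟨E, h1, h2, h3, h4⟩ := exists_detector C (chi U)
  set σ : X → X ⊕ Bool := fun i => if i ∈ U then Sum.inr true else Sum.inl i with hσ
  have hpull : ∀ V : Finset X, pull σ (chi V) = chi (U ∪ V) := by
    intro V
    funext i
    simp only [pull, hσ, chi]
    by_cases hi : i ∈ U
    · simp [hi]
    · simp [hi, chi]
  have hev : ∀ V : Finset X, (E.subst σ).eval (chi V) = E.eval (chi (U ∪ V)) := by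
    intro V
    rw [Circuit.eval_subst, hpull]
  have hm' : ∀ g ∈ (E.subst σ).gates, g.IsMono := by
    intro g hg
    simp only [Circuit.subst, List.mem_map] at hg
    obtain ⟨g', hg', rfl⟩ := hg
    unfold Gate.IsMono
    rw [Gate.isOther_subst]
    exact h1 g' hg'
  have hdom := domination hD hL he v hκ hsp hBκ (E.subst σ) hm'
  simp only [hev] at hdom
  rw [Circuit.size_subst] at hdom
  have h5 : Ev v (fun V => ind (E.eval (chi (U ∪ V)) = true)) = 1 := by
    rw [← Ev_const v (1 : ℝ)]
    apply le_antisymm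
    · exact Ev_mono v (fun z => ind_le_one _)
    · apply Ev_mono'
      intro ω
      rw [ind_of]
      by_contra hcon
      have h6 : E.eval (chi (U ∪ v ω)) = false := by simpa using hcon
      have h7 := (h3 (chi (U ∪ v ω)) (by
        intro i hi
        simp only [chi, decide_eq_true_eq] at hi ⊢
        exact Finset.mem_union_left _ hi) h6).2
      have h8 : C.eval (chi (U ∪ v ω)) = true := (hC _).2 ⟨ω, Finset.subset_union_right⟩
      rw [h7] at h8
      exact absurd h8 (by simp)
  have h6 : En D (L + 1) (fun W => ind (E.eval (chi (U ∪ W)) = true))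
      ≤ En D (L + 1) (fun W => ind (C.reads (chi U) ≠ C.reads (chi (U ∪ W)))
        + ind (∃ ω, v ω ⊆ U ∪ W)) := by
    apply En_mono
    intro W
    by_cases h7 : C.reads (chi U) = C.reads (chi (U ∪ W))
    · have h8 : ind (E.eval (chi (U ∪ W)) = true) ≤ ind (∃ ω, v ω ⊆ U ∪ W) := by
        apply ind_mono
        intro h9
        exact (hC _).1 (h4 _ h7.symm h9)
      linarith [ind_nonneg (C.reads (chi U) ≠ C.reads (chi (U ∪ W)))]
    · rw [ind_of h7]
      linarith [ind_le_one (E.eval (chi (U ∪ W)) = true), ind_nonneg (∃ ω, v ω ⊆ U ∪ W)]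
  have h7 := err_mono (X := X) (L := L) (e := e) (le_trans h2 hs)
  unfold err at h7 ⊢
  rw [h5] at hdom
  linarith

theorem alternation_bound [Nonempty Ω] (hD : 0 < D) (hL : 0 < L) (he : 1 ≤ e) (hκ : 0 ≤ κ)
    (hsp : Spread v (2 * e) κ) (hBκ : 2 * ((2 * e : ℕ) : ℝ) * D * κ ≤ 1 / 4)
    (r s R : ℕ) {a : ℕ} (hcard : ∀ ω, (v ω).card = a)
    (hfew : (Fintype.card Ω : ℝ) * ((r * (L + 1) : ℕ) / (D : ℝ)) ^ a ≤ 1 / 16)
    (C : Circuit X) (hs : C.size + C.numReads + 1 ≤ s)
    (hC : ∀ Z : Finset X, C.eval (chi Z) = true ↔ ∃ ω, v ω ⊆ Z)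
    (hR : ∀ (k : ℕ) (G : ℕ → Finset X), Monotone G → (∀ i, ¬ ∃ ω, v ω ⊆ G i) →
      (∀ i < k, C.reads (chi (G i)) ≠ C.reads (chi (G (i + 1)))) → k ≤ R) :
    3 * (r : ℝ) ≤ 8 * (R + 1) + 4 * (r * err X L e s) := by
  classical
  set ν : Finset X → Option (List (List Bool)) :=
    fun U => if ∃ ω, v ω ⊆ U then none else some (C.reads (chi U)) with hν
  have hR' : ∀ k U, ChainTo ν k U → k ≤ R + 1 := by
    rintro k U ⟨G, hG, _, hch⟩
    rcases Nat.eq_zero_or_pos k with rfl | hk
    · omega
    · have hneg : ∀ i < k, ¬ ∃ ω, v ω ⊆ G i := by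
        rintro i hi ⟨ω, hω⟩
        apply hch i hi
        have h1 : ∃ ω, v ω ⊆ G i := ⟨ω, hω⟩
        have h2 : ∃ ω, v ω ⊆ G (i + 1) := ⟨ω, le_trans hω (hG (Nat.le_succ i))⟩
        rw [hν]
        simp only [if_pos h1, if_pos h2]
      have h3 := hR (k - 1) (fun i => G (min i (k - 1))) (by
        intro i j hij
        exact hG (min_le_min_right _ hij)) (by
        intro i
        exact hneg _ (by omega)) (by
        intro i hi
        have h4 := hch i (by omega)
        have e1 : min i (k - 1) = i := by omega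
        have e2 : min (i + 1) (k - 1) = i + 1 := by omega
        simp only [e1, e2]
        rw [hν] at h4
        simp only [if_neg (hneg i (by omega)), if_neg (hneg (i + 1) (by omega))] at h4
        intro h5
        exact h4 (by rw [h5]))
      omega
  set P : Finset X → ℝ := fun U => (pot ν U : ℝ) with hP
  have hterm : ∀ j ∈ Finset.range r, (1 : ℝ) ≤
      2 * ((En D ((j + 1) * (L + 1)) P - En D (j * (L + 1)) P) + 1 / 8) + err X L e s := by
    intro j hj
    rw [Finset.mem_range] at hj
    have h1 : ∀ U : Finset X, (1 : ℝ) ≤ 2 * (En D (L + 1) (fun W => P (U ∪ W)) - P U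
        + 2 * En D (L + 1) (fun W => ind (∃ ω, v ω ⊆ U ∪ W))) + err X L e s := by
      intro U
      have h2 := detect_prob hD hL he hκ hsp hBκ s C hs hC U
      have h3 : En D (L + 1) (fun W => ind (C.reads (chi U) ≠ C.reads (chi (U ∪ W)))
          + ind (∃ ω, v ω ⊆ U ∪ W)) ≤ En D (L + 1) (fun W => (P (U ∪ W) - P U)
          + 2 * ind (∃ ω, v ω ⊆ U ∪ W)) := by
        apply En_mono
        intro W
        have h4 := ind_le_pot hR' (U := U) (U' := U ∪ W) Finset.subset_union_left
        have h5 : ind (C.reads (chi U) ≠ C.reads (chi (U ∪ W)))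
            ≤ ind (ν U ≠ ν (U ∪ W)) + ind (∃ ω, v ω ⊆ U ∪ W) := by
          refine le_trans (ind_mono ?_) (ind_or_le _ _)
          intro h6
          by_cases h7 : ∃ ω, v ω ⊆ U ∪ W
          · exact Or.inr h7
          · left
            have h8 : ¬ ∃ ω, v ω ⊆ U := by
              rintro ⟨ω, hω⟩
              exact h7 ⟨ω, le_trans hω Finset.subset_union_left⟩
            rw [hν]
            simp only [if_neg h7, if_neg h8]
            intro h9
            exact h6 (Option.some.inj h9)
        simp only [hP]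
        linarith
      rw [En_add D (L + 1) (fun W => P (U ∪ W) - P U) (fun W => 2 * ind (∃ ω, v ω ⊆ U ∪ W)),
        En_sub, En_const hD, En_const_mul] at h3
      linarith
    have h4 : (1 : ℝ) ≤ En D (j * (L + 1)) (fun U => 2 * (En D (L + 1) (fun W => P (U ∪ W)) - P U
        + 2 * En D (L + 1) (fun W => ind (∃ ω, v ω ⊆ U ∪ W))) + err X L e s) := by
      rw [← En_const (X := X) hD (j * (L + 1)) 1]
      exact En_mono _ h1
    rw [En_add, En_const_mul, En_add, En_sub, En_const hD, En_const_mul, ← En_add_rounds,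
      ← En_add_rounds D (j * (L + 1)) (L + 1) (fun W => ind (∃ ω, v ω ⊆ W))] at h4
    have h5 : j * (L + 1) + (L + 1) = (j + 1) * (L + 1) := by ring
    rw [h5] at h4
    have h6 : En D ((j + 1) * (L + 1)) (fun W => ind (∃ ω, v ω ⊆ W)) ≤ 1 / 16 := by
      refine le_trans ?_ hfew
      have h7 : En D ((j + 1) * (L + 1)) (fun W => ind (∃ ω, v ω ⊆ W))
          ≤ En D ((j + 1) * (L + 1)) (fun W => ∑ ω : Ω, ind (v ω ⊆ W)) := by
        apply En_mono
        intro W
        refine le_trans (ind_mono ?_) (ind_exists_le (Finset.univ : Finset Ω) (fun ω => v ω ⊆ W))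
        rintro ⟨ω, hω⟩
        exact ⟨ω, Finset.mem_univ _, hω⟩
      rw [En_sum hD] at h7
      refine le_trans h7 ?_
      have h8 : ∀ ω ∈ (Finset.univ : Finset Ω), En D ((j + 1) * (L + 1)) (fun U => ind (v ω ⊆ U))
          ≤ ((r * (L + 1) : ℕ) / (D : ℝ)) ^ a := by
        intro ω _
        refine le_trans (En_subset_le hD _ _) ?_
        rw [hcard ω]
        apply pow_le_pow_left₀ (by positivity)
        apply div_le_div_of_nonneg_right _ (by positivity)
        exact_mod_cast Nat.mul_le_mul_right _ hj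
      have h9 := Finset.sum_le_sum h8
      rw [Finset.sum_const, Finset.card_univ, nsmul_eq_mul] at h9
      exact h9
    linarith
  have hsum := Finset.sum_le_sum hterm
  rw [Finset.sum_const, Finset.card_range, nsmul_eq_mul, mul_one] at hsum
  rw [Finset.sum_add_distrib, ← Finset.mul_sum, Finset.sum_add_distrib,
    Finset.sum_range_sub (fun j => En D (j * (L + 1)) P), Finset.sum_const, Finset.sum_const,
    Finset.card_range, nsmul_eq_mul, nsmul_eq_mul] at hsum
  have h10 : En D (r * (L + 1)) P ≤ R + 1 := by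
    rw [← En_const (X := X) hD (r * (L + 1)) ((R : ℝ) + 1)]
    apply En_mono
    intro U
    simp only [hP]
    exact_mod_cast pot_le hR' U
  have h11 : 0 ≤ En D (0 * (L + 1)) P := En_nonneg _ (fun U => Nat.cast_nonneg _)
  linarith

end Pool.Agent.T9h34
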