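import Pool.Agent.T9h34.ParamsAlt

/-!
# The non-monotone gates of every circuit for the clique problem change their inputs often

A circuit is a straight-line program with AND gates and OR gates of fan-in two and any number of
further gates, each computing an arbitrary Boolean function of the values it reads (NOT gates, but
also parity or threshold gates of unbounded fan-in).  There is no restriction on the circuit.

Let `C` be a circuit that decides whether a graph on `2 n` vertices has a clique with `n` vertices.
Then there is a chain of graphs `G 0 ≤ G 1 ≤ ... ≤ G k`, all without an `n`-clique, such that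
the list of the values read by the further gates changes in every step of the chain, and
`n ^ 2 ≤ K * (log n + 1) ^ 6 * (log s + log n + 1) ^ 4 * (k + 1)`, where `s` is the number of gates
plus the number of values read by the further gates.

No chain has more than `N = n * (2 n - 1)` strict steps, and `N / D` changes are enough for every
constant `D` if `NP` is contained in `P/poly`.
-/

namespace Pool.Agent.T9h34.AlternationHalf

open Pool.Agent.T9h34

theorem result : ∃ K : ℕ, ∀ (n : ℕ) (C : Circuit (Fin (2 * n) × Fin (2 * n))), 2 ≤ n →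
    C.DecidesClique n →
      ∃ (k : ℕ) (G : ℕ → SimpleGraph (Fin (2 * n))), Monotone G ∧ (∀ i, (G i).CliqueFree n) ∧
        (∀ i < k, C.reads (graphInput (G i)) ≠ C.reads (graphInput (G (i + 1)))) ∧
        n ^ 2 ≤ K * (Nat.log 2 n + 1) ^ 6
          * (Nat.log 2 (C.size + C.numReads) + Nat.log 2 n + 1) ^ 4 * (k + 1) := by
  classical
  refine ⟨45875200, ?_⟩
  intro n C hn2 hC
  set lam := Nat.log 2 n + 1 with hlam
  set l := Nat.log 2 (C.size + C.numReads) + Nat.log 2 n + 1 with hl
  have hn : n < 2 ^ lam := Nat.lt_pow_succ_log_self (by norm_num) n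
  have hlogn : 1 ≤ Nat.log 2 n := Nat.log_pos (by norm_num) hn2
  have hs : C.size + C.numReads + 1 < 2 ^ l := by
    have h1 : C.size + C.numReads < 2 ^ (Nat.log 2 (C.size + C.numReads) + 1) :=
      Nat.lt_pow_succ_log_self (by norm_num) _
    have h2 : 2 ^ (Nat.log 2 (C.size + C.numReads) + 1 + 1) ≤ 2 ^ l :=
      Nat.pow_le_pow_right (by norm_num) (by omega)
    rw [pow_succ] at h2
    have h3 : 1 ≤ 2 ^ (Nat.log 2 (C.size + C.numReads) + 1) := Nat.one_le_two_pow
    omega
  have hlam1 : 1 ≤ lam := by omega
  have h36 : lam ^ 3 ≤ lam ^ 6 := Nat.pow_le_pow_right hlam1 (by norm_num)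
  have hfree : (⊥ : SimpleGraph (Fin (2 * n))).CliqueFree n := by
    intro S hS
    rw [SimpleGraph.isNClique_iff] at hS
    obtain ⟨x, hx, y, hy, hxy⟩ := Finset.one_lt_card.1 (by omega : 1 < S.card)
    exact hS.1 hx hy hxy
  by_cases hbig : 2560 * lam ^ 3 * l ^ 2 < n
  · set A : Set ℕ := {k | ∃ G : ℕ → SimpleGraph (Fin (2 * n)), Monotone G ∧
      (∀ i, (G i).CliqueFree n) ∧
        ∀ i < k, C.reads (graphInput (G i)) ≠ C.reads (graphInput (G (i + 1)))} with hA
    have hne : A.Nonempty :=
      ⟨0, fun _ => ⊥, fun _ _ _ => le_rfl, fun _ => hfree, fun i hi => absurd hi (by omega)⟩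
    have hbdd : BddAbove A := by
      refine ⟨Fintype.card (SimpleGraph (Fin (2 * n))), ?_⟩
      rintro k ⟨G, hG, _, hch⟩
      have hinj : Function.Injective (fun i : Fin (k + 1) => G i) := by
        have hlt : ∀ i j : Fin (k + 1), i < j → G i ≠ G j := by
          intro i j hij heq
          have hik : (i : ℕ) < k := by
            have := j.isLt
            have : (i : ℕ) < j := hij
            omega
          apply hch i hik
          have h1 : G i ≤ G (i + 1) := hG (Nat.le_succ _)
          have h2 : G (i + 1) ≤ G j := hG (Nat.succ_le_of_lt hij)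
          rw [← heq] at h2
          rw [le_antisymm h1 h2]
        intro i j hij
        rcases lt_trichotomy i j with h | h | h
        · exact absurd hij (hlt i j h)
        · exact h
        · exact absurd hij.symm (hlt j i h)
      have := Fintype.card_le_of_injective _ hinj
      rw [Fintype.card_fin] at this
      omega
    obtain ⟨G, hG, hG2, hch⟩ : sSup A ∈ A := Nat.sSup_mem hne hbdd
    refine ⟨sSup A, G, hG, hG2, hch, ?_⟩
    have h := alt_case (R := sSup A) hn (by omega : lam ≤ l) hlam1 hs hbig C hC le_rfl
      (fun k G' h1 h2 h3 => le_csSup hbdd ⟨G', h1, h2, h3⟩)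
    refine le_trans h ?_
    apply Nat.mul_le_mul_right
    apply Nat.mul_le_mul_right
    exact Nat.mul_le_mul_left _ h36
  · push Not at hbig
    refine ⟨0, fun _ => ⊥, fun _ _ _ => le_rfl, fun _ => hfree, fun i hi => absurd hi (by omega),
      ?_⟩
    have h1 : n ^ 2 ≤ (2560 * lam ^ 3 * l ^ 2) ^ 2 := Nat.pow_le_pow_left hbig 2
    have h2 : (2560 * lam ^ 3 * l ^ 2) ^ 2 = 6553600 * (lam ^ 6 * l ^ 4) := by ring
    have h3 : 45875200 * lam ^ 6 * l ^ 4 * (0 + 1) = 45875200 * (lam ^ 6 * l ^ 4) := by ring
    rw [h3]
    have h4 : 6553600 * (lam ^ 6 * l ^ 4) ≤ 45875200 * (lam ^ 6 * l ^ 4) :=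
      Nat.mul_le_mul_right _ (by norm_num)
    omega

end Pool.Agent.T9h34.AlternationHalf
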