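import Mathlib

/-!
# Boolean circuits with AND gates, OR gates and a few further gates

A circuit is a straight-line program: a list of gates, each of which may read input variables,
constants and the outputs of earlier gates.
-/

namespace Pool.Agent.T9h34

/-- What a gate may read: an input variable, a constant, or the output of an earlier gate
(gates are numbered `0, 1, 2, …` in the order in which they are listed). -/
inductive Src (ι : Type*) where
  | input (i : ι)
  | const (b : Bool)
  | gate (j : ℕ)

/-- A gate: an AND gate with two inputs, an OR gate with two inputs, or a further gate that
computes an arbitrary Boolean function `φ` of the list of values it reads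
(a NOT gate is the case of a list with one entry). -/
inductive Gate (ι : Type*) where
  | and (a b : Src ι)
  | or (a b : Src ι)
  | other (args : List (Src ι)) (φ : List Bool → Bool)

/-- A circuit: the list of its gates and its output. -/
structure Circuit (ι : Type*) where
  gates : List (Gate ι)
  out : Src ι

variable {ι : Type*}

/-- Value of a source, given the values `x` of the input variables and the list `vals` of the
values of the earlier gates (a reference to a gate that is not an earlier one reads `false`). -/
def Src.eval (x : ι → Bool) (vals : List Bool) : Src ι → Bool
  | .input i => x i
  | .const b => b
  | .gate j => vals.getD j false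

/-- Value of a gate. -/
def Gate.eval (x : ι → Bool) (vals : List Bool) : Gate ι → Bool
  | .and a b => a.eval x vals && b.eval x vals
  | .or a b => a.eval x vals || b.eval x vals
  | .other args φ => φ (args.map (fun a => a.eval x vals))

/-- The list of the values of all gates, computed in order. -/
def runGates (x : ι → Bool) (gs : List (Gate ι)) : List Bool :=
  gs.foldl (fun vals g => vals ++ [g.eval x vals]) []

/-- The value computed by the circuit on the input `x`. -/
def Circuit.eval (C : Circuit ι) (x : ι → Bool) : Bool :=
  C.out.eval x (runGates x C.gates)

/-- The number of gates of the circuit. -/
def Circuit.size (C : Circuit ι) : ℕ := C.gates.length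

/-- Whether a gate is neither an AND gate nor an OR gate. -/
def Gate.isOther : Gate ι → Bool
  | .and _ _ => false
  | .or _ _ => false
  | .other _ _ => true

/-- The number of gates that are neither AND gates nor OR gates. -/
def Circuit.numOther (C : Circuit ι) : ℕ := C.gates.countP Gate.isOther

/-- Every gate that is neither an AND gate nor an OR gate reads at most `d` values. -/
def Circuit.FanIn (C : Circuit ι) (d : ℕ) : Prop :=
  ∀ args φ, Gate.other args φ ∈ C.gates → args.length ≤ d

end Pool.Agent.T9h34
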