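import Pool.Agent.T9h34.Compare
import Pool.Agent.T9h34.NegCircuit

/-!
Closed approximators for circuits with AND and OR gates only.
-/

namespace Pool.Agent.T9h34

open Finset

section basic

variable {ι : Type*}

theorem runGates_append (x : ι → Bool) (gs : List (Gate ι)) (g : Gate ι) :
    runGates x (gs ++ [g]) = runGates x gs ++ [g.eval x (runGates x gs)] := by
  simp [runGates, List.foldl_append]

theorem length_runGates (x : ι → Bool) (gs : List (Gate ι)) :
    (runGates x gs).length = gs.length := by
  induction gs using List.reverseRecOn with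
  | nil => rfl
  | append_singleton gs g ih => rw [runGates_append]; simp [ih]

theorem getD_append_lt {l : List Bool} {b : Bool} {j : ℕ} (h : j < l.length) :
    (l ++ [b]).getD j false = l.getD j false := by
  rw [List.getD_append _ _ _ _ h]

theorem getD_append_eq {l : List Bool} {b : Bool} {j : ℕ} (h : j = l.length) :
    (l ++ [b]).getD j false = b := by
  subst h
  simp

/-- AND and OR gates. -/
def Gate.IsMono (g : Gate ι) : Prop := g.isOther = false

/-- A source value is monotone in the values it reads. -/
theorem Src.eval_mono {x y : ι → Bool} (hxy : ∀ i, x i = true → y i = true) {l l' : List Bool}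
    (hl : ∀ j, l.getD j false = true → l'.getD j false = true) (a : Src ι)
    (h : a.eval x l = true) : a.eval y l' = true := by
  cases a with
  | input i => exact hxy i h
  | const b => exact h
  | gate j => exact hl j h

theorem Gate.eval_mono {x y : ι → Bool} (hxy : ∀ i, x i = true → y i = true) {l l' : List Bool}
    (hl : ∀ j, l.getD j false = true → l'.getD j false = true) (g : Gate ι) (hg : g.IsMono)
    (h : g.eval x l = true) : g.eval y l' = true := by
  cases g with
  | and a b =>
    simp only [Gate.eval, Bool.and_eq_true] at h ⊢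
    exact ⟨Src.eval_mono hxy hl a h.1, Src.eval_mono hxy hl b h.2⟩
  | or a b =>
    simp only [Gate.eval, Bool.or_eq_true] at h ⊢
    exact h.imp (Src.eval_mono hxy hl a) (Src.eval_mono hxy hl b)
  | other args φ => simp [Gate.IsMono, Gate.isOther] at hg

theorem runGates_mono {x y : ι → Bool} (hxy : ∀ i, x i = true → y i = true) (gs : List (Gate ι))
    (hg : ∀ g ∈ gs, g.IsMono) (j : ℕ) (h : (runGates x gs).getD j false = true) :
    (runGates y gs).getD j false = true := by
  induction gs using List.reverseRecOn generalizing j with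
  | nil => simp [runGates] at h
  | append_singleton gs g ih =>
    rw [runGates_append] at h ⊢
    have hgs : ∀ g ∈ gs, g.IsMono := fun g' hg' => hg g' (by simp [hg'])
    rcases lt_trichotomy j gs.length with hj | hj | hj
    · rw [getD_append_lt (by rw [length_runGates]; exact hj)] at h ⊢
      exact ih hgs j h
    · rw [getD_append_eq (by rw [length_runGates]; exact hj)] at h ⊢
      exact Gate.eval_mono hxy (fun j => ih hgs j) g (hg g (by simp)) h
    · rw [List.getD_eq_default] at h
      · exact absurd h (by simp)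
      · simp [length_runGates]; omega

theorem Circuit.eval_mono {x y : ι → Bool} (hxy : ∀ i, x i = true → y i = true) (C : Circuit ι)
    (hg : ∀ g ∈ C.gates, g.IsMono) (h : C.eval x = true) : C.eval y = true :=
  Src.eval_mono hxy (runGates_mono hxy C.gates hg) C.out h

end basic

variable {X : Type*} [Fintype X] [DecidableEq X] {Ω : Type*} [Fintype Ω]

/-- Characteristic function of a set. -/
def chi (Z : Finset X) : X → Bool := fun i => decide (i ∈ Z)

/-- The family attached to a source. -/
def srcFam (𝒜 : ℕ → Finset (Finset X)) (n : ℕ) : Src X → Finset (Finset X)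
  | .input i => {{i}}
  | .const b => if b then {∅} else ∅
  | .gate j => if j < n then 𝒜 j else ∅

theorem srcFam_sub {𝒜 : ℕ → Finset (Finset X)} {n e : ℕ} (he : 1 ≤ e)
    (h𝒜 : ∀ j, 𝒜 j ⊆ smalls e) (a : Src X) : srcFam 𝒜 n a ⊆ smalls e := by
  cases a with
  | input i =>
    simp only [srcFam, Finset.singleton_subset_iff]
    rw [mem_smalls]; simpa using he
  | const b =>
    cases b
    · simp [srcFam]
    · simp only [srcFam, if_true, Finset.singleton_subset_iff]
      rw [mem_smalls]; simp
  | gate j =>
    simp only [srcFam]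
    split_ifs
    · exact h𝒜 j
    · simp

theorem src_pos {𝒜 : ℕ → Finset (Finset X)} {n : ℕ} {vals : List Bool} {Z : Finset X}
    (hlen : vals.length = n) (h : ∀ j < n, vals.getD j false = true → cov (𝒜 j) Z) (a : Src X)
    (ha : a.eval (chi Z) vals = true) : cov (srcFam 𝒜 n a) Z := by
  cases a with
  | input i =>
    refine ⟨{i}, by simp [srcFam], ?_⟩
    simpa [Src.eval, chi] using ha
  | const b =>
    simp only [Src.eval] at ha
    subst ha
    exact ⟨∅, by simp [srcFam], by simp⟩
  | gate j =>
    simp only [Src.eval] at ha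
    by_cases hj : j < n
    · simp only [srcFam, if_pos hj]
      exact h j hj ha
    · rw [List.getD_eq_default] at ha
      · exact absurd ha (by simp)
      · omega

theorem src_neg {𝒜 : ℕ → Finset (Finset X)} {n : ℕ} {vals : List Bool} {Z : Finset X}
    (h : ∀ j < n, cov (𝒜 j) Z → vals.getD j false = true) (a : Src X)
    (ha : cov (srcFam 𝒜 n a) Z) : a.eval (chi Z) vals = true := by
  cases a with
  | input i =>
    obtain ⟨S, hS, hSZ⟩ := ha
    simp only [srcFam, Finset.mem_singleton] at hS
    subst hS
    simpa [Src.eval, chi] using hSZ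
  | const b =>
    cases b
    · obtain ⟨S, hS, _⟩ := ha
      simp [srcFam] at hS
    · rfl
  | gate j =>
    by_cases hj : j < n
    · simp only [srcFam, if_pos hj] at ha
      exact h j hj ha
    · obtain ⟨S, hS, _⟩ := ha
      simp [srcFam, hj] at hS

/-- The family attached to a gate, before closing and trimming. -/
def gateFam (𝒜 : ℕ → Finset (Finset X)) (n : ℕ) : Gate X → Finset (Finset X)
  | .and a b => (srcFam 𝒜 n a ×ˢ srcFam 𝒜 n b).image (fun p => p.1 ∪ p.2)
  | .or a b => srcFam 𝒜 n a ∪ srcFam 𝒜 n b
  | .other _ _ => ∅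

theorem gateFam_sub {𝒜 : ℕ → Finset (Finset X)} {n e : ℕ} (he : 1 ≤ e)
    (h𝒜 : ∀ j, 𝒜 j ⊆ smalls e) (g : Gate X) : gateFam 𝒜 n g ⊆ smalls (2 * e) := by
  intro S hS
  rw [mem_smalls]
  cases g with
  | and a b =>
    simp only [gateFam, Finset.mem_image, Finset.mem_product, Prod.exists] at hS
    obtain ⟨S1, S2, ⟨h1, h2⟩, rfl⟩ := hS
    have h1' := mem_smalls.1 (srcFam_sub he h𝒜 a h1)
    have h2' := mem_smalls.1 (srcFam_sub he h𝒜 b h2)
    have := Finset.card_union_le S1 S2
    omega
  | or a b =>
    simp only [gateFam, Finset.mem_union] at hS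
    rcases hS with h | h
    · have := mem_smalls.1 (srcFam_sub he h𝒜 a h); omega
    · have := mem_smalls.1 (srcFam_sub he h𝒜 b h); omega
  | other args φ => simp [gateFam] at hS

theorem gate_pos {𝒜 : ℕ → Finset (Finset X)} {n : ℕ} {vals : List Bool} {Z : Finset X}
    (hlen : vals.length = n) (h : ∀ j < n, vals.getD j false = true → cov (𝒜 j) Z) (g : Gate X)
    (hg : g.IsMono) (ha : g.eval (chi Z) vals = true) : cov (gateFam 𝒜 n g) Z := by
  cases g with
  | and a b =>
    simp only [Gate.eval, Bool.and_eq_true] at ha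
    obtain ⟨S1, h1, h1'⟩ := src_pos hlen h a ha.1
    obtain ⟨S2, h2, h2'⟩ := src_pos hlen h b ha.2
    refine ⟨S1 ∪ S2, ?_, Finset.union_subset h1' h2'⟩
    simp only [gateFam, Finset.mem_image, Finset.mem_product, Prod.exists]
    exact ⟨S1, S2, ⟨h1, h2⟩, rfl⟩
  | or a b =>
    simp only [Gate.eval, Bool.or_eq_true] at ha
    rcases ha with ha | ha
    · obtain ⟨S1, h1, h1'⟩ := src_pos hlen h a ha
      exact ⟨S1, Finset.mem_union_left _ h1, h1'⟩
    · obtain ⟨S1, h1, h1'⟩ := src_pos hlen h b ha
      exact ⟨S1, Finset.mem_union_right _ h1, h1'⟩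
  | other args φ => simp [Gate.IsMono, Gate.isOther] at hg

theorem gate_neg {𝒜 : ℕ → Finset (Finset X)} {n : ℕ} {vals : List Bool} {Z : Finset X}
    (h : ∀ j < n, cov (𝒜 j) Z → vals.getD j false = true) (g : Gate X)
    (ha : cov (gateFam 𝒜 n g) Z) : g.eval (chi Z) vals = true := by
  cases g with
  | and a b =>
    obtain ⟨S, hS, hSZ⟩ := ha
    simp only [gateFam, Finset.mem_image, Finset.mem_product, Prod.exists] at hS
    obtain ⟨S1, S2, ⟨h1, h2⟩, rfl⟩ := hS
    simp only [Gate.eval, Bool.and_eq_true]
    exact ⟨src_neg h a ⟨S1, h1, Finset.subset_union_left.trans hSZ⟩,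
      src_neg h b ⟨S2, h2, Finset.subset_union_right.trans hSZ⟩⟩
  | or a b =>
    obtain ⟨S, hS, hSZ⟩ := ha
    simp only [gateFam, Finset.mem_union] at hS
    simp only [Gate.eval, Bool.or_eq_true]
    exact hS.imp (fun h' => src_neg h a ⟨S, h', hSZ⟩) (fun h' => src_neg h b ⟨S, h', hSZ⟩)
  | other args φ =>
    obtain ⟨S, hS, _⟩ := ha
    simp [gateFam] at hS

theorem approx_gates {D L e : ℕ} (hD : 0 < D) (hL : 0 < L) (he : 1 ≤ e) (v : Ω → Finset X) {κ : ℝ}
    (hκ : 0 ≤ κ) (hsp : Spread v (2 * e) κ) (hBκ : 2 * ((2 * e : ℕ) : ℝ) * D * κ ≤ 1 / 4)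
    (gs : List (Gate X)) (hm : ∀ g ∈ gs, g.IsMono) :
    ∃ 𝒜 : ℕ → Finset (Finset X), (∀ j, 𝒜 j ⊆ smalls e) ∧
      Ev v (fun Z => ind (∃ j < gs.length,
        (runGates (chi Z) gs).getD j false = true ∧ ¬ cov (𝒜 j) Z))
          ≤ gs.length * (1 / 4 : ℝ) ^ e ∧
      ∀ T : Finset X, En D L (fun W => ind (∃ j < gs.length,
        cov (𝒜 j) (T ∪ W) ∧ (runGates (chi (T ∪ W)) gs).getD j false = false))
          ≤ gs.length * (((smalls (X := X) (2 * e)).card : ℝ) * (1 / 2 : ℝ) ^ L) := by
  induction gs using List.reverseRecOn with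
  | nil =>
    refine ⟨fun _ => ∅, fun _ => by simp, ?_, ?_⟩
    · have : (fun Z : Finset X => ind (∃ j < ([] : List (Gate X)).length,
          (runGates (chi Z) []).getD j false = true ∧ ¬ cov (∅ : Finset (Finset X)) Z))
          = fun _ => (0 : ℝ) * 1 := by
        funext Z
        rw [ind_not (by simp)]; ring
      rw [this, Ev_const_mul]
      simp
    · intro T
      have : (fun W : Finset X => ind (∃ j < ([] : List (Gate X)).length,
          cov (∅ : Finset (Finset X)) (T ∪ W) ∧
            (runGates (chi (T ∪ W)) []).getD j false = false))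
          = fun _ => (0 : ℝ) := by
        funext Z
        rw [ind_not (by simp)]
      rw [this, En_const hD]
      simp
  | append_singleton gs g ih =>
    have hgs : ∀ g ∈ gs, g.IsMono := fun g' hg' => hm g' (by simp [hg'])
    have hg : g.IsMono := hm g (by simp)
    obtain ⟨𝒜, h1, h2, h3⟩ := ih hgs
    obtain ⟨𝒞, hc1, hc2, hc3, hc4⟩ := exists_closure (L := L) hD (gateFam 𝒜 gs.length g)
      (gateFam_sub he h1 g)
    set 𝒩 : Finset (Finset X) := (mins 𝒞).filter (fun S => S.card ≤ e) with h𝒩
    have hcov𝒩 : ∀ Z, cov 𝒩 Z → cov 𝒞 Z := by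
      rintro Z ⟨S, hS, hSZ⟩
      rw [h𝒩, Finset.mem_filter] at hS
      exact cov_mins.1 ⟨S, hS.1, hSZ⟩
    refine ⟨fun j => if j = gs.length then 𝒩 else 𝒜 j, ?_, ?_, ?_⟩
    · intro j
      by_cases hj : j = gs.length
      · simp only [if_pos hj]
        intro S hS
        rw [h𝒩, Finset.mem_filter] at hS
        exact mem_smalls.2 hS.2
      · simp only [if_neg hj]
        exact h1 j
    · have hpt : ∀ Z : Finset X, ind (∃ j < (gs ++ [g]).length,
          (runGates (chi Z) (gs ++ [g])).getD j false = true ∧
            ¬ cov (if j = gs.length then 𝒩 else 𝒜 j) Z)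
          ≤ ind (∃ j < gs.length, (runGates (chi Z) gs).getD j false = true ∧ ¬ cov (𝒜 j) Z)
            + ind (∃ S ∈ mins 𝒞, e < S.card ∧ S.card ≤ 2 * e ∧ S ⊆ Z) := by
        intro Z
        refine le_trans (ind_mono ?_) (ind_or_le _ _)
        rintro ⟨j, hj, hv, hnc⟩
        by_cases hbad : ∃ j < gs.length,
            (runGates (chi Z) gs).getD j false = true ∧ ¬ cov (𝒜 j) Z
        · exact Or.inl hbad
        · right
          push Not at hbad
          rw [runGates_append] at hv
          have hlen : (gs ++ [g]).length = gs.length + 1 := by simp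
          rw [hlen] at hj
          rcases lt_or_eq_of_le (Nat.lt_succ_iff.1 hj) with hj' | hj'
          · rw [getD_append_lt (by rw [length_runGates]; exact hj')] at hv
            rw [if_neg (by omega)] at hnc
            exact absurd (hbad j hj' hv) hnc
          · rw [getD_append_eq (by rw [length_runGates]; exact hj')] at hv
            rw [if_pos hj'] at hnc
            have hF := gate_pos (length_runGates (chi Z) gs) hbad g hg hv
            have hC : cov 𝒞 Z := cov_mono hc1 (le_refl _) hF
            obtain ⟨S, hS, hSZ⟩ := cov_mins.2 hC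
            refine ⟨S, hS, ?_, ?_, hSZ⟩
            · by_contra hle
              push Not at hle
              apply hnc
              exact ⟨S, by rw [h𝒩, Finset.mem_filter]; exact ⟨hS, hle⟩, hSZ⟩
            · exact mem_smalls.1 (hc2 (Finset.mem_filter.1 hS).1)
      refine le_trans (Ev_mono v hpt) ?_
      rw [Ev_add]
      have h4 := Ev_mins_le hD hL (by omega : 0 < 2 * e) hc3 v hκ hsp hBκ e
      have hlen : ((gs ++ [g]).length : ℝ) = gs.length + 1 := by simp
      rw [hlen]
      linarith
    · intro T
      have hpt : ∀ W : Finset X, ind (∃ j < (gs ++ [g]).length,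
          cov (if j = gs.length then 𝒩 else 𝒜 j) (T ∪ W) ∧
          (runGates (chi (T ∪ W)) (gs ++ [g])).getD j false = false)
          ≤ ind (∃ j < gs.length, cov (𝒜 j) (T ∪ W) ∧
              (runGates (chi (T ∪ W)) gs).getD j false = false)
            + ind (cov 𝒞 (T ∪ W) ∧ ¬ cov (gateFam 𝒜 gs.length g) (T ∪ W)) := by
        intro W
        refine le_trans (ind_mono ?_) (ind_or_le _ _)
        rintro ⟨j, hj, hcv, hv⟩
        by_cases hbad : ∃ j < gs.length, cov (𝒜 j) (T ∪ W) ∧
            (runGates (chi (T ∪ W)) gs).getD j false = false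
        · exact Or.inl hbad
        · right
          push Not at hbad
          have hbad' : ∀ j < gs.length, cov (𝒜 j) (T ∪ W) →
              (runGates (chi (T ∪ W)) gs).getD j false = true := by
            intro j hj hc
            have := hbad j hj hc
            simpa using this
          rw [runGates_append] at hv
          have hlen : (gs ++ [g]).length = gs.length + 1 := by simp
          rw [hlen] at hj
          rcases lt_or_eq_of_le (Nat.lt_succ_iff.1 hj) with hj' | hj'
          · rw [getD_append_lt (by rw [length_runGates]; exact hj')] at hv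
            rw [if_neg (by omega)] at hcv
            exact absurd hv (by rw [hbad' j hj' hcv]; simp)
          · rw [getD_append_eq (by rw [length_runGates]; exact hj')] at hv
            rw [if_pos hj'] at hcv
            refine ⟨hcov𝒩 _ hcv, ?_⟩
            intro hF
            have := gate_neg hbad' g hF
            rw [this] at hv
            exact absurd hv (by simp)
      refine le_trans (En_mono L hpt) ?_
      rw [En_add]
      have h4 := h3 T
      have h5 := hc4 T
      have h6 : ((smalls (X := X) (2 * e) \ gateFam 𝒜 gs.length g).card : ℝ)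
          ≤ (smalls (X := X) (2 * e)).card := by
        exact_mod_cast Finset.card_le_card Finset.sdiff_subset
      have h7 : ((smalls (X := X) (2 * e) \ gateFam 𝒜 gs.length g).card : ℝ) * (1 / 2 : ℝ) ^ L
          ≤ (smalls (X := X) (2 * e)).card * (1 / 2 : ℝ) ^ L :=
        mul_le_mul_of_nonneg_right h6 (by positivity)
      have hlen : ((gs ++ [g]).length : ℝ) = gs.length + 1 := by simp
      rw [hlen]
      linarith

/-- **Domination lemma.** If a circuit with AND and OR gates only accepts a spread random set
with some probability, then it accepts the noise with at least half that probability, up to an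
error proportional to its size. -/
theorem domination {D L e : ℕ} (hD : 0 < D) (hL : 0 < L) (he : 1 ≤ e) (v : Ω → Finset X) {κ : ℝ}
    (hκ : 0 ≤ κ) (hsp : Spread v (2 * e) κ) (hBκ : 2 * ((2 * e : ℕ) : ℝ) * D * κ ≤ 1 / 4)
    (C : Circuit X) (hm : ∀ g ∈ C.gates, g.IsMono) :
    Ev v (fun Z => ind (C.eval (chi Z) = true))
      ≤ 2 * En D (L + 1) (fun U => ind (C.eval (chi U) = true))
        + (C.size * (1 / 4 : ℝ) ^ e
          + 2 * ((C.size + 1) * (((smalls (X := X) (2 * e)).card : ℝ) * (1 / 2 : ℝ) ^ L))) := by
  obtain ⟨𝒜, h1, h2, h3⟩ := approx_gates hD hL he v hκ hsp hBκ C.gates hm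
  set n := C.gates.length with hn
  set ℱ := srcFam 𝒜 n C.out with hℱ
  have hFsub : ℱ ⊆ smalls (2 * e) := by
    intro S hS
    have := mem_smalls.1 (srcFam_sub he h1 C.out hS)
    rw [mem_smalls]; omega
  obtain ⟨𝒞, hc1, hc2, hc3, hc4⟩ := exists_closure (L := L) hD ℱ hFsub
  set δ := ((smalls (X := X) (2 * e)).card : ℝ) * (1 / 2 : ℝ) ^ L with hδ
  have hδ0 : 0 ≤ δ := by positivity
  -- positive side
  have hpos : Ev v (fun Z => ind (C.eval (chi Z) = true))
      ≤ n * (1 / 4 : ℝ) ^ e + Ev v (fun Z => ind (cov 𝒞 Z)) := by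
    have hpt : ∀ Z : Finset X, ind (C.eval (chi Z) = true)
        ≤ ind (∃ j < C.gates.length,
            (runGates (chi Z) C.gates).getD j false = true ∧ ¬ cov (𝒜 j) Z)
          + ind (cov 𝒞 Z) := by
      intro Z
      refine le_trans (ind_mono ?_) (ind_or_le _ _)
      intro hv
      by_cases hbad : ∃ j < C.gates.length,
          (runGates (chi Z) C.gates).getD j false = true ∧ ¬ cov (𝒜 j) Z
      · exact Or.inl hbad
      · right
        push Not at hbad
        exact cov_mono hc1 (le_refl _) (src_pos (length_runGates _ _) hbad C.out hv)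
    refine le_trans (Ev_mono v hpt) ?_
    rw [Ev_add]
    linarith
  -- negative side
  have hneg : ∀ z : Finset X, ind (cov 𝒞 z) ≤
      En D L (fun W => ind (C.eval (chi (z ∪ W)) = true)) + (n + 1) * δ := by
    intro z
    by_cases hz : cov 𝒞 z
    · rw [ind_of hz]
      have hpt : ∀ W : Finset X, (1 : ℝ) ≤ ind (C.eval (chi (z ∪ W)) = true)
          + (ind (∃ j < C.gates.length, cov (𝒜 j) (z ∪ W) ∧
              (runGates (chi (z ∪ W)) C.gates).getD j false = false)
            + ind (cov 𝒞 (z ∪ W) ∧ ¬ cov ℱ (z ∪ W))) := by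
        intro W
        by_cases hv : C.eval (chi (z ∪ W)) = true
        · rw [ind_of hv]
          linarith [ind_nonneg (∃ j < C.gates.length, cov (𝒜 j) (z ∪ W) ∧
              (runGates (chi (z ∪ W)) C.gates).getD j false = false),
            ind_nonneg (cov 𝒞 (z ∪ W) ∧ ¬ cov ℱ (z ∪ W))]
        · by_cases hbad : ∃ j < C.gates.length, cov (𝒜 j) (z ∪ W) ∧
              (runGates (chi (z ∪ W)) C.gates).getD j false = false
          · rw [ind_of hbad]
            linarith [ind_nonneg (C.eval (chi (z ∪ W)) = true),
              ind_nonneg (cov 𝒞 (z ∪ W) ∧ ¬ cov ℱ (z ∪ W))]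
          · have hbad' : ∀ j < C.gates.length, cov (𝒜 j) (z ∪ W) →
                (runGates (chi (z ∪ W)) C.gates).getD j false = true := by
              push Not at hbad
              intro j hj hc
              simpa using hbad j hj hc
            have : cov 𝒞 (z ∪ W) ∧ ¬ cov ℱ (z ∪ W) := by
              refine ⟨cov_mono (le_refl _) Finset.subset_union_left hz, ?_⟩
              intro hF
              exact hv (src_neg hbad' C.out hF)
            rw [ind_of this]
            linarith [ind_nonneg (C.eval (chi (z ∪ W)) = true),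
              ind_nonneg (∃ j < C.gates.length, cov (𝒜 j) (z ∪ W) ∧
                (runGates (chi (z ∪ W)) C.gates).getD j false = false)]
      have h4 := En_mono (D := D) L hpt
      rw [En_const hD, En_add, En_add] at h4
      have h5 := h3 z
      have h6 := hc4 z
      have h7 : ((smalls (X := X) (2 * e) \ ℱ).card : ℝ) * (1 / 2 : ℝ) ^ L ≤ δ := by
        rw [hδ]
        apply mul_le_mul_of_nonneg_right _ (by positivity)
        exact_mod_cast Finset.card_le_card Finset.sdiff_subset
      rw [← hn] at h4
      linarith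
    · rw [ind_not hz]
      have : 0 ≤ En D L (fun W => ind (C.eval (chi (z ∪ W)) = true)) :=
        En_nonneg L (fun W => ind_nonneg _)
      positivity
  have hneg' : Ez D (fun z => ind (cov 𝒞 z))
      ≤ En D (L + 1) (fun U => ind (C.eval (chi U) = true)) + (n + 1) * δ := by
    refine le_trans (Ez_mono hneg) ?_
    rw [Ez_add, Ez_const hD]
    simp only [En]
    linarith
  have hcmp := Ev_cov_le hD hL (by omega : 0 < 2 * e) hc3 hc2 v hκ hsp hBκ
  have hsize : (C.size : ℝ) = n := by rw [hn]; rfl
  rw [hsize]
  linarith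

end Pool.Agent.T9h34
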