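import Pool.Agent.T9h34.Approx

/-!
The random chain of noise levels and the induction on the number of further gates.
-/

namespace Pool.Agent.T9h34

open Finset

section subst

variable {ι κ : Type*}

/-- Replace input variables by input variables or constants. -/
def Src.subst (σ : ι → κ ⊕ Bool) : Src ι → Src κ
  | .input i => match σ i with
    | .inl k => .input k
    | .inr b => .const b
  | .const b => .const b
  | .gate j => .gate j

/-- Replace input variables by input variables or constants. -/
def Gate.subst (σ : ι → κ ⊕ Bool) : Gate ι → Gate κ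
  | .and a b => .and (a.subst σ) (b.subst σ)
  | .or a b => .or (a.subst σ) (b.subst σ)
  | .other args φ => .other (args.map (Src.subst σ)) φ

/-- Replace input variables by input variables or constants. -/
def Circuit.subst (σ : ι → κ ⊕ Bool) (C : Circuit ι) : Circuit κ :=
  ⟨C.gates.map (Gate.subst σ), C.out.subst σ⟩

/-- The input of the original circuit corresponding to an input of the substituted one. -/
def pull (σ : ι → κ ⊕ Bool) (y : κ → Bool) : ι → Bool := fun i => Sum.elim y id (σ i)

theorem Src.eval_subst (σ : ι → κ ⊕ Bool) (y : κ → Bool) (vals : List Bool) (a : Src ι) :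
    (a.subst σ).eval y vals = a.eval (pull σ y) vals := by
  cases a with
  | input i =>
    simp only [Src.subst, Src.eval, pull]
    cases σ i <;> rfl
  | const b => rfl
  | gate j => rfl

theorem Gate.eval_subst (σ : ι → κ ⊕ Bool) (y : κ → Bool) (vals : List Bool) (g : Gate ι) :
    (g.subst σ).eval y vals = g.eval (pull σ y) vals := by
  cases g with
  | and a b => simp [Gate.subst, Gate.eval, Src.eval_subst]
  | or a b => simp [Gate.subst, Gate.eval, Src.eval_subst]
  | other args φ =>
    simp only [Gate.subst, Gate.eval, List.map_map]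
    congr 1
    apply List.map_congr_left
    intro a _
    exact Src.eval_subst σ y vals a

theorem runGates_subst (σ : ι → κ ⊕ Bool) (y : κ → Bool) (gs : List (Gate ι)) :
    runGates y (gs.map (Gate.subst σ)) = runGates (pull σ y) gs := by
  induction gs using List.reverseRecOn with
  | nil => rfl
  | append_singleton gs g ih =>
    rw [List.map_append, List.map_singleton, runGates_append, runGates_append, ih,
      Gate.eval_subst]

theorem Circuit.eval_subst (σ : ι → κ ⊕ Bool) (y : κ → Bool) (C : Circuit ι) :
    (C.subst σ).eval y = C.eval (pull σ y) := by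
  unfold Circuit.eval Circuit.subst
  rw [runGates_subst, Src.eval_subst]

theorem Gate.isOther_subst (σ : ι → κ ⊕ Bool) (g : Gate ι) :
    (g.subst σ).isOther = g.isOther := by
  cases g <;> rfl

theorem Circuit.size_subst (σ : ι → κ ⊕ Bool) (C : Circuit ι) : (C.subst σ).size = C.size := by
  simp [Circuit.size, Circuit.subst]

theorem Circuit.numOther_subst (σ : ι → κ ⊕ Bool) (C : Circuit ι) :
    (C.subst σ).numOther = C.numOther := by
  unfold Circuit.numOther Circuit.subst
  rw [List.countP_map]
  congr 1
  funext g
  exact Gate.isOther_subst σ g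

theorem Circuit.fanIn_subst (σ : ι → κ ⊕ Bool) (C : Circuit ι) {d : ℕ} (h : C.FanIn d) :
    (C.subst σ).FanIn d := by
  intro args φ hmem
  simp only [Circuit.subst, List.mem_map] at hmem
  obtain ⟨g, hg, hgs⟩ := hmem
  cases g with
  | and a b => simp [Gate.subst] at hgs
  | or a b => simp [Gate.subst] at hgs
  | other args' φ' =>
    simp only [Gate.subst, Gate.other.injEq] at hgs
    obtain ⟨rfl, rfl⟩ := hgs
    rw [List.length_map]
    exact h _ _ hg

end subst

section first

variable {ι : Type*}

theorem runGates_split (x : ι → Bool) (pre post : List (Gate ι)) (g : Gate ι) :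
    runGates x (pre ++ g :: post)
      = post.foldl (fun vals g => vals ++ [g.eval x vals])
          (runGates x pre ++ [g.eval x (runGates x pre)]) := by
  simp [runGates, List.foldl_append]

/-- The gate with constant value `b`. -/
def constGate (b : Bool) : Gate ι := .and (.const b) (.const b)

theorem constGate_eval (b : Bool) (x : ι → Bool) (vals : List Bool) :
    (constGate b : Gate ι).eval x vals = b := by
  cases b <;> rfl

theorem exists_first_other (gs : List (Gate ι)) (h : 0 < gs.countP Gate.isOther) :
    ∃ pre args φ post, gs = pre ++ Gate.other args φ :: post ∧ ∀ g ∈ pre, g.IsMono := by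
  induction gs with
  | nil => simp at h
  | cons g gs ih =>
    cases hg : g.isOther with
    | true =>
      cases g with
      | and a b => simp [Gate.isOther] at hg
      | or a b => simp [Gate.isOther] at hg
      | other args φ => exact ⟨[], args, φ, gs, rfl, by simp⟩
    | false =>
      rw [List.countP_cons_of_neg (by simp [hg])] at h
      obtain ⟨pre, args, φ, post, h1, h2⟩ := ih h
      refine ⟨g :: pre, args, φ, post, by rw [h1]; rfl, ?_⟩
      intro g' hg'
      rcases List.mem_cons.1 hg' with h3 | h3
      · rw [h3]; exact hg
      · exact h2 g' h3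

end first

variable {X : Type*} [Fintype X] [DecidableEq X] {Ω : Type*} [Fintype Ω]

/-- The weight of a function of pairs `U ⊆ W`, where `U` is a random noise set of a random level
and `W` is `U` together with a random positive test. -/
noncomputable def Mf (D L r : ℕ) (v : Ω → Finset X) (G : Finset X → Finset X → ℝ) : ℝ :=
  ∑ j ∈ Finset.range r, En D (j * (L + 1)) (fun U => Ev v (fun V => G U (U ∪ V)))

theorem Mf_mono (D L r : ℕ) (v : Ω → Finset X) {G H : Finset X → Finset X → ℝ}
    (h : ∀ U W, G U W ≤ H U W) : Mf D L r v G ≤ Mf D L r v H := by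
  unfold Mf
  apply Finset.sum_le_sum
  intro j _
  apply En_mono
  intro U
  apply Ev_mono
  intro V
  exact h _ _

theorem Mf_add (D L r : ℕ) (v : Ω → Finset X) (G H : Finset X → Finset X → ℝ) :
    Mf D L r v (fun U W => G U W + H U W) = Mf D L r v G + Mf D L r v H := by
  unfold Mf
  rw [← Finset.sum_add_distrib]
  apply Finset.sum_congr rfl
  intro j _
  rw [← En_add]
  congr 1
  funext U
  rw [← Ev_add]

theorem Mf_zero {D : ℕ} (L r : ℕ) (v : Ω → Finset X) :
    Mf D L r v (fun _ _ => 0) = 0 := by
  unfold Mf
  apply Finset.sum_eq_zero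
  intro j _
  have h1 : (fun U : Finset X => Ev v (fun _ => (0 : ℝ))) = fun _ => 0 * 1 := by
    funext U
    unfold Ev
    simp
  rw [h1, En_const_mul, zero_mul]

theorem Mf_list {α : Type*} {D : ℕ} (L r : ℕ) (v : Ω → Finset X) (l : List α)
    (F : α → Finset X → Finset X → ℝ) {γ : ℝ} (h : ∀ a ∈ l, Mf D L r v (F a) ≤ γ) :
    Mf D L r v (fun U W => (l.map (fun a => F a U W)).sum) ≤ l.length * γ := by
  induction l with
  | nil =>
    simp only [List.map_nil, List.sum_nil, List.length_nil]
    rw [Mf_zero]
    simp
  | cons a l ih =>
    simp only [List.map_cons, List.sum_cons, List.length_cons]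
    rw [Mf_add]
    have h1 := h a (by simp)
    have h2 := ih (fun b hb => h b (by simp [hb]))
    push_cast
    linarith

/-- The error term of the domination lemma for circuits of size at most `s`. -/
noncomputable def err (X : Type*) [Fintype X] [DecidableEq X] (L e s : ℕ) : ℝ :=
  s * (1 / 4 : ℝ) ^ e + 2 * ((s + 1) * (((smalls (X := X) (2 * e)).card : ℝ) * (1 / 2 : ℝ) ^ L))

theorem err_mono {L e s s' : ℕ} (h : s ≤ s') : err X L e s ≤ err X L e s' := by
  unfold err
  have h1 : (s : ℝ) ≤ s' := by exact_mod_cast h
  have h2 : (0 : ℝ) ≤ (1 / 4) ^ e := by positivity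
  have h3 : (0 : ℝ) ≤ ((smalls (X := X) (2 * e)).card : ℝ) * (1 / 2 : ℝ) ^ L := by positivity
  have h4 := mul_le_mul_of_nonneg_right h1 h2
  have h5 := mul_le_mul_of_nonneg_right (add_le_add_left h1 (1 : ℝ)) h3
  linarith

theorem err_nonneg {L e s : ℕ} : 0 ≤ err X L e s := by
  unfold err
  positivity

variable {D L e : ℕ} {κ : ℝ} {v : Ω → Finset X}

/-- A circuit of AND and OR gates separates few of the pairs. -/
theorem Mf_mono_circuit (hD : 0 < D) (hL : 0 < L) (he : 1 ≤ e) (hκ : 0 ≤ κ)
    (hsp : Spread v (2 * e) κ) (hBκ : 2 * ((2 * e : ℕ) : ℝ) * D * κ ≤ 1 / 4)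
    (r : ℕ) (C : Circuit X) (hm : ∀ g ∈ C.gates, g.IsMono) {s : ℕ} (hs : C.size ≤ s) :
    Mf D L r v (fun U W => ind (C.eval (chi U) ≠ C.eval (chi W))) ≤ 2 + r * err X L e s := by
  set F : Finset X → ℝ := fun U => ind (C.eval (chi U) = true) with hF
  have hstep : ∀ j : ℕ, En D (j * (L + 1))
      (fun U => Ev v (fun V => ind (C.eval (chi U) ≠ C.eval (chi (U ∪ V)))))
      ≤ 2 * (En D ((j + 1) * (L + 1)) F - En D (j * (L + 1)) F) + err X L e s := by
    intro j
    have hpt : ∀ U : Finset X, Ev v (fun V => ind (C.eval (chi U) ≠ C.eval (chi (U ∪ V))))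
        ≤ 2 * (En D (L + 1) (fun W => F (U ∪ W)) - F U) + err X L e s := by
      intro U
      by_cases hU : C.eval (chi U) = true
      · have h1 : ∀ W : Finset X, C.eval (chi (U ∪ W)) = true := by
          intro W
          refine Circuit.eval_mono ?_ C hm hU
          intro i hi
          simp only [chi, decide_eq_true_eq] at hi ⊢
          exact Finset.mem_union_left _ hi
        have h2 : (fun V : Finset X => ind (C.eval (chi U) ≠ C.eval (chi (U ∪ V))))
            = fun _ => (0 : ℝ) * 1 := by
          funext V
          rw [ind_not, zero_mul]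
          rw [hU, h1 V]
          simp
        rw [h2, Ev_const_mul, zero_mul]
        have h3 : (fun W : Finset X => F (U ∪ W)) = fun _ => 1 := by
          funext W
          exact ind_of (h1 W)
        rw [h3, En_const hD]
        have h4 : F U = 1 := ind_of hU
        rw [h4]
        have := err_nonneg (X := X) (L := L) (e := e) (s := s)
        linarith
      · have hU' : C.eval (chi U) = false := by simpa using hU
        -- the restricted circuit
        set σ : X → X ⊕ Bool := fun i => if i ∈ U then Sum.inr true else Sum.inl i with hσ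
        have hpull : ∀ V : Finset X, pull σ (chi V) = chi (U ∪ V) := by
          intro V
          funext i
          simp only [pull, hσ, chi]
          by_cases hi : i ∈ U
          · simp [hi]
          · simp [hi, chi]
        have hev : ∀ V : Finset X, (C.subst σ).eval (chi V) = C.eval (chi (U ∪ V)) := by
          intro V
          rw [Circuit.eval_subst, hpull]
        have hm' : ∀ g ∈ (C.subst σ).gates, g.IsMono := by
          intro g hg
          simp only [Circuit.subst, List.mem_map] at hg
          obtain ⟨g', hg', rfl⟩ := hg
          unfold Gate.IsMono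
          rw [Gate.isOther_subst]
          exact hm g' hg'
        have hdom := domination hD hL he v hκ hsp hBκ (C.subst σ) hm'
        simp only [hev] at hdom
        rw [Circuit.size_subst] at hdom
        have h1 : Ev v (fun V => ind (C.eval (chi U) ≠ C.eval (chi (U ∪ V))))
            ≤ Ev v (fun V => ind (C.eval (chi (U ∪ V)) = true)) := by
          apply Ev_mono
          intro V
          apply ind_mono
          intro h
          rw [hU'] at h
          simpa using h.symm
        have h2 : F U = 0 := ind_not hU
        have h3 := err_mono (X := X) (L := L) (e := e) hs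
        unfold err at h3
        rw [h2]
        unfold err
        linarith
    refine le_trans (En_mono _ hpt) ?_
    rw [En_add, En_const hD, En_const_mul, En_sub]
    have : (j + 1) * (L + 1) = j * (L + 1) + (L + 1) := by ring
    rw [this, En_add_rounds D (j * (L + 1)) (L + 1) F]
  unfold Mf
  refine le_trans (Finset.sum_le_sum (fun j _ => hstep j)) ?_
  rw [Finset.sum_add_distrib, ← Finset.mul_sum,
    Finset.sum_range_sub (fun j => En D (j * (L + 1)) F)]
  have h1 : En D (r * (L + 1)) F ≤ 1 := En_le_one hD _ (fun z => ind_le_one _)
  have h2 : 0 ≤ En D (0 * (L + 1)) F := En_nonneg _ (fun z => ind_nonneg _)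
  rw [Finset.sum_const, Finset.card_range, nsmul_eq_mul]
  linarith

/-- The induction on the number of further gates. -/
theorem Mf_circuit (hD : 0 < D) (hL : 0 < L) (he : 1 ≤ e) (hκ : 0 ≤ κ)
    (hsp : Spread v (2 * e) κ) (hBκ : 2 * ((2 * e : ℕ) : ℝ) * D * κ ≤ 1 / 4)
    (r s d : ℕ) (t : ℕ) (C : Circuit X) (ht : C.numOther = t) (hs : C.size ≤ s)
    (hd : C.FanIn d) :
    Mf D L r v (fun U W => ind (C.eval (chi U) ≠ C.eval (chi W)))
      ≤ ((2 : ℝ) ^ t * (1 + d) - d) * (2 + r * err X L e s) := by
  induction t generalizing C with
  | zero =>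
    have hm : ∀ g ∈ C.gates, g.IsMono := by
      intro g hg
      unfold Circuit.numOther at ht
      rw [List.countP_eq_zero] at ht
      have := ht g hg
      simpa [Gate.IsMono] using this
    have := Mf_mono_circuit hD hL he hκ hsp hBκ r C hm hs
    rw [pow_zero, one_mul, add_sub_cancel_right, one_mul]
    exact this
  | succ t ih =>
    obtain ⟨pre, args, φ, post, hgs, hpre⟩ := exists_first_other C.gates (by
      unfold Circuit.numOther at ht; omega)
    set γ := 2 + r * err X L e s with hγ
    have hγ0 : 0 ≤ γ := by
      have := err_nonneg (X := X) (L := L) (e := e) (s := s)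
      positivity
    set Cb : Bool → Circuit X := fun b => ⟨pre ++ constGate b :: post, C.out⟩ with hCb
    have hlen : ∀ b, (Cb b).size ≤ s := by
      intro b
      have : (Cb b).size = C.size := by
        simp only [Circuit.size, hCb, hgs, List.length_append, List.length_cons]
      omega
    have hnum : ∀ b, (Cb b).numOther = t := by
      intro b
      unfold Circuit.numOther at ht ⊢
      rw [hgs] at ht
      simp only [hCb, List.countP_append, List.countP_cons] at ht ⊢
      simp only [constGate, Gate.isOther] at ht ⊢
      simp only [if_true, Bool.false_eq_true, if_false] at ht ⊢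
      omega
    have hfan : ∀ b, (Cb b).FanIn d := by
      intro b args' φ' hmem
      simp only [hCb, List.mem_append, List.mem_cons] at hmem
      apply hd args' φ'
      rw [hgs]
      rcases hmem with h | h | h
      · exact List.mem_append_left _ h
      · exact absurd h (by simp [constGate])
      · exact List.mem_append_right _ (List.mem_cons_of_mem _ h)
    have hargs : args.length ≤ d := hd args φ (by rw [hgs]; simp)
    have hpt : ∀ U W : Finset X, ind (C.eval (chi U) ≠ C.eval (chi W))
        ≤ (args.map (fun a => ind ((⟨pre, a⟩ : Circuit X).eval (chi U)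
              ≠ (⟨pre, a⟩ : Circuit X).eval (chi W)))).sum
          + (ind ((Cb false).eval (chi U) ≠ (Cb false).eval (chi W))
            + ind ((Cb true).eval (chi U) ≠ (Cb true).eval (chi W))) := by
      intro U W
      by_cases hall : ∀ a ∈ args, (⟨pre, a⟩ : Circuit X).eval (chi U)
          = (⟨pre, a⟩ : Circuit X).eval (chi W)
      · set b := φ (args.map (fun a => a.eval (chi U) (runGates (chi U) pre))) with hb
        have hb' : φ (args.map (fun a => a.eval (chi W) (runGates (chi W) pre))) = b := by
          rw [hb]
          congr 1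
          apply List.map_congr_left
          intro a ha
          exact (hall a ha).symm
        have hrun : ∀ Z : Finset X,
            φ (args.map (fun a => a.eval (chi Z) (runGates (chi Z) pre))) = b →
            C.eval (chi Z) = (Cb b).eval (chi Z) := by
          intro Z hZ
          unfold Circuit.eval
          simp only [hCb]
          rw [hgs, runGates_split, runGates_split]
          have h1 : (Gate.other args φ : Gate X).eval (chi Z) (runGates (chi Z) pre) = b := hZ
          rw [h1, constGate_eval]
        have hU := hrun U hb.symm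
        have hW := hrun W hb'
        rw [hU, hW]
        have hsum : 0 ≤ (args.map (fun a => ind ((⟨pre, a⟩ : Circuit X).eval (chi U)
              ≠ (⟨pre, a⟩ : Circuit X).eval (chi W)))).sum := by
          apply List.sum_nonneg
          intro y hy
          simp only [List.mem_map] at hy
          obtain ⟨a, _, rfl⟩ := hy
          exact ind_nonneg _
        have h0 := ind_nonneg ((Cb false).eval (chi U) ≠ (Cb false).eval (chi W))
        have h1 := ind_nonneg ((Cb true).eval (chi U) ≠ (Cb true).eval (chi W))
        cases b <;> linarith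
      · push Not at hall
        obtain ⟨a, ha, hne⟩ := hall
        have h1 : (1 : ℝ) ≤ (args.map (fun a => ind ((⟨pre, a⟩ : Circuit X).eval (chi U)
              ≠ (⟨pre, a⟩ : Circuit X).eval (chi W)))).sum := by
          rw [← ind_of hne]
          apply List.single_le_sum
          · intro y hy
            simp only [List.mem_map] at hy
            obtain ⟨a, _, rfl⟩ := hy
            exact ind_nonneg _
          · exact List.mem_map.2 ⟨a, ha, rfl⟩
        have h0 := ind_nonneg ((Cb false).eval (chi U) ≠ (Cb false).eval (chi W))
        have h2 := ind_nonneg ((Cb true).eval (chi U) ≠ (Cb true).eval (chi W))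
        have h3 := ind_le_one (C.eval (chi U) ≠ C.eval (chi W))
        linarith
    refine le_trans (Mf_mono D L r v hpt) ?_
    rw [Mf_add, Mf_add]
    have h1 : Mf D L r v (fun U W => (args.map (fun a => ind ((⟨pre, a⟩ : Circuit X).eval (chi U)
              ≠ (⟨pre, a⟩ : Circuit X).eval (chi W)))).sum) ≤ args.length * γ := by
      apply Mf_list
      intro a _
      apply Mf_mono_circuit hD hL he hκ hsp hBκ r ⟨pre, a⟩ hpre
      have : C.size = pre.length + (post.length + 1) := by
        simp only [Circuit.size, hgs, List.length_append, List.length_cons]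
      have h2 : (⟨pre, a⟩ : Circuit X).size = pre.length := rfl
      omega
    have h2 := ih (Cb false) (hnum false) (hlen false) (hfan false)
    have h3 := ih (Cb true) (hnum true) (hlen true) (hfan true)
    have h4 : (args.length : ℝ) * γ ≤ d * γ := by
      apply mul_le_mul_of_nonneg_right _ hγ0
      exact_mod_cast hargs
    rw [pow_succ]
    linarith

/-- **Abstract lower bound.** -/
theorem abstract_bound [Nonempty Ω] (hD : 0 < D) (hL : 0 < L) (he : 1 ≤ e) (hκ : 0 ≤ κ)
    (hsp : Spread v (2 * e) κ) (hBκ : 2 * ((2 * e : ℕ) : ℝ) * D * κ ≤ 1 / 4)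
    (r s d : ℕ) {a : ℕ} (hcard : ∀ ω, (v ω).card = a)
    (hfew : (Fintype.card Ω : ℝ) * ((r * (L + 1) : ℕ) / (D : ℝ)) ^ a ≤ 1 / 2)
    (C : Circuit X) (hs : C.size ≤ s) (hd : C.FanIn d)
    (hC : ∀ Z : Finset X, C.eval (chi Z) = true ↔ ∃ ω, v ω ⊆ Z) :
    (r : ℝ) / 2 ≤ (2 : ℝ) ^ C.numOther * (1 + d) * (2 + r * err X L e s) := by
  have hup := Mf_circuit hD hL he hκ hsp hBκ r s d C.numOther C rfl hs hd
  have hlow : (r : ℝ) / 2 ≤ Mf D L r v (fun U W => ind (C.eval (chi U) ≠ C.eval (chi W))) := by
    have hterm : ∀ j ∈ Finset.range r, (1 : ℝ) / 2 ≤ En D (j * (L + 1))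
        (fun U => Ev v (fun V => ind (C.eval (chi U) ≠ C.eval (chi (U ∪ V))))) := by
      intro j hj
      rw [Finset.mem_range] at hj
      have hpt : ∀ U : Finset X, 1 - ∑ ω : Ω, ind (v ω ⊆ U)
          ≤ Ev v (fun V => ind (C.eval (chi U) ≠ C.eval (chi (U ∪ V)))) := by
        intro U
        by_cases hU : ∃ ω, v ω ⊆ U
        · obtain ⟨ω, hω⟩ := hU
          have h1 : (1 : ℝ) ≤ ∑ ω : Ω, ind (v ω ⊆ U) := by
            rw [← ind_of hω]
            exact Finset.single_le_sum (f := fun ω => ind (v ω ⊆ U)) (fun b _ => ind_nonneg _)
              (Finset.mem_univ ω)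
          have h2 := Ev_nonneg v (F := fun V => ind (C.eval (chi U) ≠ C.eval (chi (U ∪ V))))
            (fun z => ind_nonneg _)
          linarith
        · have hU' : C.eval (chi U) = false := by
            have : ¬ (C.eval (chi U) = true) := fun h => hU ((hC U).1 h)
            simpa using this
          have h1 : (1 : ℝ) ≤ Ev v (fun V => ind (C.eval (chi U) ≠ C.eval (chi (U ∪ V)))) := by
            rw [← Ev_const v (1 : ℝ)]
            apply Ev_mono'
            intro ω
            have : C.eval (chi (U ∪ v ω)) = true := (hC _).2 ⟨ω, Finset.subset_union_right⟩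
            rw [hU', this, ind_of (by simp)]
          have h2 : 0 ≤ ∑ ω : Ω, ind (v ω ⊆ U) := Finset.sum_nonneg (fun b _ => ind_nonneg _)
          linarith
      refine le_trans ?_ (En_mono _ hpt)
      have h1 : En D (j * (L + 1)) (fun U => 1 - ∑ ω : Ω, ind (v ω ⊆ U))
          = 1 - ∑ ω : Ω, En D (j * (L + 1)) (fun U => ind (v ω ⊆ U)) := by
        rw [En_sub, En_const hD]
        congr 1
        have hsum : ∀ s : Finset Ω, En D (j * (L + 1)) (fun U => ∑ ω ∈ s, ind (v ω ⊆ U))
            = ∑ ω ∈ s, En D (j * (L + 1)) (fun U => ind (v ω ⊆ U)) := by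
          intro s
          classical
          induction s using Finset.induction_on with
          | empty => simp [En_const hD]
          | insert ω s hω ih =>
            simp only [Finset.sum_insert hω]
            rw [En_add, ih]
        exact hsum _
      rw [h1]
      have h2 : ∀ ω ∈ (Finset.univ : Finset Ω), En D (j * (L + 1)) (fun U => ind (v ω ⊆ U))
          ≤ ((r * (L + 1) : ℕ) / (D : ℝ)) ^ a := by
        intro ω _
        refine le_trans (En_subset_le hD _ _) ?_
        rw [hcard ω]
        apply pow_le_pow_left₀ (by positivity)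
        apply div_le_div_of_nonneg_right _ (by positivity)
        exact_mod_cast Nat.mul_le_mul_right _ hj.le
      have h3 := Finset.sum_le_sum h2
      rw [Finset.sum_const, Finset.card_univ, nsmul_eq_mul] at h3
      linarith
    have h1 := Finset.sum_le_sum hterm
    rw [Finset.sum_const, Finset.card_range, nsmul_eq_mul] at h1
    unfold Mf
    linarith
  have hγ0 : 0 ≤ 2 + r * err X L e s := by
    have := err_nonneg (X := X) (L := L) (e := e) (s := s)
    positivity
  have h5 : ((2 : ℝ) ^ C.numOther * (1 + d) - d) * (2 + r * err X L e s)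
      ≤ (2 : ℝ) ^ C.numOther * (1 + d) * (2 + r * err X L e s) := by
    apply mul_le_mul_of_nonneg_right _ hγ0
    have : (0 : ℝ) ≤ d := by positivity
    linarith
  linarith

end Pool.Agent.T9h34
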