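import Pool.Agent.T9h34.ReadsDef
import Pool.Agent.T9h34.Chain

/-!
The monotone circuit that detects a change of the values read by the non-monotone gates.
-/

namespace Pool.Agent.T9h34

open Finset

section pre

variable {ι : Type*}

theorem getD_runGates_take (x : ι → Bool) (gs : List (Gate ι)) {j k : ℕ} (hk : k < j)
    (hj : j ≤ gs.length) :
    (runGates x (gs.take j)).getD k false = (runGates x gs).getD k false := by
  induction gs using List.reverseRecOn with
  | nil => simp
  | append_singleton gs g ih =>
    by_cases h : j ≤ gs.length
    · rw [List.take_append_of_le_length h, ih h, runGates_append,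
        getD_append_lt (by rw [length_runGates]; omega)]
    · have : (gs ++ [g]).take j = gs ++ [g] := by
        apply List.take_of_length_le
        simp only [List.length_append, List.length_singleton]
        omega
      rw [this]

/-- Replace the non-monotone gates by the constants `b`. -/
def fixOther (b : ℕ → Bool) : ℕ → List (Gate ι) → List (Gate ι)
  | _, [] => []
  | k, g :: gs => (if g.isOther then constGate (b k) else g) :: fixOther b (k + 1) gs

theorem fixOther_append (b : ℕ → Bool) (k : ℕ) (gs : List (Gate ι)) (g : Gate ι) :
    fixOther b k (gs ++ [g])
      = fixOther b k gs ++ [if g.isOther then constGate (b (k + gs.length)) else g] := by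
  induction gs generalizing k with
  | nil => simp [fixOther]
  | cons h gs ih =>
    simp only [List.cons_append, fixOther, List.length_cons]
    rw [ih]
    have : k + 1 + gs.length = k + (gs.length + 1) := by omega
    rw [this]

theorem length_fixOther (b : ℕ → Bool) (k : ℕ) (gs : List (Gate ι)) :
    (fixOther b k gs).length = gs.length := by
  induction gs generalizing k with
  | nil => rfl
  | cons h gs ih => simp [fixOther, ih]

theorem fixOther_isMono (b : ℕ → Bool) (k : ℕ) (gs : List (Gate ι)) :
    ∀ g ∈ fixOther b k gs, g.IsMono := by
  induction gs generalizing k with
  | nil => simp [fixOther]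
  | cons h gs ih =>
    intro g hg
    simp only [fixOther, List.mem_cons] at hg
    rcases hg with rfl | hg
    · split_ifs with h1
      · rfl
      · simpa [Gate.IsMono] using h1
    · exact ih (k + 1) g hg

/-- If all values read agree with those read at `y` then the fixed circuit computes the same
values of all gates. -/
theorem runGates_fixOther (x y : ι → Bool) (gs : List (Gate ι))
    (h : ∀ (j : ℕ) (g : Gate ι), gs[j]? = some g → ∀ a ∈ g.args,
      a.eval x (runGates x (fixOther (fun k => (runGates y gs).getD k false) 0 (gs.take j)))
        = a.eval y (runGates y (gs.take j))) :
    ∀ k ≤ gs.length, runGates x (gs.take k)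
      = runGates x (fixOther (fun k => (runGates y gs).getD k false) 0 (gs.take k)) := by
  · intro k
    induction k with
    | zero => intro _; simp [fixOther]
    | succ k ih =>
      intro hk
      have hk' : k < gs.length := hk
      have htake : gs.take (k + 1) = gs.take k ++ [gs[k]] := by
        rw [List.take_succ_eq_append_getElem hk']
      have hgk : gs[k]? = some gs[k] := List.getElem?_eq_getElem hk'
      have h1 := ih hk'.le
      rw [htake, fixOther_append, runGates_append, runGates_append, ← h1]
      congr 2
      have hlen : (gs.take k).length = k := by rw [List.length_take]; omega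
      rw [hlen, Nat.zero_add]
      split_ifs with hoth
      · rw [constGate_eval]
        have h2 := h k gs[k] hgk
        rw [← h1] at h2
        have h3 : (runGates y gs).getD k false = gs[k].eval y (runGates y (gs.take k)) := by
          have h4 := getD_runGates_take y gs (j := k + 1) (k := k) (by omega) hk
          rw [htake, runGates_append, getD_append_eq (by rw [length_runGates, hlen])] at h4
          exact h4.symm
        rw [h3]
        cases hg : gs[k] with
        | and a b => rw [hg] at hoth; simp [Gate.isOther] at hoth
        | or a b => rw [hg] at hoth; simp [Gate.isOther] at hoth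
        | other args φ =>
          simp only [Gate.eval]
          congr 1
          apply List.map_congr_left
          intro a ha
          apply h2
          rw [hg]
          exact ha
      · rfl

theorem runGates_fixOther2 (x y : ι → Bool) (gs : List (Gate ι))
    (h : ∀ (j : ℕ) (g : Gate ι), gs[j]? = some g → ∀ a ∈ g.args,
      a.eval x (runGates x (gs.take j)) = a.eval y (runGates y (gs.take j))) :
    ∀ k ≤ gs.length, runGates x (gs.take k)
      = runGates x (fixOther (fun k => (runGates y gs).getD k false) 0 (gs.take k)) := by
  · intro k
    induction k with
    | zero => intro _; simp [fixOther]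
    | succ k ih =>
      intro hk
      have hk' : k < gs.length := hk
      have htake : gs.take (k + 1) = gs.take k ++ [gs[k]] := by
        rw [List.take_succ_eq_append_getElem hk']
      have hgk : gs[k]? = some gs[k] := List.getElem?_eq_getElem hk'
      have h1 := ih hk'.le
      rw [htake, fixOther_append, runGates_append, runGates_append, ← h1]
      congr 2
      have hlen : (gs.take k).length = k := by rw [List.length_take]; omega
      rw [hlen, Nat.zero_add]
      split_ifs with hoth
      · rw [constGate_eval]
        have h2 := h k gs[k] hgk
        have h3 : (runGates y gs).getD k false = gs[k].eval y (runGates y (gs.take k)) := by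
          have h4 := getD_runGates_take y gs (j := k + 1) (k := k) (by omega) hk
          rw [htake, runGates_append, getD_append_eq (by rw [length_runGates, hlen])] at h4
          exact h4.symm
        rw [h3]
        cases hg : gs[k] with
        | and a b => rw [hg] at hoth; simp [Gate.isOther] at hoth
        | or a b => rw [hg] at hoth; simp [Gate.isOther] at hoth
        | other args φ =>
          simp only [Gate.eval]
          congr 1
          apply List.map_congr_left
          intro a ha
          apply h2
          rw [hg]
          exact ha
      · rfl

theorem reads_eq {C : Circuit ι} {x y : ι → Bool} (h : C.reads x = C.reads y) (j : ℕ)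
    (g : Gate ι) (hg : C.gates[j]? = some g) : ∀ a ∈ g.args,
      a.eval x (runGates x (C.gates.take j)) = a.eval y (runGates y (C.gates.take j)) := by
  intro a ha
  have hj : j < C.gates.length := by
    by_contra hcon
    rw [List.getElem?_eq_none (by omega)] at hg
    exact absurd hg (by simp)
  unfold Circuit.reads at h
  have h1 := List.map_inj_left.1 h j (List.mem_range.2 hj)
  unfold Circuit.readsAt at h1
  rw [hg] at h1
  exact List.map_inj_left.1 h1 a ha

theorem runGates_fixOther_self (y : ι → Bool) (gs : List (Gate ι)) :
    ∀ k ≤ gs.length, runGates y (gs.take k)
      = runGates y (fixOther (fun k => (runGates y gs).getD k false) 0 (gs.take k)) := by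
  intro k
  induction k with
  | zero => intro _; simp [fixOther]
  | succ k ih =>
    intro hk
    have hk' : k < gs.length := hk
    have htake : gs.take (k + 1) = gs.take k ++ [gs[k]] := by
      rw [List.take_succ_eq_append_getElem hk']
    have h1 := ih hk'.le
    rw [htake, fixOther_append, runGates_append, runGates_append, ← h1]
    congr 2
    have hlen : (gs.take k).length = k := by rw [List.length_take]; omega
    rw [hlen, Nat.zero_add]
    split_ifs with hoth
    · rw [constGate_eval]
      have h4 := getD_runGates_take y gs (j := k + 1) (k := k) (by omega) hk
      rw [htake, runGates_append, getD_append_eq (by rw [length_runGates, hlen])] at h4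
      exact h4
    · rfl

theorem fixOther_take (b : ℕ → Bool) (gs : List (Gate ι)) (j : ℕ) :
    ∀ k, fixOther b k (gs.take j) = (fixOther b k gs).take j := by
  induction gs generalizing j with
  | nil => intro k; simp [fixOther]
  | cons g gs ih =>
    intro k
    cases j with
    | zero => simp [fixOther]
    | succ j =>
      simp only [List.take_succ_cons, fixOther]
      rw [ih]

/-- Add OR gates. -/
theorem exists_or_circuit (gs : List (Gate ι)) (hm : ∀ g ∈ gs, g.IsMono) (as : List (Src ι))
    (hval : ∀ a ∈ as, ∀ k, a = .gate k → k < gs.length) :
    ∃ E : Circuit ι, (∀ g ∈ E.gates, g.IsMono) ∧ E.size = gs.length + as.length ∧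
      (∃ tl, E.gates = gs ++ tl) ∧ (∀ k, E.out = .gate k → k < E.size) ∧
      ∀ x, E.eval x = true ↔ ∃ a ∈ as, a.eval x (runGates x gs) = true := by
  induction as with
  | nil =>
    refine ⟨⟨gs, .const false⟩, hm, by simp [Circuit.size], ⟨[], by simp⟩, by simp, ?_⟩
    intro x
    simp [Circuit.eval, Src.eval]
  | cons a as ih =>
    obtain ⟨E, h1, h2, ⟨tl, h3⟩, h4, h5⟩ := ih (fun b hb => hval b (by simp [hb]))
    refine ⟨⟨E.gates ++ [.or a E.out], .gate E.size⟩, ?_, ?_, ?_, ?_, ?_⟩
    · intro g hg
      simp only [List.mem_append, List.mem_singleton] at hg
      rcases hg with hg | rfl
      · exact h1 g hg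
      · rfl
    · have h2' : E.gates.length = gs.length + as.length := h2
      simp only [Circuit.size, List.length_append, List.length_cons, List.length_nil]
      omega
    · refine ⟨tl ++ [.or a E.out], ?_⟩
      simp only
      rw [h3, List.append_assoc]
    · intro k hk
      simp only [Src.gate.injEq] at hk
      simp only [Circuit.size, List.length_append, List.length_singleton] at hk ⊢
      omega
    · intro x
      have hlt : E.size = (runGates x E.gates).length := by rw [length_runGates]; rfl
      have h6 : (⟨E.gates ++ [.or a E.out], .gate E.size⟩ : Circuit ι).eval x
          = (a.eval x (runGates x E.gates) || E.out.eval x (runGates x E.gates)) := by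
        simp only [Circuit.eval, Src.eval]
        rw [runGates_append, getD_append_eq hlt]
        rfl
      have h7 : a.eval x (runGates x E.gates) = a.eval x (runGates x gs) := by
        cases a with
        | input i => rfl
        | const b => rfl
        | gate k =>
          simp only [Src.eval]
          have hk := hval (.gate k) (by simp) k rfl
          have h8 := getD_runGates_take x E.gates (j := gs.length) (k := k) hk (by rw [h3]; simp)
          rw [← h8, h3]
          simp
      rw [h6, h7, Bool.or_eq_true]
      have h9 := h5 x
      unfold Circuit.eval at h9
      rw [h9]
      simp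

/-- A source that gate number `k` may read. -/
def Src.Valid : Src ι → ℕ → Bool
  | .input _, _ => true
  | .const _, _ => true
  | .gate j, k => decide (j < k)

/-- The sources read by non-monotone gates that are false for the values `vals`. -/
def detSrcs (y : ι → Bool) (vals : List Bool) : ℕ → List (Gate ι) → List (Src ι)
  | _, [] => []
  | k, g :: gs => g.args.filter (fun a => a.Valid k && !(a.eval y vals)) ++ detSrcs y vals (k + 1) gs

theorem length_detSrcs (y : ι → Bool) (vals : List Bool) (gs : List (Gate ι)) :
    ∀ k, (detSrcs y vals k gs).length ≤ (gs.map (fun g => g.args.length)).sum := by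
  induction gs with
  | nil => intro k; simp [detSrcs]
  | cons g gs ih =>
    intro k
    simp only [detSrcs, List.length_append, List.map_cons, List.sum_cons]
    have := ih (k + 1)
    have h2 := List.length_filter_le (fun a => a.Valid k && !(a.eval y vals)) g.args
    omega

theorem mem_detSrcs (y : ι → Bool) (vals : List Bool) (gs : List (Gate ι)) (a : Src ι) :
    ∀ k, a ∈ detSrcs y vals k gs ↔
      ∃ j g, gs[j]? = some g ∧ a ∈ g.args ∧ a.Valid (k + j) = true ∧ a.eval y vals = false := by
  induction gs with
  | nil => intro k; simp [detSrcs]
  | cons g gs ih =>
    intro k
    simp only [detSrcs, List.mem_append, List.mem_filter, Bool.and_eq_true]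
    rw [ih (k + 1)]
    constructor
    · rintro (⟨h1, h2, h3⟩ | ⟨j, g', h1, h2, h3, h4⟩)
      · exact ⟨0, g, by simp, h1, h2, by simpa using h3⟩
      · refine ⟨j + 1, g', by simpa using h1, h2, ?_, h4⟩
        have : k + (j + 1) = k + 1 + j := by omega
        rw [this]
        exact h3
    · rintro ⟨j, g', h1, h2, h3, h4⟩
      cases j with
      | zero =>
        simp only [List.getElem?_cons_zero, Option.some.injEq] at h1
        subst h1
        exact Or.inl ⟨h2, h3, by simpa using h4⟩
      | succ j =>
        right
        refine ⟨j, g', by simpa using h1, h2, ?_, h4⟩
        have : k + 1 + j = k + (j + 1) := by omega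
        rw [this]
        exact h3

theorem Src.eval_invalid {a : Src ι} {k : ℕ} (h : a.Valid k = false) (x : ι → Bool)
    {vals : List Bool} (hv : vals.length = k) : a.eval x vals = false := by
  cases a with
  | input i => simp [Src.Valid] at h
  | const b => simp [Src.Valid] at h
  | gate j =>
    simp only [Src.Valid, decide_eq_false_iff_not, not_lt] at h
    simp only [Src.eval]
    rw [List.getD_eq_default]
    omega

theorem Src.eval_take {a : Src ι} {k : ℕ} (h : a.Valid k = true) (x : ι → Bool)
    (gs : List (Gate ι)) (hk : k ≤ gs.length) :
    a.eval x (runGates x (gs.take k)) = a.eval x (runGates x gs) := by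
  cases a with
  | input i => rfl
  | const b => rfl
  | gate j =>
    simp only [Src.Valid, decide_eq_true_eq] at h
    simp only [Src.eval]
    exact getD_runGates_take x gs h hk

/-- A monotone circuit that detects a change of the values read by the non-monotone gates or the
value `true` of the output. -/
theorem exists_detector (C : Circuit ι) (y : ι → Bool) :
    ∃ E : Circuit ι, (∀ g ∈ E.gates, g.IsMono) ∧ E.size ≤ C.size + C.numReads + 1 ∧
      (∀ x, (∀ i, y i = true → x i = true) → E.eval x = false →
        C.reads x = C.reads y ∧ C.eval x = false) ∧
      ∀ x, C.reads x = C.reads y → E.eval x = true → C.eval x = true := by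
  set gs := C.gates with hgs
  set b : ℕ → Bool := fun k => (runGates y gs).getD k false with hb
  set gs' := fixOther b 0 gs with hgs'
  set as : List (Src ι) := detSrcs y (runGates y gs) 0 gs
    ++ (if C.out.Valid gs.length then [C.out] else []) with has
  have hmono : ∀ g ∈ gs', g.IsMono := fixOther_isMono b 0 gs
  have hlen' : gs'.length = gs.length := length_fixOther b 0 gs
  have hval : ∀ a ∈ as, ∀ k, a = .gate k → k < gs'.length := by
    intro a ha k hk
    rw [has, List.mem_append] at ha
    rw [hlen']
    rcases ha with ha | ha
    · rw [mem_detSrcs] at ha
      obtain ⟨j, g, h1, _, h3, _⟩ := ha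
      rw [hk] at h3
      simp only [Src.Valid, decide_eq_true_eq, Nat.zero_add] at h3
      have : j < gs.length := by
        by_contra hcon
        rw [List.getElem?_eq_none (by omega)] at h1
        exact absurd h1 (by simp)
      omega
    · split_ifs at ha with h1
      · simp only [List.mem_singleton] at ha
        rw [← ha, hk] at h1
        simpa [Src.Valid] using h1
      · simp at ha
  obtain ⟨E, h1, h2, _, _, h5⟩ := exists_or_circuit gs' hmono as hval
  refine ⟨E, h1, ?_, ?_, ?_⟩
  · rw [h2, hlen', has, List.length_append]
    have h6 := length_detSrcs y (runGates y gs) gs 0
    have h7 : (if C.out.Valid gs.length then [C.out] else []).length ≤ 1 := by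
      split_ifs <;> simp
    unfold Circuit.size Circuit.numReads
    rw [← hgs]
    omega
  · intro x hxy hE
    have hfalse : ∀ a ∈ as, a.eval x (runGates x gs') = false := by
      intro a ha
      by_contra hcon
      have : E.eval x = true := (h5 x).2 ⟨a, ha, by simpa using hcon⟩
      rw [hE] at this
      exact absurd this (by simp)
    have hself : ∀ k ≤ gs.length, runGates y (gs.take k) = runGates y (gs'.take k) := by
      intro k hk
      rw [hgs', ← fixOther_take]
      exact runGates_fixOther_self y gs k hk
    have hselffull : runGates y gs = runGates y gs' := by
      have := hself gs.length le_rfl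
      rw [List.take_length] at this
      rwa [List.take_of_length_le hlen'.le] at this
    have hargs : ∀ (j : ℕ) (g : Gate ι), gs[j]? = some g → ∀ a ∈ g.args,
        a.eval x (runGates x (gs'.take j)) = a.eval y (runGates y (gs.take j)) := by
      intro j g hg a ha
      have hj : j < gs.length := by
        by_contra hcon
        rw [List.getElem?_eq_none (by omega)] at hg
        exact absurd hg (by simp)
      cases hv : a.Valid j with
      | false =>
        rw [Src.eval_invalid hv x (by rw [length_runGates, List.length_take]; omega),
          Src.eval_invalid hv y (by rw [length_runGates, List.length_take]; omega)]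
      | true =>
        rw [Src.eval_take hv x gs' (by omega), Src.eval_take hv y gs hj.le]
        cases hy : a.eval y (runGates y gs) with
        | false =>
          apply hfalse
          rw [has, List.mem_append]
          left
          rw [mem_detSrcs]
          exact ⟨j, g, hg, ha, by rw [Nat.zero_add]; exact hv, hy⟩
        | true =>
          rw [hselffull] at hy
          exact Src.eval_mono hxy (runGates_mono hxy gs' hmono) a hy
    have hpre : ∀ k ≤ gs.length, runGates x (gs.take k) = runGates x (gs'.take k) := by
      intro k hk
      have := runGates_fixOther x y gs (by
        intro j g hg a ha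
        have h6 := hargs j g hg a ha
        rw [hgs', ← fixOther_take] at h6
        exact h6) k hk
      rw [this, fixOther_take]
    have hfull : runGates x gs = runGates x gs' := by
      have := hpre gs.length le_rfl
      rw [List.take_length] at this
      rwa [List.take_of_length_le hlen'.le] at this
    constructor
    · unfold Circuit.reads
      apply List.map_congr_left
      intro j hj
      rw [List.mem_range] at hj
      unfold Circuit.readsAt
      rw [← hgs]
      cases hg : gs[j]? with
      | none => rfl
      | some g =>
        simp only
        apply List.map_congr_left
        intro a ha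
        rw [hpre j hj.le]
        exact hargs j g hg a ha
    · unfold Circuit.eval
      rw [← hgs]
      cases hv : C.out.Valid gs.length with
      | false => exact Src.eval_invalid hv x (length_runGates _ _)
      | true =>
        rw [hfull]
        apply hfalse
        rw [has, List.mem_append]
        right
        simp [hv]
  · intro x hreads hE
    have hread := reads_eq hreads
    rw [← hgs] at hread
    have hfull : runGates x gs = runGates x gs' := by
      have := runGates_fixOther2 x y gs hread gs.length le_rfl
      rwa [List.take_length] at this
    obtain ⟨a, ha, hae⟩ := (h5 x).1 hE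
    rw [← hfull] at hae
    rw [has, List.mem_append] at ha
    rcases ha with ha | ha
    · exfalso
      rw [mem_detSrcs] at ha
      obtain ⟨j, g, h6, h7, h8, h9⟩ := ha
      rw [Nat.zero_add] at h8
      have hj : j < gs.length := by
        by_contra hcon
        rw [List.getElem?_eq_none (by omega)] at h6
        exact absurd h6 (by simp)
      have h10 := hread j g h6 a h7
      rw [Src.eval_take h8 x gs hj.le, Src.eval_take h8 y gs hj.le, h9, hae] at h10
      exact absurd h10 (by simp)
    · split_ifs at ha with h6
      · simp only [List.mem_singleton] at ha
        rw [ha] at hae
        exact hae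
      · simp at ha

end pre

end Pool.Agent.T9h34
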