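import Pool.Agent.T9h16.Total
import Pool.Agent.T9h34.Reads

/-!
Small monotone circuits do not compute the block function of `Pool.Agent.T9h16`.
-/

set_option autoImplicit false

namespace Pool.Agent.T9h34

open Pool.Agent.T9h16

theorem leaf_const {E : Type} (b : Bool) : Leaf (fun _ : Set E => b = true) :=
  Or.inr ⟨b = true, fun _ => Iff.rfl⟩

theorem leaf_false {E : Type} {p : Set E → Prop} (h : ∀ z, ¬ p z) : Leaf p :=
  Or.inr ⟨False, fun z => iff_of_false (h z) not_false⟩

/-- Values of the sources that gate `i` reads. -/
theorem avail_src {Λ E : Type} (gs : List (Gate Λ)) (x : Set E → Λ → Bool)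
    (hleaf : ∀ a, Leaf (fun z => x z a = true)) (i : ℕ) (hi : i ≤ gs.length) (a : Src Λ) :
    Avail (fun j z => (runGates (x z) gs).getD j false = true) i
      (fun z => a.eval (x z) (runGates (x z) (gs.take i)) = true) := by
  cases a with
  | input e => exact Or.inl (hleaf e)
  | const b => exact Or.inl (leaf_const b)
  | gate j =>
    by_cases hj : j < i
    · right
      refine ⟨j, hj, fun z => ?_⟩
      simp only [Src.eval]
      rw [getD_runGates_take (x z) gs hj hi]
    · left
      apply leaf_false
      intro z
      simp only [Src.eval]
      rw [List.getD_eq_default _ _ (by rw [length_runGates, List.length_take]; omega)]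
      simp

/-- A small monotone circuit does not compute the block function. -/
theorem exists_wrong {Λ : Type} (r : ℕ) (hr : 2 ≤ r) (E : Circuit Λ)
    (hE : ∀ g ∈ E.gates, g.IsMono) (hs : E.size ≤ 2 ^ r)
    (x : Set (BE (GG r) (2 * r)) → Λ → Bool) (hleaf : ∀ a, Leaf (fun z => x z a = true))
    (hpos : ∀ z, TC z → E.eval (x z) = true) : ∃ z, ¬ TC z ∧ E.eval (x z) = true := by
  by_contra hcon
  push Not at hcon
  refine hard r hr E.size hs (fun j z => (runGates (x z) E.gates).getD j false = true) ?_
    {fun z => E.eval (x z) = true} ?_ ?_ ?_
  · intro i hi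
    right
    have hi' : i < E.gates.length := hi
    have hval : ∀ z, (runGates (x z) E.gates).getD i false
        = E.gates[i].eval (x z) (runGates (x z) (E.gates.take i)) := by
      intro z
      have h4 := getD_runGates_take (x z) E.gates (j := i + 1) (k := i) (by omega) hi'
      have htake : E.gates.take (i + 1) = E.gates.take i ++ [E.gates[i]] := by
        rw [List.take_succ_eq_append_getElem hi']
      rw [htake, runGates_append,
        getD_append_eq (by rw [length_runGates, List.length_take]; omega)] at h4
      exact h4.symm
    have hmono := hE E.gates[i] (List.getElem_mem hi')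
    cases hg : E.gates[i] with
    | and a b =>
      refine ⟨_, _, avail_src E.gates x hleaf i hi'.le a, avail_src E.gates x hleaf i hi'.le b,
        Or.inl fun z => ?_⟩
      change (runGates (x z) E.gates).getD i false = true ↔ _
      rw [hval z, hg]
      simp [Gate.eval]
    | or a b =>
      refine ⟨_, _, avail_src E.gates x hleaf i hi'.le a, avail_src E.gates x hleaf i hi'.le b,
        Or.inr fun z => ?_⟩
      change (runGates (x z) E.gates).getD i false = true ↔ _
      rw [hval z, hg]
      simp [Gate.eval]
    | other args φ =>
      rw [hg] at hmono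
      simp [Gate.IsMono, Gate.isOther] at hmono
  · intro o ho
    rw [Set.mem_singleton_iff] at ho
    subst ho
    have := avail_src E.gates x hleaf E.gates.length le_rfl E.out
    rw [List.take_length] at this
    exact this
  · intro z hz
    exact ⟨_, rfl, hpos z hz⟩
  · intro z hz o ho
    rw [Set.mem_singleton_iff] at ho
    subst ho
    exact hcon z hz

/-- Fill the blocks one after the other by negative inputs, such that the values read by the
gates which are not monotone change in every step. -/
theorem exists_chain {ι Λ : Type} [Fintype ι] (r : ℕ) (hr : 2 ≤ r) (C : Circuit Λ)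
    (hs : C.size + C.numReads + 1 ≤ 2 ^ r)
    (X : (ι → Set (BE (GG r) (2 * r))) → Λ → Bool)
    (mono : ∀ y y', (∀ i, y i ⊆ y' i) → ∀ a, X y a = true → X y' a = true)
    (leaf : ∀ e, (∃ t : Bool, ∀ y, X y e = t) ∨ ∃ i b, ∀ y, X y e = true ↔ b ∈ y i)
    (hC : ∀ y, C.eval (X y) = true ↔ ∃ i, TC (y i)) :
    ∃ Y : ℕ → ι → Set (BE (GG r) (2 * r)), (∀ j i, Y j i ⊆ Y (j + 1) i) ∧
      (∀ j i, ¬ TC (Y j i)) ∧
      ∀ j < Fintype.card ι, C.reads (X (Y j)) ≠ C.reads (X (Y (j + 1))) := by
  classical
  set σ := Fintype.equivFin ι
  have key : ∀ m ≤ Fintype.card ι, ∃ Y : ℕ → ι → Set (BE (GG r) (2 * r)),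
      (∀ j i, Y j i ⊆ Y (j + 1) i) ∧ (∀ j i, ¬ TC (Y j i)) ∧
      (∀ j < m, C.reads (X (Y j)) ≠ C.reads (X (Y (j + 1)))) ∧
      (∀ i, m ≤ (σ i).val → Y m i = ∅) := by
    intro m
    induction m with
    | zero =>
      intro _
      exact ⟨fun _ _ => ∅, fun _ _ => Set.Subset.rfl,
        fun _ _ => not_TC_empty (by have := two_le_GG r hr; omega),
        fun j hj => absurd hj (by omega), fun _ _ => rfl⟩
    | succ m ih =>
      intro hm
      obtain ⟨Y, h1, h2, h3, h4⟩ := ih (by omega)
      obtain ⟨b, hb⟩ : ∃ b, (σ b).val = m := ⟨σ.symm ⟨m, hm⟩, by simp⟩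
      have hYb : Y m b = ∅ := h4 b hb.ge
      obtain ⟨E, hE1, hE2, hE3, hE4⟩ := exists_detector C (X (Y m))
      have hsub : ∀ z i, Y m i ⊆ Function.update (Y m) b z i := by
        intro z i
        by_cases hi : i = b
        · subst hi
          rw [hYb]
          exact Set.empty_subset _
        · rw [Function.update_of_ne hi]
      have hleaf : ∀ a, Leaf (fun z => X (Function.update (Y m) b z) a = true) := by
        intro a
        rcases leaf a with ⟨t, ht⟩ | ⟨i, v, hv⟩
        · refine Or.inr ⟨t = true, fun z => ?_⟩
          change X _ a = true ↔ _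
          rw [ht]
        · by_cases hib : i = b
          · subst hib
            left
            refine ⟨v, fun z => ?_⟩
            change X _ a = true ↔ _
            rw [hv, Function.update_self]
          · right
            refine ⟨v ∈ Y m i, fun z => ?_⟩
            change X _ a = true ↔ _
            rw [hv, Function.update_of_ne hib]
      obtain ⟨z, hz, hEz⟩ := exists_wrong r hr E hE1 (hE2.trans hs)
        (fun z => X (Function.update (Y m) b z)) hleaf (by
          intro z hz
          by_contra hcon
          rw [Bool.not_eq_true] at hcon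
          have h5 := (hE3 _ (fun i hi => mono _ _ (hsub z) i hi) hcon).2
          have h6 := (hC (Function.update (Y m) b z)).2
            ⟨b, by rw [Function.update_self]; exact hz⟩
          rw [h6] at h5
          exact absurd h5 (by simp))
      have hneg : ∀ i, ¬ TC (Function.update (Y m) b z i) := by
        intro i
        by_cases hi : i = b
        · subst hi
          rw [Function.update_self]
          exact hz
        · rw [Function.update_of_ne hi]
          exact h2 m i
      have hchange : C.reads (X (Y m)) ≠ C.reads (X (Function.update (Y m) b z)) := by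
        intro hcon
        have h5 := hE4 _ hcon.symm hEz
        obtain ⟨i, hi⟩ := (hC _).1 h5
        exact hneg i hi
      refine ⟨fun j => if j ≤ m then Y j else Function.update (Y m) b z, ?_, ?_, ?_, ?_⟩
      · intro j i
        rcases lt_trichotomy j m with h | h | h
        · simp only [h.le, if_true, if_pos (Nat.succ_le_of_lt h)]
          exact h1 j i
        · subst h
          simp only [le_refl, if_true, if_neg (Nat.not_succ_le_self j)]
          exact hsub z i
        · simp only [if_neg (by omega : ¬ j ≤ m), if_neg (by omega : ¬ j + 1 ≤ m)]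
          exact Set.Subset.rfl
      · intro j i
        by_cases h : j ≤ m
        · simp only [if_pos h]
          exact h2 j i
        · simp only [if_neg h]
          exact hneg i
      · intro j hj
        rcases Nat.lt_succ_iff_lt_or_eq.1 hj with h | h
        · simp only [h.le, if_true, if_pos (Nat.succ_le_of_lt h)]
          exact h3 j h
        · subst h
          simp only [le_refl, if_true, if_neg (Nat.not_succ_le_self j)]
          exact hchange
      · intro i hi
        simp only [if_neg (Nat.not_succ_le_self m)]
        have hib : i ≠ b := by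
          rintro rfl
          omega
        rw [Function.update_of_ne hib]
        exact h4 i (by omega)
  obtain ⟨Y, h1, h2, h3, -⟩ := key _ le_rfl
  exact ⟨Y, h1, h2, h3⟩

end Pool.Agent.T9h34
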