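import Pool.Agent.T9h34.NegCircuit

/-!
# Circuits that decide the clique problem
-/

namespace Pool.Agent.T9h34

/-- The input of a circuit that encodes a graph on `m` vertices: the input variable of the pair
`(i, j)` is true exactly when `i` and `j` are adjacent. -/
noncomputable def graphInput {m : ℕ} (G : SimpleGraph (Fin m)) : Fin m × Fin m → Bool := by
  classical
  exact fun p => decide (G.Adj p.1 p.2)

/-- The circuit outputs `true` exactly on (the encodings of) the graphs on `m` vertices that have
a clique with `k` vertices. -/
def Circuit.DecidesClique {m : ℕ} (C : Circuit (Fin m × Fin m)) (k : ℕ) : Prop :=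
  ∀ G : SimpleGraph (Fin m), C.eval (graphInput G) = true ↔ ∃ S : Finset (Fin m), G.IsNClique k S

end Pool.Agent.T9h34
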