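import Pool.Agent.T9h34.Compare

/-!
A binary linear code all of whose small sets of (block) positions are independent.
-/

namespace Pool.Agent.T9h34

open Finset

/-- Symbols: two halves of `b` bits each. -/
abbrev Sym (b : ℕ) : Type := Bool × Fin b → ZMod 2

theorem exists_code (b c a : ℕ) (hb : 0 < b) (ha : a ≤ 2 ^ (2 * b)) :
    ∃ W : (Fin (c * (2 * b)) → ZMod 2) →ₗ[ZMod 2] (Fin a → Sym b),
      ∀ T : Finset (Fin a), T.card ≤ c → ∀ y : Fin a → Sym b, ∃ s, ∀ i ∈ T, W s i = y i := by
  classical
  set K := GaloisField 2 (2 * b) with hK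
  have h2b : 2 * b ≠ 0 := by omega
  have hcardK : Nat.card K = 2 ^ (2 * b) := GaloisField.card 2 (2 * b) h2b
  haveI : Finite K := Nat.finite_of_card_ne_zero (by rw [hcardK]; positivity)
  haveI : Fintype K := Fintype.ofFinite K
  have hcardK' : Fintype.card K = 2 ^ (2 * b) := by rw [← Nat.card_eq_fintype_card, hcardK]
  have hfr : Module.finrank (ZMod 2) K = 2 * b := GaloisField.finrank 2 h2b
  haveI : Module.Finite (ZMod 2) K := Module.Finite.of_finite
  -- points
  obtain ⟨α⟩ : Nonempty (Fin a ↪ K) := by
    apply Function.Embedding.nonempty_of_card_le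
    rw [Fintype.card_fin, hcardK']
    exact ha
  have e1 : (Fin (c * (2 * b)) → ZMod 2) ≃ₗ[ZMod 2] (Fin c → K) := by
    apply LinearEquiv.ofFinrankEq
    rw [Module.finrank_fintype_fun_eq_card, Fintype.card_fin, Module.finrank_pi_fintype]
    simp [hfr]
  have e2 : K ≃ₗ[ZMod 2] Sym b := by
    apply LinearEquiv.ofFinrankEq
    rw [Module.finrank_fintype_fun_eq_card, hfr]
    simp
  let ev : (Fin c → K) →ₗ[ZMod 2] (Fin a → K) :=
    { toFun := fun k i => ∑ j : Fin c, k j * α i ^ (j : ℕ)
      map_add' := by
        intro k k'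
        funext i
        simp [add_mul, Finset.sum_add_distrib]
      map_smul' := by
        intro r k
        funext i
        simp [Finset.smul_sum] }
  let post : (Fin a → K) →ₗ[ZMod 2] (Fin a → Sym b) :=
    { toFun := fun y i => e2 (y i)
      map_add' := by
        intro y y'
        funext i
        simp
      map_smul' := by
        intro r y
        funext i
        simp }
  refine ⟨post.comp (ev.comp e1.toLinearMap), ?_⟩
  intro T hT y
  -- interpolation
  set p := Lagrange.interpolate T (fun i => α i) (fun i => e2.symm (y i)) with hp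
  have hinj : Set.InjOn (fun i => α i) (T : Set (Fin a)) := fun x _ y _ h => α.injective h
  have hdeg : p.degree < T.card := Lagrange.degree_interpolate_lt _ hinj
  refine ⟨e1.symm (fun j => p.coeff j), ?_⟩
  intro i hi
  have h1 : ev (fun j : Fin c => p.coeff j) i = p.eval (α i) := by
    have h2 : p.natDegree < c ∨ p = 0 := by
      by_cases hp0 : p = 0
      · exact Or.inr hp0
      · left
        rw [Polynomial.degree_eq_natDegree hp0] at hdeg
        have : p.natDegree < T.card := by exact_mod_cast hdeg
        omega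
    rcases h2 with h2 | h2
    · rw [Polynomial.eval_eq_sum_range' h2, Finset.sum_range]
      rfl
    · rw [h2]
      simp [ev]
  have h3 : p.eval (α i) = e2.symm (y i) :=
    Lagrange.eval_interpolate_at_node _ hinj hi
  change e2 (ev (e1 (e1.symm (fun j => p.coeff j))) i) = y i
  rw [LinearEquiv.apply_symm_apply, h1, h3, LinearEquiv.apply_symm_apply]

/-- The ground set: positions with symbols. -/
abbrev Ground (a b : ℕ) : Type := Fin a × Sym b

/-- The set of the pairs (position, symbol) of a codeword. -/
def wordSet {a b m : ℕ} (W : (Fin m → ZMod 2) →ₗ[ZMod 2] (Fin a → Sym b))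
    (s : Fin m → ZMod 2) : Finset (Ground a b) :=
  univ.image (fun i => (i, W s i))

theorem mem_wordSet {a b m : ℕ} {W : (Fin m → ZMod 2) →ₗ[ZMod 2] (Fin a → Sym b)}
    {s : Fin m → ZMod 2} {p : Ground a b} : p ∈ wordSet W s ↔ W s p.1 = p.2 := by
  unfold wordSet
  rw [Finset.mem_image]
  constructor
  · rintro ⟨i, _, rfl⟩
    rfl
  · intro h
    exact ⟨p.1, Finset.mem_univ _, by rw [h]⟩

theorem card_wordSet {a b m : ℕ} (W : (Fin m → ZMod 2) →ₗ[ZMod 2] (Fin a → Sym b))
    (s : Fin m → ZMod 2) : (wordSet W s).card = a := by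
  unfold wordSet
  rw [Finset.card_image_of_injective, Finset.card_univ, Fintype.card_fin]
  intro i j h
  exact (Prod.mk.inj h).1

theorem spread_code {a b m c : ℕ} (W : (Fin m → ZMod 2) →ₗ[ZMod 2] (Fin a → Sym b))
    (hW : ∀ T : Finset (Fin a), T.card ≤ c → ∀ y : Fin a → Sym b, ∃ s, ∀ i ∈ T, W s i = y i) :
    Spread (wordSet W) c ((1 / 2 : ℝ) ^ (2 * b)) := by
  classical
  intro T hT
  by_cases hinj : Set.InjOn Prod.fst (T : Set (Ground a b))
  · -- a partial function
    set I := T.image Prod.fst with hI
    have hIc : I.card = T.card := Finset.card_image_of_injOn hinj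
    -- the counting inequality
    set Fib := (univ : Finset (Fin m → ZMod 2)).filter (fun s => T ⊆ wordSet W s) with hFib
    have hsec : ∀ y : (I → Sym b), ∃ s, ∀ i : I, W s i = y i := by
      intro y
      obtain ⟨s, hs⟩ := hW I (by rw [hIc]; exact hT) (fun i => if h : i ∈ I then y ⟨i, h⟩ else 0)
      refine ⟨s, ?_⟩
      intro i
      have := hs i.1 i.2
      rw [this]
      simp
    choose sec hsec using hsec
    have hinj2 : Function.Injective (fun p : Fib × (I → Sym b) => (p.1 : Fin m → ZMod 2) + sec p.2) := by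
      rintro ⟨⟨s, hs⟩, y⟩ ⟨⟨s', hs'⟩, y'⟩ h
      simp only at h
      have hval : ∀ i : I, W s i = W s' i := by
        intro i
        obtain ⟨i, hi⟩ := i
        rw [hI, Finset.mem_image] at hi
        obtain ⟨p, hp, rfl⟩ := hi
        rw [hFib, Finset.mem_filter] at hs hs'
        have h1 := mem_wordSet.1 (hs.2 hp)
        have h2 := mem_wordSet.1 (hs'.2 hp)
        simp only
        rw [h1, h2]
      have hy : y = y' := by
        funext i
        have h3 := congrArg (fun u => W u i) h
        simp only [map_add, Pi.add_apply] at h3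
        rw [hval i, hsec, hsec] at h3
        exact add_left_cancel h3
      subst hy
      have hs : s = s' := add_right_cancel h
      subst hs
      rfl
    have hcount := Fintype.card_le_of_injective _ hinj2
    rw [Fintype.card_prod, Fintype.card_coe, Fintype.card_fun, Fintype.card_coe] at hcount
    have hsymb : Fintype.card (Sym b) = 2 ^ (2 * b) := by
      simp [Sym, ZMod.card]
    rw [hsymb, hIc] at hcount
    have hev : Ev (wordSet W) (fun Z => ind (T ⊆ Z)) = (Fib.card : ℝ) / Fintype.card (Fin m → ZMod 2) := by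
      unfold Ev
      congr 1
      rw [hFib, Finset.card_filter]
      push_cast
      apply Finset.sum_congr rfl
      intro s _
      by_cases h : T ⊆ wordSet W s
      · rw [ind_of h, if_pos h]
      · rw [ind_not h, if_neg h]
    rw [hev]
    have hpos : (0 : ℝ) < Fintype.card (Fin m → ZMod 2) := by
      exact_mod_cast Fintype.card_pos
    rw [div_le_iff₀ hpos]
    have h5 : (Fib.card : ℝ) * ((2 : ℝ) ^ (2 * b)) ^ T.card ≤ Fintype.card (Fin m → ZMod 2) := by
      exact_mod_cast hcount
    have h6 : ((1 / 2 : ℝ) ^ (2 * b)) ^ T.card * ((2 : ℝ) ^ (2 * b)) ^ T.card = 1 := by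
      rw [← mul_pow, ← mul_pow]; norm_num
    have h7 : (0 : ℝ) ≤ ((1 / 2 : ℝ) ^ (2 * b)) ^ T.card := by positivity
    calc (Fib.card : ℝ) = ((1 / 2 : ℝ) ^ (2 * b)) ^ T.card
          * ((Fib.card : ℝ) * ((2 : ℝ) ^ (2 * b)) ^ T.card) := by
            linear_combination (-(Fib.card : ℝ)) * h6
      _ ≤ _ := mul_le_mul_of_nonneg_left h5 h7
  · -- no codeword
    have : ∀ s, ¬ T ⊆ wordSet W s := by
      intro s hs
      apply hinj
      intro p hp q hq hpq
      have h1 := mem_wordSet.1 (hs hp)
      have h2 := mem_wordSet.1 (hs hq)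
      apply Prod.ext hpq
      rw [← h1, ← h2, hpq]
    have h0 : Ev (wordSet W) (fun Z => ind (T ⊆ Z)) = 0 := by
      unfold Ev
      rw [Finset.sum_eq_zero, zero_div]
      intro s _
      exact ind_not (this s)
    rw [h0]
    positivity

end Pool.Agent.T9h34
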