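import Pool.Agent.T9h34.Spread

/-!
Spread positive tests against closed families.
-/

namespace Pool.Agent.T9h34

open Finset

variable {X : Type*} [Fintype X] [DecidableEq X] {Ω : Type*} [Fintype Ω]

/-- Average over the positive test sets `v ω`. -/
noncomputable def Ev (v : Ω → Finset X) (F : Finset X → ℝ) : ℝ :=
  (∑ ω, F (v ω)) / (Fintype.card Ω : ℝ)

theorem Ev_mono (v : Ω → Finset X) {F G : Finset X → ℝ} (h : ∀ z, F z ≤ G z) :
    Ev v F ≤ Ev v G := by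
  unfold Ev
  apply div_le_div_of_nonneg_right _ (by positivity)
  exact Finset.sum_le_sum (fun φ _ => h _)

theorem Ev_mono' (v : Ω → Finset X) {F G : Finset X → ℝ} (h : ∀ ω, F (v ω) ≤ G (v ω)) :
    Ev v F ≤ Ev v G := by
  unfold Ev
  apply div_le_div_of_nonneg_right _ (by positivity)
  exact Finset.sum_le_sum (fun φ _ => h _)

theorem Ev_add (v : Ω → Finset X) (F G : Finset X → ℝ) :
    Ev v (fun z => F z + G z) = Ev v F + Ev v G := by
  unfold Ev
  rw [Finset.sum_add_distrib, add_div]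

theorem Ev_sum {α : Type*} (v : Ω → Finset X) (s : Finset α) (F : α → Finset X → ℝ) :
    Ev v (fun z => ∑ a ∈ s, F a z) = ∑ a ∈ s, Ev v (F a) := by
  unfold Ev
  rw [Finset.sum_comm, Finset.sum_div]

theorem Ev_const_mul (v : Ω → Finset X) (c : ℝ) (F : Finset X → ℝ) :
    Ev v (fun z => c * F z) = c * Ev v F := by
  unfold Ev
  rw [← Finset.mul_sum, mul_div_assoc]

theorem Ev_nonneg (v : Ω → Finset X) {F : Finset X → ℝ} (h : ∀ z, 0 ≤ F z) : 0 ≤ Ev v F := by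
  unfold Ev
  exact div_nonneg (Finset.sum_nonneg (fun φ _ => h _)) (by positivity)

theorem Ev_const [Nonempty Ω] (v : Ω → Finset X) (c : ℝ) : Ev v (fun _ => c) = c := by
  unfold Ev
  rw [Finset.sum_const, Finset.card_univ, nsmul_eq_mul]
  have : (Fintype.card Ω : ℝ) ≠ 0 := by exact_mod_cast Fintype.card_ne_zero
  field_simp

theorem Ev_le_one (v : Ω → Finset X) {F : Finset X → ℝ} (h : ∀ z, F z ≤ 1) : Ev v F ≤ 1 := by
  unfold Ev
  apply div_le_one_of_le₀ _ (by positivity)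
  calc ∑ ω, F (v ω) ≤ ∑ ω : Ω, (1 : ℝ) := Finset.sum_le_sum (fun ω _ => h _)
    _ = Fintype.card Ω := by simp

/-- Every set of at most `c` points is inside a random `v ω` with probability at most
`κ ^ size`. -/
def Spread (v : Ω → Finset X) (c : ℕ) (κ : ℝ) : Prop :=
  ∀ T : Finset X, T.card ≤ c → Ev v (fun Z => ind (T ⊆ Z)) ≤ κ ^ T.card

theorem geom_Ioc (e c : ℕ) : ∑ k ∈ Finset.Ioc e c, (1 / 4 : ℝ) ^ k ≤ (1 / 3) * (1 / 4 : ℝ) ^ e := by
  by_cases h : e ≤ c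
  · have : ∑ k ∈ Finset.Ioc e c, (1 / 4 : ℝ) ^ k = (1 / 3) * ((1 / 4 : ℝ) ^ e - (1 / 4) ^ c) := by
      induction c, h using Nat.le_induction with
      | base => simp
      | succ n hn ih =>
        rw [Finset.sum_Ioc_succ_top hn, ih]
        rw [pow_succ]
        ring
    rw [this]
    have : (0 : ℝ) ≤ (1 / 4) ^ c := by positivity
    linarith
  · rw [Finset.Ioc_eq_empty (by omega)]
    simp

theorem Ev_mins_le {D L c : ℕ} (hD : 0 < D) (hL : 0 < L) (hc : 0 < c) {𝒞 : Finset (Finset X)}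
    (hcl : Closed D L c 𝒞) (v : Ω → Finset X) {κ : ℝ} (hκ : 0 ≤ κ)
    (hsp : Spread v c κ) (hBκ : 2 * (c : ℝ) * D * κ ≤ 1 / 4) (e : ℕ) :
    Ev v (fun Z => ind (∃ S ∈ mins 𝒞, e < S.card ∧ S.card ≤ c ∧ S ⊆ Z)) ≤ (1 / 4 : ℝ) ^ e := by
  have h1 : ∀ Z : Finset X, ind (∃ S ∈ mins 𝒞, e < S.card ∧ S.card ≤ c ∧ S ⊆ Z)
      ≤ ∑ k ∈ Finset.Ioc e c, ∑ S ∈ minsAt 𝒞 k ∅, ind (S ⊆ Z) := by
    intro Z
    by_cases h : ∃ S ∈ mins 𝒞, e < S.card ∧ S.card ≤ c ∧ S ⊆ Z
    · rw [ind_of h]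
      obtain ⟨S, hS, he, hc', hSZ⟩ := h
      have h2 : (1 : ℝ) ≤ ∑ S ∈ minsAt 𝒞 S.card ∅, ind (S ⊆ Z) := by
        rw [← ind_of hSZ]
        apply Finset.single_le_sum (f := fun S => ind (S ⊆ Z)) (fun b _ => ind_nonneg _)
        rw [minsAt, Finset.mem_filter]
        exact ⟨hS, rfl, Finset.empty_subset _⟩
      refine le_trans h2 ?_
      exact Finset.single_le_sum (f := fun k => ∑ S ∈ minsAt 𝒞 k ∅, ind (S ⊆ Z))
        (fun k _ => Finset.sum_nonneg (fun b _ => ind_nonneg _)) (Finset.mem_Ioc.2 ⟨he, hc'⟩)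
    · rw [ind_not h]
      exact Finset.sum_nonneg (fun k _ => Finset.sum_nonneg (fun b _ => ind_nonneg _))
  refine le_trans (Ev_mono v h1) ?_
  rw [Ev_sum]
  have h2 : ∀ k ∈ Finset.Ioc e c, Ev v (fun Z => ∑ S ∈ minsAt 𝒞 k ∅, ind (S ⊆ Z))
      ≤ (1 / 4 : ℝ) ^ k := by
    intro k hk
    rw [Finset.mem_Ioc] at hk
    rw [Ev_sum]
    have h3 : ∀ S ∈ minsAt 𝒞 k ∅, Ev v (fun Z => ind (S ⊆ Z)) ≤ κ ^ k := by
      intro S hS
      simp only [minsAt, Finset.mem_filter] at hS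
      have := hsp S (by omega)
      rw [hS.2.1] at this
      exact this
    refine le_trans (Finset.sum_le_sum h3) ?_
    rw [Finset.sum_const, nsmul_eq_mul]
    have h4 := card_minsAt_le hD hL hc hcl hk.2 ∅
    rw [Finset.card_empty, Nat.sub_zero] at h4
    calc ((minsAt 𝒞 k ∅).card : ℝ) * κ ^ k ≤ (2 * (c : ℝ) * D) ^ k * κ ^ k :=
          mul_le_mul_of_nonneg_right h4 (by positivity)
      _ = (2 * (c : ℝ) * D * κ) ^ k := by rw [← mul_pow]
      _ ≤ (1 / 4) ^ k := pow_le_pow_left₀ (by positivity) hBκ k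
  refine le_trans (Finset.sum_le_sum h2) ?_
  refine le_trans (geom_Ioc e c) ?_
  have : (0 : ℝ) ≤ (1 / 4) ^ e := by positivity
  linarith

/-- A spread positive test is dominated, on closed families, by one noise set. -/
theorem Ev_cov_le {D L c : ℕ} (hD : 0 < D) (hL : 0 < L) (hc : 0 < c) {𝒞 : Finset (Finset X)}
    (hcl : Closed D L c 𝒞) (hsm : 𝒞 ⊆ smalls c) (v : Ω → Finset X) {κ : ℝ} (hκ : 0 ≤ κ)
    (hsp : Spread v c κ) (hBκ : 2 * (c : ℝ) * D * κ ≤ 1 / 4) :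
    Ev v (fun Z => ind (cov 𝒞 Z)) ≤ 2 * Ez D (fun z => ind (cov 𝒞 z)) := by
  set P := Ez D (fun z => ind (cov 𝒞 z)) with hP
  have hP0 : 0 ≤ P := Ez_nonneg (fun z => ind_nonneg _)
  by_cases hPh : 1 / 2 ≤ P
  · have := Ev_le_one v (F := fun Z => ind (cov 𝒞 Z)) (fun z => ind_le_one _)
    linarith
  push Not at hPh
  have hempty : ∅ ∉ 𝒞 := by
    intro h
    have : P = 1 := by
      rw [hP]
      have h1 : (fun z : Finset X => ind (cov 𝒞 z)) = fun _ => 1 := by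
        funext z
        exact ind_of ⟨∅, h, Finset.empty_subset _⟩
      rw [h1, Ez_const hD]
    rw [this] at hPh
    norm_num at hPh
  have h1 : ∀ Z : Finset X, ind (cov 𝒞 Z)
      ≤ ∑ k ∈ Finset.Ioc 0 c, ∑ S ∈ minsAt 𝒞 k ∅, ind (S ⊆ Z) := by
    intro Z
    by_cases h : cov 𝒞 Z
    · rw [ind_of h]
      obtain ⟨S, hS, hSZ⟩ := cov_mins.2 h
      have hSc : S.card ≤ c := mem_smalls.1 (hsm (Finset.mem_filter.1 hS).1)
      have hS0 : 0 < S.card := by
        rw [Finset.card_pos, Finset.nonempty_iff_ne_empty]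
        rintro rfl
        exact hempty (Finset.mem_filter.1 hS).1
      have h2 : (1 : ℝ) ≤ ∑ S ∈ minsAt 𝒞 S.card ∅, ind (S ⊆ Z) := by
        rw [← ind_of hSZ]
        apply Finset.single_le_sum (f := fun S => ind (S ⊆ Z)) (fun b _ => ind_nonneg _)
        rw [minsAt, Finset.mem_filter]
        exact ⟨hS, rfl, Finset.empty_subset _⟩
      refine le_trans h2 ?_
      exact Finset.single_le_sum (f := fun k => ∑ S ∈ minsAt 𝒞 k ∅, ind (S ⊆ Z))
        (fun k _ => Finset.sum_nonneg (fun b _ => ind_nonneg _)) (Finset.mem_Ioc.2 ⟨hS0, hSc⟩)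
    · rw [ind_not h]
      exact Finset.sum_nonneg (fun k _ => Finset.sum_nonneg (fun b _ => ind_nonneg _))
  refine le_trans (Ev_mono v h1) ?_
  rw [Ev_sum]
  have h2 : ∀ k ∈ Finset.Ioc 0 c, Ev v (fun Z => ∑ S ∈ minsAt 𝒞 k ∅, ind (S ⊆ Z))
      ≤ 2 * P * (1 / 4 : ℝ) ^ k := by
    intro k hk
    rw [Finset.mem_Ioc] at hk
    rw [Ev_sum]
    have h3 : ∀ S ∈ minsAt 𝒞 k ∅, Ev v (fun Z => ind (S ⊆ Z)) ≤ κ ^ k := by
      intro S hS
      simp only [minsAt, Finset.mem_filter] at hS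
      have := hsp S (by omega)
      rw [hS.2.1] at this
      exact this
    refine le_trans (Finset.sum_le_sum h3) ?_
    rw [Finset.sum_const, nsmul_eq_mul]
    -- the number of minimal members of size k
    have hkc : (k : ℝ) ≤ c := by exact_mod_cast hk.2
    have hcard : ∀ T ∈ minsAt 𝒞 k ∅, T.card = k := by
      intro T hT
      simp only [minsAt, Finset.mem_filter] at hT
      exact hT.2.1
    have hdeg : ∀ K : Finset X, K.Nonempty → (((minsAt 𝒞 k ∅).filter (fun T => K ⊆ T)).card : ℝ)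
        ≤ (2 * (c : ℝ) * D) ^ (k - K.card) := by
      intro K _
      have h4 : (minsAt 𝒞 k ∅).filter (fun T => K ⊆ T) ⊆ minsAt 𝒞 k K := by
        intro T hT
        simp only [minsAt, Finset.mem_filter] at hT ⊢
        exact ⟨hT.1.1, hT.1.2.1, hT.2⟩
      have h5 : (((minsAt 𝒞 k ∅).filter (fun T => K ⊆ T)).card : ℝ) ≤ (minsAt 𝒞 k K).card := by
        exact_mod_cast Finset.card_le_card h4
      exact le_trans h5 (card_minsAt_le hD hL hc hcl hk.2 K)
    have hprob := cover_prob (n := k) hD (minsAt 𝒞 k ∅) (β := 2 * (c : ℝ)) (by linarith)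
      (by positivity) hcard hdeg
    set Pk := Ez D (fun z => ind (∃ T ∈ minsAt 𝒞 k ∅, T ⊆ z)) with hPk
    have hPkP : Pk ≤ P := by
      apply Ez_mono
      intro z
      apply ind_mono
      rintro ⟨T, hT, hTz⟩
      simp only [minsAt, mins, Finset.mem_filter] at hT
      exact ⟨T, hT.1.1, hTz⟩
    have hB0 : (0 : ℝ) ≤ (2 * (c : ℝ) * D) ^ k := by positivity
    have hm0 : (0 : ℝ) ≤ ((minsAt 𝒞 k ∅).card : ℝ) := by positivity
    have h6 : ((minsAt 𝒞 k ∅).card : ℝ) ≤ 2 * P * (2 * (c : ℝ) * D) ^ k := by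
      have ha : ((minsAt 𝒞 k ∅).card : ℝ) * (1 / 2) ≤ ((minsAt 𝒞 k ∅).card : ℝ) * (1 - Pk) :=
        mul_le_mul_of_nonneg_left (by linarith) hm0
      have hb : Pk * (2 * (c : ℝ) * D) ^ k ≤ P * (2 * (c : ℝ) * D) ^ k :=
        mul_le_mul_of_nonneg_right hPkP hB0
      linarith
    calc ((minsAt 𝒞 k ∅).card : ℝ) * κ ^ k ≤ (2 * P * (2 * (c : ℝ) * D) ^ k) * κ ^ k :=
          mul_le_mul_of_nonneg_right h6 (by positivity)
      _ = 2 * P * (2 * (c : ℝ) * D * κ) ^ k := by rw [mul_assoc, ← mul_pow]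
      _ ≤ 2 * P * (1 / 4) ^ k := by
          apply mul_le_mul_of_nonneg_left _ (by linarith)
          exact pow_le_pow_left₀ (by positivity) hBκ k
  refine le_trans (Finset.sum_le_sum h2) ?_
  rw [← Finset.mul_sum]
  have h3 := geom_Ioc 0 c
  rw [pow_zero, mul_one] at h3
  nlinarith

end Pool.Agent.T9h34
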