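import Mathlib

/-!
Inputs of circuits for properties of graphs: edge variables and free functions.
-/

set_option autoImplicit false

namespace Pool.Agent.T9h34

/-- The edge variables of graphs with the vertices `0, ..., n - 1`: the pairs `(u, v)`, `u < v`. -/
abbrev Pair (n : ℕ) : Type := {p : Fin n × Fin n // p.1 < p.2}

open Classical in
/-- The values of the inputs of a circuit on the graph `G`: the edge variables, and the values of
the further functions `h j` of the graph. -/
noncomputable def inputs {n : ℕ} {κ : Type} (h : κ → SimpleGraph (Fin n) → Bool)
    (G : SimpleGraph (Fin n)) : Pair n ⊕ κ → Bool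
  | .inl e => decide (G.Adj e.1.1 e.1.2)
  | .inr j => h j G

end Pool.Agent.T9h34
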