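import Pool.Agent.T9h34.Noise

/-!
Second moment bound for spread set families, closed families, and their minimal members.
-/

namespace Pool.Agent.T9h34

open Finset

variable {X : Type*} [Fintype X] [DecidableEq X]

theorem pow_add_one_le {β : ℝ} {n : ℕ} (hβ : 2 * (n : ℝ) ≤ β) : (1 + β) ^ n ≤ 2 * β ^ n := by
  by_cases hn : n = 0
  · subst hn; norm_num
  have hn1 : (1 : ℝ) ≤ n := by exact_mod_cast Nat.one_le_iff_ne_zero.2 hn
  have hβ0 : 0 < 1 + β := by linarith
  have h1 : 1 + (n : ℝ) * (-(1 / (1 + β))) ≤ (1 + (-(1 / (1 + β)))) ^ n := by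
    apply one_add_mul_le_pow
    have : 1 / (1 + β) ≤ 1 := by rw [div_le_one hβ0]; linarith
    linarith
  have h2 : 1 + (-(1 / (1 + β))) = β / (1 + β) := by field_simp; ring
  rw [h2, div_pow] at h1
  have h3 : (1 : ℝ) / 2 ≤ 1 + (n : ℝ) * (-(1 / (1 + β))) := by
    have : (n : ℝ) * (1 / (1 + β)) ≤ 1 / 2 := by
      rw [mul_one_div, div_le_div_iff₀ hβ0 (by norm_num)]
      linarith
    linarith
  have h4 : (1 : ℝ) / 2 ≤ β ^ n / (1 + β) ^ n := le_trans h3 h1
  rw [div_le_div_iff₀ (by norm_num) (by positivity)] at h4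
  linarith

/-- Second moment bound: a family of `n`-sets with small degrees that is large is hit by the noise. -/
theorem cover_prob {D n : ℕ} (hD : 0 < D) (𝒯 : Finset (Finset X)) {β : ℝ}
    (hβ : 2 * (n : ℝ) ≤ β) (hβ0 : 0 ≤ β) (hcard : ∀ T ∈ 𝒯, T.card = n)
    (hdeg : ∀ K : Finset X, K.Nonempty → ((𝒯.filter (fun T => K ⊆ T)).card : ℝ)
      ≤ (β * D) ^ (n - K.card)) :
    (𝒯.card : ℝ) * (1 - Ez D (fun z => ind (∃ T ∈ 𝒯, T ⊆ z)))
      ≤ Ez D (fun z => ind (∃ T ∈ 𝒯, T ⊆ z)) * (β * D) ^ n := by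
  set P := Ez D (fun z => ind (∃ T ∈ 𝒯, T ⊆ z)) with hP
  have hP0 : 0 ≤ P := Ez_nonneg (fun z => ind_nonneg _)
  have hD0 : (0 : ℝ) < D := by exact_mod_cast hD
  have hD1 : (1 : ℝ) ≤ D := by exact_mod_cast hD
  -- first moment
  have hfirst : Ez D (fun z => ∑ T ∈ 𝒯, ind (T ⊆ z)) = 𝒯.card * (1 / (D : ℝ)) ^ n := by
    rw [Ez_sum]
    have : ∀ T ∈ 𝒯, Ez D (fun z => ind (T ⊆ z)) = (1 / (D : ℝ)) ^ n := by
      intro T hT
      rw [Ez_subset hD, hcard T hT]
    rw [Finset.sum_congr rfl this, Finset.sum_const, nsmul_eq_mul]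
  -- second moment
  have hsecond : Ez D (fun z => (∑ T ∈ 𝒯, ind (T ⊆ z)) ^ 2)
      ≤ 𝒯.card * (1 / (D : ℝ)) ^ n * (𝒯.card * (1 / (D : ℝ)) ^ n + β ^ n) := by
    have h1 : ∀ z : Finset X, (∑ T ∈ 𝒯, ind (T ⊆ z)) ^ 2
        = ∑ T ∈ 𝒯, ∑ T' ∈ 𝒯, ind (T ∪ T' ⊆ z) := by
      intro z
      rw [sq, Finset.sum_mul_sum]
      apply Finset.sum_congr rfl; intro T _
      apply Finset.sum_congr rfl; intro T' _
      rw [← ind_and]
      congr 1
      rw [Finset.union_subset_iff]
    simp only [h1]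
    rw [Ez_sum]
    have h2 : ∀ T ∈ 𝒯, Ez D (fun z => ∑ T' ∈ 𝒯, ind (T ∪ T' ⊆ z))
        ≤ (1 / (D : ℝ)) ^ n * (𝒯.card * (1 / (D : ℝ)) ^ n + β ^ n) := by
      intro T hT
      rw [Ez_sum]
      have h3 : ∀ T' ∈ 𝒯, Ez D (fun z => ind (T ∪ T' ⊆ z))
          ≤ (1 / (D : ℝ)) ^ (2 * n) * (1 + ∑ K ∈ T.powerset.erase ∅,
              (D : ℝ) ^ K.card * ind (K ⊆ T')) := by
        intro T' hT'
        rw [Ez_subset hD]
        have hc : (T ∪ T').card + (T ∩ T').card = 2 * n := by
          rw [Finset.card_union_add_card_inter, hcard T hT, hcard T' hT']; ring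
        have h4 : (1 / (D : ℝ)) ^ (T ∪ T').card
            = (1 / (D : ℝ)) ^ (2 * n) * (D : ℝ) ^ (T ∩ T').card := by
          rw [← hc, pow_add, mul_assoc, ← mul_pow]
          rw [one_div, inv_mul_cancel₀ hD0.ne', one_pow, mul_one]
        rw [h4]
        apply mul_le_mul_of_nonneg_left _ (by positivity)
        by_cases hI : T ∩ T' = ∅
        · rw [hI]
          simp only [Finset.card_empty, pow_zero]
          have : 0 ≤ ∑ K ∈ T.powerset.erase ∅, (D : ℝ) ^ K.card * ind (K ⊆ T') :=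
            Finset.sum_nonneg (fun K _ => mul_nonneg (by positivity) (ind_nonneg _))
          linarith
        · have hmem : T ∩ T' ∈ T.powerset.erase ∅ := by
            rw [Finset.mem_erase, Finset.mem_powerset]
            exact ⟨hI, Finset.inter_subset_left⟩
          have := Finset.single_le_sum (f := fun K => (D : ℝ) ^ K.card * ind (K ⊆ T'))
            (fun K _ => mul_nonneg (by positivity) (ind_nonneg _)) hmem
          rw [ind_of Finset.inter_subset_right, mul_one] at this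
          linarith
      refine le_trans (Finset.sum_le_sum h3) ?_
      rw [← Finset.mul_sum, Finset.sum_add_distrib, Finset.sum_comm]
      have h5 : ∀ K ∈ T.powerset.erase ∅,
          ∑ T' ∈ 𝒯, (D : ℝ) ^ K.card * ind (K ⊆ T')
            ≤ (D : ℝ) ^ n * β ^ (n - K.card) := by
        intro K hK
        rw [Finset.mem_erase, Finset.mem_powerset] at hK
        have hKn : K.card ≤ n := by rw [← hcard T hT]; exact Finset.card_le_card hK.2
        rw [← Finset.mul_sum]
        have h6 : ∑ T' ∈ 𝒯, ind (K ⊆ T') = ((𝒯.filter (fun T => K ⊆ T)).card : ℝ) := by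
          rw [Finset.card_filter]
          push_cast
          apply Finset.sum_congr rfl
          intro T' _
          by_cases h : K ⊆ T'
          · rw [ind_of h, if_pos h]
          · rw [ind_not h, if_neg h]
        rw [h6]
        have h7 := hdeg K (Finset.nonempty_iff_ne_empty.2 hK.1)
        calc (D : ℝ) ^ K.card * ((𝒯.filter (fun T => K ⊆ T)).card : ℝ)
            ≤ (D : ℝ) ^ K.card * (β * D) ^ (n - K.card) := by
              apply mul_le_mul_of_nonneg_left h7 (by positivity)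
          _ = (D : ℝ) ^ n * β ^ (n - K.card) := by
              rw [mul_pow, mul_comm (β ^ (n - K.card)), ← mul_assoc, ← pow_add]
              congr 2
              omega
      have h8 : ∑ K ∈ T.powerset.erase ∅, β ^ (n - K.card) ≤ β ^ n := by
        have h9 : ∑ K ∈ T.powerset, β ^ (n - K.card) = (1 + β) ^ n := by
          have := Finset.sum_pow_mul_eq_add_pow (1 : ℝ) β T
          rw [hcard T hT] at this
          simpa using this
        have h10 : ∑ K ∈ T.powerset.erase ∅, β ^ (n - K.card) + β ^ (n - (∅ : Finset X).card)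
            = ∑ K ∈ T.powerset, β ^ (n - K.card) :=
          Finset.sum_erase_add _ _ (Finset.empty_mem_powerset T)
        rw [h9] at h10
        simp only [Finset.card_empty, Nat.sub_zero] at h10
        have := pow_add_one_le hβ
        linarith
      have h11 : ∑ K ∈ T.powerset.erase ∅, ∑ T' ∈ 𝒯, (D : ℝ) ^ K.card * ind (K ⊆ T')
          ≤ (D : ℝ) ^ n * β ^ n := by
        refine le_trans (Finset.sum_le_sum h5) ?_
        rw [← Finset.mul_sum]
        exact mul_le_mul_of_nonneg_left h8 (by positivity)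
      have h12 : ∑ T' ∈ 𝒯, (1 : ℝ) = 𝒯.card := by simp
      rw [h12]
      calc (1 / (D : ℝ)) ^ (2 * n) * (𝒯.card
            + ∑ K ∈ T.powerset.erase ∅, ∑ T' ∈ 𝒯, (D : ℝ) ^ K.card * ind (K ⊆ T'))
          ≤ (1 / (D : ℝ)) ^ (2 * n) * (𝒯.card + (D : ℝ) ^ n * β ^ n) := by
            apply mul_le_mul_of_nonneg_left _ (by positivity)
            linarith
        _ = (1 / (D : ℝ)) ^ n * (𝒯.card * (1 / (D : ℝ)) ^ n + β ^ n) := by
            have : (1 / (D : ℝ)) ^ n * (D : ℝ) ^ n = 1 := by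
              rw [← mul_pow, one_div, inv_mul_cancel₀ hD0.ne', one_pow]
            rw [two_mul, pow_add]
            linear_combination ((1 / (D : ℝ)) ^ n * β ^ n) * this
    refine le_trans (Finset.sum_le_sum h2) ?_
    rw [Finset.sum_const, nsmul_eq_mul, mul_assoc]
  -- Cauchy-Schwarz
  have hcs : (Ez D (fun z => ∑ T ∈ 𝒯, ind (T ⊆ z))) ^ 2
      ≤ Ez D (fun z => (∑ T ∈ 𝒯, ind (T ⊆ z)) ^ 2) * P := by
    rw [hP]
    unfold Ez
    have h1 := Finset.sum_mul_sq_le_sq_mul_sq (Finset.univ : Finset (X → Fin D))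
      (fun φ => ∑ T ∈ 𝒯, ind (T ⊆ zset D φ)) (fun φ => ind (∃ T ∈ 𝒯, T ⊆ zset D φ))
    have h2 : ∀ φ : X → Fin D, (∑ T ∈ 𝒯, ind (T ⊆ zset D φ)) * ind (∃ T ∈ 𝒯, T ⊆ zset D φ)
        = ∑ T ∈ 𝒯, ind (T ⊆ zset D φ) := by
      intro φ
      by_cases h : ∃ T ∈ 𝒯, T ⊆ zset D φ
      · rw [ind_of h, mul_one]
      · rw [ind_not h, mul_zero]
        symm
        apply Finset.sum_eq_zero
        intro T hT
        exact ind_not (fun h' => h ⟨T, hT, h'⟩)
    have h3 : ∀ φ : X → Fin D, ind (∃ T ∈ 𝒯, T ⊆ zset D φ) ^ 2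
        = ind (∃ T ∈ 𝒯, T ⊆ zset D φ) := by
      intro φ
      by_cases h : ∃ T ∈ 𝒯, T ⊆ zset D φ
      · rw [ind_of h]; norm_num
      · rw [ind_not h]; norm_num
    simp only [h2, h3] at h1
    rw [div_pow, div_mul_div_comm, ← sq]
    exact div_le_div_of_nonneg_right h1 (by positivity)
  rw [hfirst] at hcs
  set μ := (𝒯.card : ℝ) * (1 / (D : ℝ)) ^ n with hμ
  have hμ0 : 0 ≤ μ := by positivity
  have h5 : μ ^ 2 ≤ μ * (μ + β ^ n) * P := le_trans hcs (mul_le_mul_of_nonneg_right hsecond hP0)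
  have h6 : μ * (1 - P) ≤ P * β ^ n := by
    by_cases h0 : μ = 0
    · rw [h0, zero_mul]
      positivity
    · have hpos : 0 < μ := lt_of_le_of_ne hμ0 (Ne.symm h0)
      have : μ ≤ (μ + β ^ n) * P := by
        by_contra hlt
        push Not at hlt
        have := mul_lt_mul_of_pos_left hlt hpos
        nlinarith
      nlinarith
  have h7 : (𝒯.card : ℝ) = μ * (D : ℝ) ^ n := by
    rw [hμ, mul_assoc, ← mul_pow, one_div, inv_mul_cancel₀ hD0.ne', one_pow, mul_one]
  rw [h7, mul_pow]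
  calc μ * (D : ℝ) ^ n * (1 - P) = (μ * (1 - P)) * (D : ℝ) ^ n := by ring
    _ ≤ (P * β ^ n) * (D : ℝ) ^ n := mul_le_mul_of_nonneg_right h6 (by positivity)
    _ = P * (β ^ n * (D : ℝ) ^ n) := by ring

/-- Iterating the noise makes the failure probability decay geometrically. -/
theorem En_not_cover {D : ℕ} (hD : 0 < D) (𝒯 : Finset (Finset X)) (k : ℕ) :
    En D k (fun W => ind (¬ ∃ T ∈ 𝒯, T ⊆ W))
      ≤ (1 - Ez D (fun z => ind (∃ T ∈ 𝒯, T ⊆ z))) ^ k := by
  set q := 1 - Ez D (fun z => ind (∃ T ∈ 𝒯, T ⊆ z)) with hq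
  have hq' : Ez D (fun z => ind (¬ ∃ T ∈ 𝒯, T ⊆ z)) = q := by
    rw [hq]
    have : (fun z : Finset X => ind (¬ ∃ T ∈ 𝒯, T ⊆ z))
        = fun z => (1 : ℝ) - ind (∃ T ∈ 𝒯, T ⊆ z) := by
      funext z; exact ind_compl _
    rw [this, Ez_sub, Ez_const hD]
  have hq0 : 0 ≤ q := by rw [← hq']; exact Ez_nonneg (fun z => ind_nonneg _)
  induction k with
  | zero =>
    simp only [En, pow_zero]
    exact ind_le_one _
  | succ k ih =>
    simp only [En]
    have h1 : ∀ z : Finset X, En D k (fun U => ind (¬ ∃ T ∈ 𝒯, T ⊆ z ∪ U))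
        ≤ q ^ k * ind (¬ ∃ T ∈ 𝒯, T ⊆ z) := by
      intro z
      have h2 : ∀ U : Finset X, ind (¬ ∃ T ∈ 𝒯, T ⊆ z ∪ U)
          ≤ ind (¬ ∃ T ∈ 𝒯, T ⊆ z) * ind (¬ ∃ T ∈ 𝒯, T ⊆ U) := by
        intro U
        rw [← ind_and]
        apply ind_mono
        intro h
        refine ⟨fun ⟨T, hT, hTz⟩ => h ⟨T, hT, hTz.trans Finset.subset_union_left⟩,
          fun ⟨T, hT, hTz⟩ => h ⟨T, hT, hTz.trans Finset.subset_union_right⟩⟩
      refine le_trans (En_mono k h2) ?_
      rw [En_const_mul]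
      rw [mul_comm]
      exact mul_le_mul_of_nonneg_right ih (ind_nonneg _)
    refine le_trans (Ez_mono h1) ?_
    rw [Ez_const_mul, hq', pow_succ]

/-- `Z` contains a member of `𝒜`. -/
def cov (𝒜 : Finset (Finset X)) (Z : Finset X) : Prop := ∃ S ∈ 𝒜, S ⊆ Z

theorem cov_mono {𝒜 ℬ : Finset (Finset X)} {Z Z' : Finset X} (h : 𝒜 ⊆ ℬ) (hZ : Z ⊆ Z')
    (hc : cov 𝒜 Z) : cov ℬ Z' := by
  obtain ⟨S, hS, hSZ⟩ := hc
  exact ⟨S, h hS, hSZ.trans hZ⟩

/-- Sets of size at most `c`. -/
def smalls (c : ℕ) : Finset (Finset X) := univ.filter (fun T => T.card ≤ c)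

theorem mem_smalls {c : ℕ} {T : Finset X} : T ∈ smalls (X := X) c ↔ T.card ≤ c := by
  simp [smalls]

/-- Closed families. -/
def Closed (D L c : ℕ) (𝒞 : Finset (Finset X)) : Prop :=
  ∀ T : Finset X, T.card ≤ c → En D L (fun W => ind (¬ cov 𝒞 (T ∪ W))) < (1 / 2 : ℝ) ^ L → T ∈ 𝒞

theorem exists_closure {D L c : ℕ} (hD : 0 < D) (ℱ : Finset (Finset X))
    (hℱ : ℱ ⊆ smalls c) :
    ∃ 𝒞 : Finset (Finset X), ℱ ⊆ 𝒞 ∧ 𝒞 ⊆ smalls c ∧ Closed D L c 𝒞 ∧
      ∀ T : Finset X, En D L (fun W => ind (cov 𝒞 (T ∪ W) ∧ ¬ cov ℱ (T ∪ W)))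
        ≤ ((smalls c \ ℱ).card : ℝ) * (1 / 2 : ℝ) ^ L := by
  induction hn : (smalls c \ ℱ).card using Nat.strong_induction_on generalizing ℱ with
  | _ n ih =>
    by_cases hcl : Closed D L c ℱ
    · refine ⟨ℱ, le_refl _, hℱ, hcl, ?_⟩
      intro T
      have : (fun W : Finset X => ind (cov ℱ (T ∪ W) ∧ ¬ cov ℱ (T ∪ W))) = fun _ => 0 := by
        funext W
        exact ind_not (by tauto)
      rw [this, En_const hD]
      positivity
    · unfold Closed at hcl
      push Not at hcl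
      obtain ⟨R, hRc, hRlt, hR⟩ := hcl
      have hsub : insert R ℱ ⊆ smalls c := by
        rw [Finset.insert_subset_iff]
        exact ⟨mem_smalls.2 hRc, hℱ⟩
      have hlt : (smalls c \ insert R ℱ).card + 1 = (smalls c \ ℱ).card := by
        have h1 : smalls c \ ℱ = insert R (smalls c \ insert R ℱ) := by
          ext S
          simp only [Finset.mem_sdiff, Finset.mem_insert]
          constructor
          · intro ⟨h1, h2⟩
            by_cases hS : S = R
            · exact Or.inl hS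
            · exact Or.inr ⟨h1, by tauto⟩
          · rintro (h1 | ⟨h1, h2⟩)
            · subst h1; exact ⟨mem_smalls.2 hRc, hR⟩
            · exact ⟨h1, by tauto⟩
        rw [h1, Finset.card_insert_of_notMem]
        simp
      obtain ⟨𝒞, h1, h2, h3, h4⟩ := ih _ (by omega) (insert R ℱ) hsub rfl
      refine ⟨𝒞, (Finset.subset_insert _ _).trans h1, h2, h3, ?_⟩
      intro T
      have h5 : ∀ W : Finset X, ind (cov 𝒞 (T ∪ W) ∧ ¬ cov ℱ (T ∪ W))
          ≤ ind (cov 𝒞 (T ∪ W) ∧ ¬ cov (insert R ℱ) (T ∪ W)) + ind (¬ cov ℱ (R ∪ W)) := by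
        intro W
        refine le_trans (ind_mono ?_) (ind_or_le _ _)
        rintro ⟨ha, hb⟩
        by_cases hc : cov (insert R ℱ) (T ∪ W)
        · right
          intro hd
          apply hb
          obtain ⟨S, hS, hSW⟩ := hc
          rw [Finset.mem_insert] at hS
          rcases hS with hS | hS
          · subst hS
            refine cov_mono (le_refl _) ?_ hd
            exact Finset.union_subset hSW Finset.subset_union_right
          · exact ⟨S, hS, hSW⟩
        · exact Or.inl ⟨ha, hc⟩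
      refine le_trans (En_mono L h5) ?_
      rw [En_add]
      have h6 := h4 T
      have h7 : ((smalls (X := X) c \ ℱ).card : ℝ) = (smalls (X := X) c \ insert R ℱ).card + 1 := by
        rw [← hlt]; push_cast; ring
      rw [← hn, h7]
      calc _ ≤ ((smalls (X := X) c \ insert R ℱ).card : ℝ) * (1 / 2 : ℝ) ^ L + (1 / 2 : ℝ) ^ L :=
            add_le_add h6 hRlt.le
        _ = _ := by ring

/-- Minimal members. -/
def mins (𝒞 : Finset (Finset X)) : Finset (Finset X) :=
  𝒞.filter (fun S => ∀ S' ∈ 𝒞, S' ⊆ S → S' = S)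

theorem exists_min {𝒞 : Finset (Finset X)} {S : Finset X} (hS : S ∈ 𝒞) :
    ∃ M ∈ mins 𝒞, M ⊆ S := by
  induction hn : S.card using Nat.strong_induction_on generalizing S with
  | _ n ih =>
    by_cases h : ∀ S' ∈ 𝒞, S' ⊆ S → S' = S
    · exact ⟨S, by simp only [mins, Finset.mem_filter]; exact ⟨hS, h⟩, le_refl _⟩
    · push Not at h
      obtain ⟨S', h1, h2, h3⟩ := h
      have hlt : S'.card < n := by
        rw [← hn]
        exact Finset.card_lt_card (Finset.ssubset_iff_subset_ne.2 ⟨h2, h3⟩)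
      obtain ⟨M, hM, hMS⟩ := ih _ hlt h1 rfl
      exact ⟨M, hM, hMS.trans h2⟩

theorem cov_mins {𝒞 : Finset (Finset X)} {Z : Finset X} : cov (mins 𝒞) Z ↔ cov 𝒞 Z := by
  constructor
  · rintro ⟨S, hS, hSZ⟩
    exact ⟨S, (Finset.mem_filter.1 hS).1, hSZ⟩
  · rintro ⟨S, hS, hSZ⟩
    obtain ⟨M, hM, hMS⟩ := exists_min hS
    exact ⟨M, hM, hMS.trans hSZ⟩

/-- Minimal members of size `k` that contain `J`. -/
def minsAt (𝒞 : Finset (Finset X)) (k : ℕ) (J : Finset X) : Finset (Finset X) :=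
  (mins 𝒞).filter (fun S => S.card = k ∧ J ⊆ S)

theorem card_minsAt_le {D L c : ℕ} (hD : 0 < D) (hL : 0 < L) (hc : 0 < c) {𝒞 : Finset (Finset X)}
    (hcl : Closed D L c 𝒞) {k : ℕ} (hk : k ≤ c) (J : Finset X) :
    ((minsAt 𝒞 k J).card : ℝ) ≤ (2 * (c : ℝ) * D) ^ (k - J.card) := by
  have hD1 : (1 : ℝ) ≤ D := by exact_mod_cast hD
  have hc1 : (1 : ℝ) ≤ c := by exact_mod_cast hc
  have hB1 : (1 : ℝ) ≤ 2 * (c : ℝ) * D := by nlinarith
  induction hn : k - J.card using Nat.strong_induction_on generalizing J with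
  | _ n ih =>
    have hB0 : (0 : ℝ) ≤ (2 * (c : ℝ) * D) ^ n := by positivity
    have hB1n : (1 : ℝ) ≤ (2 * (c : ℝ) * D) ^ n := one_le_pow₀ hB1
    by_cases hJk : k < J.card
    · have : minsAt 𝒞 k J = ∅ := by
        rw [Finset.eq_empty_iff_forall_notMem]
        intro S hS
        simp only [minsAt, Finset.mem_filter] at hS
        have := Finset.card_le_card hS.2.2
        omega
      rw [this]; simpa using hB0
    by_cases hJ : J ∈ 𝒞
    · have : minsAt 𝒞 k J ⊆ {J} := by
        intro S hS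
        simp only [minsAt, mins, Finset.mem_filter] at hS
        rw [Finset.mem_singleton]
        exact (hS.1.2 J hJ hS.2.2).symm
      have h2 := Finset.card_le_card this
      rw [Finset.card_singleton] at h2
      have h3 : ((minsAt 𝒞 k J).card : ℝ) ≤ 1 := by exact_mod_cast h2
      exact le_trans h3 hB1n
    push Not at hJk
    by_contra hgt
    push Not at hgt
    apply hJ
    have hnk : n ≤ c := by omega
    -- the link family
    set 𝒯 := (minsAt 𝒞 k J).image (fun S => S \ J) with h𝒯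
    have hinj : Set.InjOn (fun S : Finset X => S \ J) (minsAt 𝒞 k J : Set (Finset X)) := by
      intro S hS S' hS' h
      simp only [minsAt, Finset.coe_filter, Set.mem_ofPred_eq] at hS hS'
      simp only at h
      rw [← Finset.sdiff_union_of_subset hS.2.2, ← Finset.sdiff_union_of_subset hS'.2.2, h]
    have hcardT : 𝒯.card = (minsAt 𝒞 k J).card := Finset.card_image_of_injOn hinj
    have hcard : ∀ T ∈ 𝒯, T.card = n := by
      intro T hT
      rw [h𝒯, Finset.mem_image] at hT
      obtain ⟨S, hS, rfl⟩ := hT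
      simp only [minsAt, Finset.mem_filter] at hS
      rw [Finset.card_sdiff_of_subset hS.2.2, hS.2.1, hn]
    have hdeg : ∀ K : Finset X, K.Nonempty → ((𝒯.filter (fun T => K ⊆ T)).card : ℝ)
        ≤ (2 * (c : ℝ) * D) ^ (n - K.card) := by
      intro K hK
      have hKc : 0 < K.card := Finset.card_pos.2 hK
      by_cases hKJ : Disjoint K J
      · have hsub : (𝒯.filter (fun T => K ⊆ T)) ⊆ (minsAt 𝒞 k (J ∪ K)).image (fun S => S \ J) := by
          intro T hT
          rw [Finset.mem_filter] at hT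
          obtain ⟨hT1, hT2⟩ := hT
          rw [h𝒯, Finset.mem_image] at hT1
          obtain ⟨S, hS, rfl⟩ := hT1
          rw [Finset.mem_image]
          refine ⟨S, ?_, rfl⟩
          simp only [minsAt, Finset.mem_filter] at hS ⊢
          refine ⟨hS.1, hS.2.1, Finset.union_subset hS.2.2 (hT2.trans Finset.sdiff_subset)⟩
        have h1 : (𝒯.filter (fun T => K ⊆ T)).card ≤ (minsAt 𝒞 k (J ∪ K)).card :=
          le_trans (Finset.card_le_card hsub) Finset.card_image_le
        have h2 : ((𝒯.filter (fun T => K ⊆ T)).card : ℝ) ≤ (minsAt 𝒞 k (J ∪ K)).card := by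
          exact_mod_cast h1
        have hJKc : (J ∪ K).card = J.card + K.card := Finset.card_union_of_disjoint hKJ.symm
        by_cases hbig : k < (J ∪ K).card
        · have : minsAt 𝒞 k (J ∪ K) = ∅ := by
            rw [Finset.eq_empty_iff_forall_notMem]
            intro S hS
            simp only [minsAt, Finset.mem_filter] at hS
            have := Finset.card_le_card hS.2.2
            omega
          rw [this] at h2
          simp only [Finset.card_empty, Nat.cast_zero] at h2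
          exact le_trans h2 (by positivity)
        · push Not at hbig
          have h3 := ih (k - (J ∪ K).card) (by omega) (J ∪ K) rfl
          have h4 : k - (J ∪ K).card = n - K.card := by omega
          rw [h4] at h3
          exact le_trans h2 h3
      · have : 𝒯.filter (fun T => K ⊆ T) = ∅ := by
          rw [Finset.eq_empty_iff_forall_notMem]
          intro T hT
          rw [Finset.mem_filter] at hT
          obtain ⟨hT1, hT2⟩ := hT
          rw [h𝒯, Finset.mem_image] at hT1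
          obtain ⟨S, hS, rfl⟩ := hT1
          apply hKJ
          exact Finset.disjoint_of_subset_left hT2 Finset.sdiff_disjoint
        rw [this]
        simp only [Finset.card_empty, Nat.cast_zero]
        positivity
    have hnc : (n : ℝ) ≤ c := by exact_mod_cast hnk
    have hprob := cover_prob (n := n) hD 𝒯 (β := 2 * (c : ℝ)) (by linarith) (by linarith) hcard hdeg
    set P := Ez D (fun z => ind (∃ T ∈ 𝒯, T ⊆ z)) with hP
    have hP0 : 0 ≤ P := Ez_nonneg (fun z => ind_nonneg _)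
    have hP1 : P ≤ 1 := Ez_le_one hD (fun z => ind_le_one _)
    rw [hcardT] at hprob
    have hhalf : 1 - P < 1 / 2 := by
      by_contra hle
      push Not at hle
      have h1 : (2 * (c : ℝ) * D) ^ n * (1 - P) < ((minsAt 𝒞 k J).card : ℝ) * (1 - P) :=
        mul_lt_mul_of_pos_right hgt (by linarith)
      have h2 : P * (2 * (c : ℝ) * D) ^ n ≤ (1 - P) * (2 * (c : ℝ) * D) ^ n :=
        mul_le_mul_of_nonneg_right (by linarith) hB0
      linarith
    apply hcl J (by omega)
    have h1 : ∀ W : Finset X, ind (¬ cov 𝒞 (J ∪ W)) ≤ ind (¬ ∃ T ∈ 𝒯, T ⊆ W) := by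
      intro W
      apply ind_mono
      intro h ⟨T, hT, hTW⟩
      apply h
      rw [h𝒯, Finset.mem_image] at hT
      obtain ⟨S, hS, rfl⟩ := hT
      simp only [minsAt, mins, Finset.mem_filter] at hS
      refine ⟨S, hS.1.1, ?_⟩
      rw [← Finset.union_sdiff_of_subset hS.2.2]
      exact Finset.union_subset_union_right hTW
    refine lt_of_le_of_lt (le_trans (En_mono L h1) (En_not_cover hD 𝒯 L)) ?_
    exact pow_lt_pow_left₀ hhalf (by linarith) hL.ne'

end Pool.Agent.T9h34
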