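import Pool.Agent.T9h34.Code
import Pool.Agent.T9h34.Chain
import Pool.Agent.T9h34.CliqueDef

/-!
Membership of a full codeword in a set is a projection of the clique problem.
-/

namespace Pool.Agent.T9h34

open Finset

/-- Groups of vertices. -/
abbrev Grp (a b m u : ℕ) : Type :=
  (Fin a × Bool) ⊕ ((Fin a × Bool × Fin b × Fin m) ⊕ Fin u)

/-- Vertices. -/
abbrev Vtx (a b m u : ℕ) : Type :=
  ((Fin a × Bool) × (Fin b → ZMod 2)) ⊕
    (((Fin a × Bool × Fin b × Fin m) × (ZMod 2 × ZMod 2)) ⊕ Fin u)

variable {a b m u : ℕ}

/-- The group of a vertex. -/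
def grp : Vtx a b m u → Grp a b m u
  | .inl p => .inl p.1
  | .inr (.inl p) => .inr (.inl p.1)
  | .inr (.inr i) => .inr (.inr i)

/-- The beginning of a message. -/
def trunc (l : ℕ) (s : Fin m → ZMod 2) : Fin m → ZMod 2 :=
  fun j => if (j : ℕ) < l then s j else 0

theorem trunc_zero (s : Fin m → ZMod 2) : trunc 0 s = 0 := by
  funext j
  simp [trunc]

theorem trunc_full (s : Fin m → ZMod 2) : trunc m s = s := by
  funext j
  simp [trunc]

theorem trunc_succ (s : Fin m → ZMod 2) (l : Fin m) :
    trunc ((l : ℕ) + 1) s = trunc (l : ℕ) s + Pi.single l (s l) := by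
  funext j
  simp only [trunc, Pi.add_apply]
  rcases lt_trichotomy (j : ℕ) (l : ℕ) with h | h | h
  · have hne : j ≠ l := fun e => by rw [e] at h; exact lt_irrefl _ h
    rw [if_pos (by omega), if_pos h, Pi.single_eq_of_ne hne, add_zero]
  · have he : j = l := Fin.ext h
    subst he
    rw [if_pos (by omega), if_neg (by omega), Pi.single_eq_same, zero_add]
  · have hne : j ≠ l := fun e => by rw [e] at h; exact lt_irrefl _ h
    rw [if_neg (by omega), if_neg (by omega), Pi.single_eq_of_ne hne, add_zero]

variable (W : (Fin m → ZMod 2) →ₗ[ZMod 2] (Fin a → Sym b))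

/-- The vertex that a message selects in a group. -/
def vert (s : Fin m → ZMod 2) : Grp a b m u → Vtx a b m u
  | .inl p => .inl (p, fun j => W s p.1 (p.2, j))
  | .inr (.inl p) => .inr (.inl (p, (W (trunc (p.2.2.2 : ℕ) s) p.1 (p.2.1, p.2.2.1), s p.2.2.2)))
  | .inr (.inr i) => .inr (.inr i)

theorem grp_vert (s : Fin m → ZMod 2) (g : Grp a b m u) : grp (vert W s g) = g := by
  rcases g with g | g | g <;> rfl

/-- Two vertices of different groups that some message selects together. -/
def Base (x y : Vtx a b m u) : Prop :=
  grp x ≠ grp y ∧ ∃ s, vert W s (grp x) = x ∧ vert W s (grp y) = y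

theorem Base.symm {x y : Vtx a b m u} (h : Base W x y) : Base W y x :=
  ⟨fun e => h.1 e.symm, by obtain ⟨s, h1, h2⟩ := h.2; exact ⟨s, h2, h1⟩⟩

/-- The symbol with the two given halves. -/
def comb (h : Bool) (y y' : Fin b → ZMod 2) : Sym b := fun p => if p.1 = h then y p.2 else y' p.2

theorem comb_symm {h h' : Bool} (hne : h ≠ h') (y y' : Fin b → ZMod 2) :
    comb h y y' = comb h' y' y := by
  funext p
  obtain ⟨p1, p2⟩ := p
  simp only [comb]
  cases p1 <;> cases h <;> cases h' <;> simp_all

/-- The status of a pair of vertices that can be selected together: a ground element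
(present if it belongs to the input set) for the two halves of one position, and always present
otherwise. -/
def label : Vtx a b m u → Vtx a b m u → Ground a b ⊕ Bool
  | .inl ((i, h), z), .inl ((i', _), z') => if i = i' then .inl (i, comb h z z') else .inr true
  | .inl _, .inr _ => .inr true
  | .inr _, _ => .inr true

/-- The status of a pair of vertices. -/
noncomputable def edge (x y : Vtx a b m u) : Ground a b ⊕ Bool := by
  classical
  exact if Base W x y then label x y else .inr false

theorem label_symm {x y : Vtx a b m u} (h : grp x ≠ grp y) : label x y = label y x := by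
  rcases x with ⟨⟨i, hh⟩, z⟩ | x
  · rcases y with ⟨⟨i', hh'⟩, z'⟩ | y
    · simp only [label]
      by_cases hi : i = i'
      · subst hi
        rw [if_pos rfl, if_pos rfl]
        have hne : hh ≠ hh' := by
          intro e
          apply h
          simp [grp, e]
        rw [comb_symm hne]
      · rw [if_neg hi, if_neg (Ne.symm hi)]
    · rfl
  · rcases y with y | y <;> rfl

theorem edge_symm (x y : Vtx a b m u) : edge W x y = edge W y x := by
  unfold edge
  by_cases h : Base W x y
  · rw [if_pos h, if_pos h.symm, label_symm h.1]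
  · rw [if_neg h, if_neg (fun h' => h h'.symm)]

/-- The graph of an input set. -/
def graphOf (Z : Finset (Ground a b)) : SimpleGraph (Vtx a b m u) where
  Adj x y := Sum.elim (fun p => p ∈ Z) (fun c => c = true) (edge W x y)
  symm := ⟨by
    intro x y h
    rw [edge_symm]
    exact h⟩
  loopless := ⟨by
    intro x h
    unfold edge at h
    rw [if_neg (fun h' => h'.1 rfl)] at h
    exact absurd h (by simp)⟩

theorem graphOf_adj (Z : Finset (Ground a b)) (x y : Vtx a b m u) :
    (graphOf W Z).Adj x y ↔ Sum.elim (fun p => p ∈ Z) (fun c => c = true) (edge W x y) := Iff.rfl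

theorem base_of_adj {Z : Finset (Ground a b)} {x y : Vtx a b m u}
    (h : (graphOf W Z).Adj x y) : Base W x y := by
  by_contra hb
  rw [graphOf_adj] at h
  unfold edge at h
  rw [if_neg hb] at h
  simp at h

/-- First label of an auxiliary vertex. -/
def lab1 : Vtx a b m u → ZMod 2
  | .inl _ => 0
  | .inr (.inl p) => p.2.1
  | .inr (.inr _) => 0

/-- Second label of an auxiliary vertex. -/
def lab2 : Vtx a b m u → ZMod 2
  | .inl _ => 0
  | .inr (.inl p) => p.2.2
  | .inr (.inr _) => 0

/-- Label of a main vertex. -/
def lab0 : Vtx a b m u → Fin b → ZMod 2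
  | .inl p => p.2
  | .inr _ => 0

theorem clique_iff (ha : 0 < a) (hb : 0 < b) (hm : 0 < m) (Z : Finset (Ground a b)) :
    (∃ S : Finset (Vtx a b m u), (graphOf W Z).IsNClique (Fintype.card (Grp a b m u)) S)
      ↔ ∃ s, wordSet W s ⊆ Z := by
  classical
  constructor
  · rintro ⟨S, hS⟩
    rw [SimpleGraph.isNClique_iff] at hS
    obtain ⟨hcl, hcard⟩ := hS
    have hinj : Set.InjOn grp (S : Set (Vtx a b m u)) := by
      intro x hx y hy hxy
      by_contra hne
      exact (base_of_adj W (hcl hx hy hne)).1 hxy
    have himg : S.image grp = univ := by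
      rw [← Finset.card_eq_iff_eq_univ, Finset.card_image_of_injOn hinj, hcard]
    have hex : ∀ g : Grp a b m u, ∃ x ∈ S, grp x = g := by
      intro g
      have : g ∈ S.image grp := by rw [himg]; exact Finset.mem_univ g
      rw [Finset.mem_image] at this
      exact this
    choose x hxS hxg using hex
    have hadj : ∀ g g', g ≠ g' → (graphOf W Z).Adj (x g) (x g') := by
      intro g g' hne
      apply hcl (hxS g) (hxS g')
      intro h
      apply hne
      rw [← hxg g, ← hxg g', h]
    have hcons : ∀ g g', g ≠ g' → ∃ s, vert W s g = x g ∧ vert W s g' = x g' := by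
      intro g g' hne
      obtain ⟨s, h1, h2⟩ := (base_of_adj W (hadj g g' hne)).2
      rw [hxg] at h1 h2
      exact ⟨s, h1, h2⟩
    set i0 : Fin a := ⟨0, ha⟩
    set j0 : Fin b := ⟨0, hb⟩
    set t : Fin m → ZMod 2 := fun l => lab2 (x (.inr (.inl (i0, false, j0, l)))) with ht
    have hA : ∀ i h j l, lab2 (x (.inr (.inl (i, h, j, l)))) = t l := by
      intro i h j l
      by_cases he : (i, h, j, l) = (i0, false, j0, l)
      · rw [he]
      · obtain ⟨s, h1, h2⟩ := hcons (.inr (.inl (i, h, j, l))) (.inr (.inl (i0, false, j0, l)))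
          (by intro e; apply he; simpa using e)
        rw [ht]
        simp only
        rw [← h1, ← h2]
        rfl
    have hB : ∀ k : ℕ, ∀ i h j, ∀ l : Fin m, (l : ℕ) = k →
        lab1 (x (.inr (.inl (i, h, j, l)))) = W (trunc k t) i (h, j) := by
      intro k
      induction k with
      | zero =>
        intro i h j l hl
        obtain ⟨s, h1, _⟩ := hcons (.inr (.inl (i, h, j, l))) (.inl (i, h)) (by simp)
        rw [← h1, trunc_zero]
        change W (trunc (l : ℕ) s) i (h, j) = _
        rw [hl, trunc_zero]
      | succ k ih =>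
        intro i h j l hl
        have hkm : k < m := by have := l.isLt; omega
        set l' : Fin m := ⟨k, hkm⟩ with hl'
        obtain ⟨s, h1, h2⟩ := hcons (.inr (.inl (i, h, j, l'))) (.inr (.inl (i, h, j, l))) (by
          intro e
          simp only [Sum.inr.injEq, Sum.inl.injEq, Prod.mk.injEq, true_and] at e
          rw [← e] at hl
          simp [hl'] at hl)
        have h3 := ih i h j l' rfl
        have h4 := hA i h j l'
        rw [← h1] at h3 h4
        rw [← h2]
        change W (trunc (l' : ℕ) s) i (h, j) = _ at h3
        change s l' = t l' at h4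
        change W (trunc (l : ℕ) s) i (h, j) = _
        have h5 : (l : ℕ) = (l' : ℕ) + 1 := hl
        have h6 : k + 1 = (l' : ℕ) + 1 := rfl
        rw [h5, h6, trunc_succ, trunc_succ, map_add, map_add, h4]
        simp only [Pi.add_apply]
        rw [h3]
    have hC : ∀ i h j, lab0 (x (.inl (i, h))) j = W t i (h, j) := by
      intro i h j
      set l' : Fin m := ⟨m - 1, by omega⟩ with hl'
      obtain ⟨s, h1, h2⟩ := hcons (.inl (i, h)) (.inr (.inl (i, h, j, l'))) (by simp)
      have h3 := hB (m - 1) i h j l' rfl
      have h4 := hA i h j l'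
      rw [← h2] at h3 h4
      rw [← h1]
      change W (trunc (l' : ℕ) s) i (h, j) = _ at h3
      change s l' = t l' at h4
      change W s i (h, j) = _
      have h5 : m = (l' : ℕ) + 1 := by simp [hl']; omega
      have h6 : s = trunc (l' : ℕ) s + Pi.single l' (s l') := by
        rw [← trunc_succ, ← h5, trunc_full]
      have h7 : t = trunc (l' : ℕ) t + Pi.single l' (t l') := by
        rw [← trunc_succ, ← h5, trunc_full]
      rw [h6, h7, map_add, map_add, Pi.add_apply, Pi.add_apply, Pi.add_apply, Pi.add_apply, h3]
      rw [h4]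
    refine ⟨t, ?_⟩
    intro p hp
    have hp' := mem_wordSet.1 hp
    obtain ⟨i, y⟩ := p
    simp only at hp'
    subst hp'
    have h8 := hadj (.inl (i, false)) (.inl (i, true)) (by simp)
    have h9 := base_of_adj W h8
    rw [graphOf_adj] at h8
    unfold edge at h8
    rw [if_pos h9] at h8
    have hx1 : ∀ h, x (.inl (i, h)) = .inl ((i, h), lab0 (x (.inl (i, h)))) := by
      intro h
      have := hxg (.inl (i, h))
      revert this
      generalize x (.inl (i, h)) = w
      intro hw
      rcases w with ⟨p, z⟩ | w | w
      · simp only [grp, Sum.inl.injEq] at hw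
        subst hw
        rfl
      · simp [grp] at hw
      · simp [grp] at hw
    rw [hx1 false, hx1 true] at h8
    simp only [label, if_true, Sum.elim_inl] at h8
    have h10 : comb false (lab0 (x (.inl (i, false)))) (lab0 (x (.inl (i, true)))) = W t i := by
      funext p
      obtain ⟨p1, p2⟩ := p
      simp only [comb]
      cases p1
      · simp [hC]
      · simp [hC]
    rw [h10] at h8
    exact h8
  · rintro ⟨s, hs⟩
    refine ⟨univ.image (vert W s), ?_⟩
    rw [SimpleGraph.isNClique_iff]
    constructor
    · intro x hx y hy hne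
      rw [Finset.coe_image, Set.mem_image] at hx hy
      obtain ⟨g, _, rfl⟩ := hx
      obtain ⟨g', _, rfl⟩ := hy
      have hgg : g ≠ g' := fun e => hne (by rw [e])
      have hbase : Base W (vert W s g) (vert W s g') := by
        refine ⟨by rw [grp_vert, grp_vert]; exact hgg, s, ?_, ?_⟩
        · rw [grp_vert]
        · rw [grp_vert]
      rw [graphOf_adj]
      unfold edge
      rw [if_pos hbase]
      rcases g with ⟨i, h⟩ | g
      · rcases g' with ⟨i', h'⟩ | g'
        · simp only [vert, label]
          by_cases hi : i = i'
          · subst hi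
            rw [if_pos rfl, Sum.elim_inl]
            apply hs
            rw [mem_wordSet]
            simp only
            funext p
            obtain ⟨p1, p2⟩ := p
            have hh : h ≠ h' := fun e => hgg (by rw [e])
            simp only [comb]
            cases p1 <;> cases h <;> cases h' <;> simp_all
          · rw [if_neg hi]
            rfl
        · rcases g' with g' | g' <;> rfl
      · rcases g with g | g <;> rfl
    · rw [Finset.card_image_of_injective, Finset.card_univ]
      intro g g' h
      rw [← grp_vert W s g, ← grp_vert W s g', h]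

/-- The projection from the clique problem on `M` vertices. -/
noncomputable def proj {M : ℕ} (f : Vtx a b m u ↪ Fin M) : Fin M × Fin M → Ground a b ⊕ Bool := by
  classical
  exact fun p => if h : ∃ q : Vtx a b m u × Vtx a b m u, f q.1 = p.1 ∧ f q.2 = p.2 then
    edge W h.choose.1 h.choose.2 else .inr false

theorem pull_proj {M : ℕ} (f : Vtx a b m u ↪ Fin M) (Z : Finset (Ground a b)) :
    pull (proj W f) (chi Z) = graphInput ((graphOf W Z).map f) := by
  classical
  funext p
  unfold pull proj graphInput
  split_ifs with h
  · have h1 := h.choose_spec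
    generalize h.choose = q at h1
    obtain ⟨x, y⟩ := q
    simp only at h1 ⊢
    have h2 : ((graphOf W Z).map f).Adj p.1 p.2 ↔ (graphOf W Z).Adj x y := by
      rw [SimpleGraph.map_adj]
      constructor
      · rintro ⟨x', y', h3, h4, h5⟩
        have e1 : x' = x := f.injective (h4.trans h1.1.symm)
        have e2 : y' = y := f.injective (h5.trans h1.2.symm)
        rw [← e1, ← e2]
        exact h3
      · intro h3
        exact ⟨x, y, h3, h1.1, h1.2⟩
    have key : (Sum.elim (chi Z) id (edge W x y) = true)
        ↔ ((graphOf W Z).map f).Adj p.1 p.2 := by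
      rw [h2, graphOf_adj]
      cases hE : edge W x y with
      | inl q => simp [chi]
      | inr c => simp
    rw [Bool.eq_iff_iff]
    simp only [decide_eq_true_eq]
    exact key
  · have h2 : ¬ ((graphOf W Z).map f).Adj p.1 p.2 := by
      rw [SimpleGraph.map_adj]
      rintro ⟨x', y', _, h4, h5⟩
      exact h ⟨(x', y'), h4, h5⟩
    simp [h2]

theorem exists_clique_map {M k : ℕ} [Nonempty (Vtx a b m u)] (f : Vtx a b m u ↪ Fin M)
    (Z : Finset (Ground a b)) :
    (∃ S, ((graphOf W Z).map f).IsNClique k S) ↔ ∃ S, (graphOf (u := u) W Z).IsNClique k S := by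
  have := SimpleGraph.cliqueFree_map_iff (G := graphOf (u := u) W Z) (f := f) (n := k)
  unfold SimpleGraph.CliqueFree at this
  constructor
  · intro h
    by_contra hc
    push Not at hc
    obtain ⟨S, hS⟩ := h
    exact this.2 hc S hS
  · intro h
    by_contra hc
    push Not at hc
    obtain ⟨S, hS⟩ := h
    exact this.1 hc S hS

end Pool.Agent.T9h34
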