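import Mathlib

/-!
Random noise sets on a finite ground set, as averaging functionals.
-/

namespace Pool.Agent.T9h34

open Finset

/-- The real number `1` if `p` holds and `0` otherwise. -/
noncomputable def ind (p : Prop) : ℝ := by
  classical
  exact if p then 1 else 0

theorem ind_of {p : Prop} (h : p) : ind p = 1 := by simp [ind, h]

theorem ind_not {p : Prop} (h : ¬ p) : ind p = 0 := by simp [ind, h]

theorem ind_nonneg (p : Prop) : 0 ≤ ind p := by
  by_cases h : p
  · rw [ind_of h]; norm_num
  · rw [ind_not h]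

theorem ind_le_one (p : Prop) : ind p ≤ 1 := by
  by_cases h : p
  · rw [ind_of h]
  · rw [ind_not h]; norm_num

theorem ind_mono {p q : Prop} (h : p → q) : ind p ≤ ind q := by
  by_cases hp : p
  · rw [ind_of hp, ind_of (h hp)]
  · rw [ind_not hp]; exact ind_nonneg q

theorem ind_compl (p : Prop) : ind (¬ p) = 1 - ind p := by
  by_cases hp : p
  · rw [ind_of hp, ind_not (by simpa using hp)]; norm_num
  · rw [ind_not hp, ind_of hp]; norm_num

theorem ind_or_le (p q : Prop) : ind (p ∨ q) ≤ ind p + ind q := by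
  by_cases hp : p
  · rw [ind_of hp, ind_of (Or.inl hp)]; linarith [ind_nonneg q]
  · by_cases hq : q
    · rw [ind_of hq, ind_of (Or.inr hq)]; linarith [ind_nonneg p]
    · rw [ind_not (by tauto)]; linarith [ind_nonneg p, ind_nonneg q]

theorem ind_and (p q : Prop) : ind (p ∧ q) = ind p * ind q := by
  by_cases hp : p
  · by_cases hq : q
    · rw [ind_of hp, ind_of hq, ind_of ⟨hp, hq⟩]; norm_num
    · rw [ind_not hq, ind_not (by tauto)]; norm_num
  · rw [ind_not hp, ind_not (by tauto)]; norm_num

theorem ind_exists_le {α : Type*} (s : Finset α) (p : α → Prop) :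
    ind (∃ a ∈ s, p a) ≤ ∑ a ∈ s, ind (p a) := by
  by_cases h : ∃ a ∈ s, p a
  · obtain ⟨a, ha, hpa⟩ := h
    rw [ind_of ⟨a, ha, hpa⟩, ← ind_of hpa]
    exact Finset.single_le_sum (f := fun a => ind (p a)) (fun b _ => ind_nonneg _) ha
  · rw [ind_not h]
    exact Finset.sum_nonneg (fun b _ => ind_nonneg _)

variable {X : Type*} [Fintype X] [DecidableEq X]

/-- The set of points that `φ` sends to the first colour. -/
def zset (D : ℕ) (φ : X → Fin D) : Finset X := univ.filter (fun x => (φ x : ℕ) = 0)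

/-- Average of `F` over a random set containing each point independently with
probability `1 / D`. -/
noncomputable def Ez (D : ℕ) (F : Finset X → ℝ) : ℝ :=
  (∑ φ : X → Fin D, F (zset D φ)) / (D : ℝ) ^ (Fintype.card X)

/-- Average of `F` over the union of `k` independent such random sets. -/
noncomputable def En (D : ℕ) : ℕ → (Finset X → ℝ) → ℝ
  | 0, F => F ∅
  | k + 1, F => Ez D (fun z => En D k (fun U => F (z ∪ U)))

theorem Ez_mono {D : ℕ} {F G : Finset X → ℝ} (h : ∀ z, F z ≤ G z) : Ez D F ≤ Ez D G := by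
  unfold Ez
  apply div_le_div_of_nonneg_right _ (by positivity)
  exact Finset.sum_le_sum (fun φ _ => h _)

theorem Ez_add (D : ℕ) (F G : Finset X → ℝ) :
    Ez D (fun z => F z + G z) = Ez D F + Ez D G := by
  unfold Ez
  rw [Finset.sum_add_distrib, add_div]

theorem Ez_const_mul (D : ℕ) (c : ℝ) (F : Finset X → ℝ) :
    Ez D (fun z => c * F z) = c * Ez D F := by
  unfold Ez
  rw [← Finset.mul_sum, mul_div_assoc]

theorem Ez_sum {α : Type*} (D : ℕ) (s : Finset α) (F : α → Finset X → ℝ) :
    Ez D (fun z => ∑ a ∈ s, F a z) = ∑ a ∈ s, Ez D (F a) := by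
  unfold Ez
  rw [Finset.sum_comm, Finset.sum_div]

theorem Ez_const {D : ℕ} (hD : 0 < D) (c : ℝ) : Ez (X := X) D (fun _ => c) = c := by
  unfold Ez
  have hD' : (D : ℝ) ≠ 0 := by positivity
  rw [Finset.sum_const, Finset.card_univ, Fintype.card_fun, Fintype.card_fin, nsmul_eq_mul]
  push_cast
  field_simp

theorem Ez_nonneg {D : ℕ} {F : Finset X → ℝ} (h : ∀ z, 0 ≤ F z) : 0 ≤ Ez D F := by
  unfold Ez
  exact div_nonneg (Finset.sum_nonneg (fun φ _ => h _)) (by positivity)

theorem Ez_sub (D : ℕ) (F G : Finset X → ℝ) :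
    Ez D (fun z => F z - G z) = Ez D F - Ez D G := by
  unfold Ez
  rw [Finset.sum_sub_distrib, sub_div]

theorem En_mono {D : ℕ} (k : ℕ) {F G : Finset X → ℝ} (h : ∀ z, F z ≤ G z) :
    En D k F ≤ En D k G := by
  induction k generalizing F G with
  | zero => exact h _
  | succ k ih => exact Ez_mono (fun z => ih (fun U => h _))

theorem En_add (D k : ℕ) (F G : Finset X → ℝ) :
    En D k (fun z => F z + G z) = En D k F + En D k G := by
  induction k generalizing F G with
  | zero => rfl
  | succ k ih =>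
    simp only [En]
    rw [← Ez_add]
    congr 1
    funext z
    exact ih _ _

theorem En_sub (D k : ℕ) (F G : Finset X → ℝ) :
    En D k (fun z => F z - G z) = En D k F - En D k G := by
  induction k generalizing F G with
  | zero => rfl
  | succ k ih =>
    simp only [En]
    rw [← Ez_sub]
    congr 1
    funext z
    exact ih _ _

theorem En_const_mul (D k : ℕ) (c : ℝ) (F : Finset X → ℝ) :
    En D k (fun z => c * F z) = c * En D k F := by
  induction k generalizing F with
  | zero => rfl
  | succ k ih =>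
    simp only [En]
    rw [← Ez_const_mul]
    congr 1
    funext z
    exact ih _

theorem En_const {D : ℕ} (hD : 0 < D) (k : ℕ) (c : ℝ) : En (X := X) D k (fun _ => c) = c := by
  induction k with
  | zero => rfl
  | succ k ih =>
    simp only [En]
    rw [ih]
    exact Ez_const hD c

theorem En_nonneg {D : ℕ} (k : ℕ) {F : Finset X → ℝ} (h : ∀ z, 0 ≤ F z) : 0 ≤ En D k F := by
  induction k generalizing F with
  | zero => exact h _
  | succ k ih => exact Ez_nonneg (fun z => ih (fun U => h _))

theorem En_le_one {D : ℕ} (hD : 0 < D) (k : ℕ) {F : Finset X → ℝ} (h : ∀ z, F z ≤ 1) :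
    En D k F ≤ 1 :=
  le_trans (En_mono k h) (le_of_eq (En_const hD k 1))

theorem Ez_le_one {D : ℕ} (hD : 0 < D) {F : Finset X → ℝ} (h : ∀ z, F z ≤ 1) :
    Ez D F ≤ 1 :=
  le_trans (Ez_mono h) (le_of_eq (Ez_const hD 1))

theorem En_add_rounds (D k l : ℕ) (F : Finset X → ℝ) :
    En D (k + l) F = En D k (fun U => En D l (fun W => F (U ∪ W))) := by
  induction k generalizing F with
  | zero => simp [En]
  | succ k ih =>
    rw [Nat.succ_add]
    simp only [En]
    congr 1
    funext z
    rw [ih]
    simp only [Finset.union_assoc]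

theorem En_one (D : ℕ) (F : Finset X → ℝ) : En D 1 F = Ez D F := by
  simp [En]

/-- Product formula for the average over one noise set. -/
theorem Ez_prod {D : ℕ} (hD : 0 < D) (a b : X → ℝ) :
    Ez D (fun z => ∏ x, if x ∈ z then a x else b x)
      = ∏ x, (a x / D + (1 - 1 / (D : ℝ)) * b x) := by
  unfold Ez
  have hD' : (D : ℝ) ≠ 0 := by positivity
  have h1 : ∀ φ : X → Fin D, (∏ x, if x ∈ zset D φ then a x else b x)
      = ∏ x, (if ((φ x : Fin D) : ℕ) = 0 then a x else b x) := by
    intro φ
    apply Finset.prod_congr rfl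
    intro x _
    simp [zset]
  simp only [h1]
  have h2 : (∑ φ : X → Fin D, ∏ x, (if ((φ x : Fin D) : ℕ) = 0 then a x else b x))
      = ∏ x, ∑ i : Fin D, (if (i : ℕ) = 0 then a x else b x) := by
    rw [Finset.prod_univ_sum]
    rw [Fintype.piFinset_univ]
  rw [h2]
  have h3 : ∀ x : X, (∑ i : Fin D, (if (i : ℕ) = 0 then a x else b x))
      = a x + ((D : ℝ) - 1) * b x := by
    intro x
    obtain ⟨D', rfl⟩ : ∃ D', D = D' + 1 := ⟨D - 1, by omega⟩
    rw [Fin.sum_univ_succ]
    simp
  simp only [h3]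
  rw [← Finset.card_univ, ← Finset.prod_const, ← Finset.prod_div_distrib]
  apply Finset.prod_congr rfl
  intro x _
  field_simp

theorem Ez_subset {D : ℕ} (hD : 0 < D) (T : Finset X) :
    Ez D (fun z => ind (T ⊆ z)) = (1 / (D : ℝ)) ^ T.card := by
  have h := Ez_prod (X := X) hD (fun _ => 1) (fun x => if x ∈ T then 0 else 1)
  have h1 : (fun z : Finset X => ∏ x, if x ∈ z then (1 : ℝ) else if x ∈ T then 0 else 1)
      = fun z => ind (T ⊆ z) := by
    funext z
    by_cases hz : T ⊆ z
    · rw [ind_of hz]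
      apply Finset.prod_eq_one
      intro x _
      by_cases hx : x ∈ z
      · simp [hx]
      · have : x ∉ T := fun h => hx (hz h)
        simp [hx, this]
    · rw [ind_not hz]
      rw [Finset.not_subset] at hz
      obtain ⟨x, hxT, hxz⟩ := hz
      apply Finset.prod_eq_zero (Finset.mem_univ x)
      simp [hxT, hxz]
  rw [h1] at h
  rw [h]
  have h2 : ∀ x : X, ((1 : ℝ) / D + (1 - 1 / (D : ℝ)) * (if x ∈ T then (0 : ℝ) else 1))
      = if x ∈ T then (1 / (D : ℝ)) else 1 := by
    intro x
    split_ifs <;> ring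
  simp only [h2]
  rw [Finset.prod_ite_mem, Finset.univ_inter, Finset.prod_const]

theorem Ez_pow_sdiff {D : ℕ} (hD : 0 < D) (T : Finset X) (ρ : ℝ) :
    Ez D (fun z => ρ ^ (T \ z).card) = (1 / (D : ℝ) + (1 - 1 / (D : ℝ)) * ρ) ^ T.card := by
  have h := Ez_prod (X := X) hD (fun _ => 1) (fun x => if x ∈ T then ρ else 1)
  have h1 : (fun z : Finset X => ∏ x, if x ∈ z then (1 : ℝ) else if x ∈ T then ρ else 1)
      = fun z => ρ ^ (T \ z).card := by
    funext z
    have : ∀ x : X, (if x ∈ z then (1 : ℝ) else if x ∈ T then ρ else 1)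
        = if x ∈ T \ z then ρ else 1 := by
      intro x
      by_cases hx : x ∈ z <;> by_cases hT : x ∈ T <;> simp [hx, hT]
    simp only [this]
    rw [Finset.prod_ite_mem, Finset.univ_inter, Finset.prod_const]
  rw [h1] at h
  rw [h]
  have h2 : ∀ x : X, ((1 : ℝ) / D + (1 - 1 / (D : ℝ)) * (if x ∈ T then ρ else 1))
      = if x ∈ T then (1 / (D : ℝ) + (1 - 1 / (D : ℝ)) * ρ) else 1 := by
    intro x
    split_ifs <;> ring
  simp only [h2]
  rw [Finset.prod_ite_mem, Finset.univ_inter, Finset.prod_const]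

theorem En_subset_le {D : ℕ} (hD : 0 < D) (k : ℕ) (T : Finset X) :
    En D k (fun U => ind (T ⊆ U)) ≤ ((k : ℝ) / D) ^ T.card := by
  induction k generalizing T with
  | zero =>
    simp only [En]
    by_cases hT : T ⊆ ∅
    · rw [Finset.subset_empty] at hT
      subst hT
      rw [ind_of (by simp)]
      simp
    · rw [ind_not hT]
      positivity
  | succ k ih =>
    simp only [En]
    have hDr : (1 : ℝ) ≤ D := by exact_mod_cast hD
    have h1 : ∀ z : Finset X, En D k (fun U => ind (T ⊆ z ∪ U)) ≤ ((k : ℝ) / D) ^ (T \ z).card := by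
      intro z
      refine le_trans (En_mono k (fun U => ind_mono ?_)) (ih (T \ z))
      intro h x hx
      rw [Finset.mem_sdiff] at hx
      rcases Finset.mem_union.1 (h hx.1) with h2 | h2
      · exact absurd h2 hx.2
      · exact h2
    refine le_trans (Ez_mono h1) ?_
    rw [Ez_pow_sdiff hD]
    apply pow_le_pow_left₀
    · have : (0 : ℝ) ≤ 1 - 1 / (D : ℝ) := by
        rw [sub_nonneg, div_le_one (by positivity)]; exact hDr
      positivity
    · push_cast
      have h3 : (1 - 1 / (D : ℝ)) * (k / D) ≤ 1 * (k / D) := by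
        apply mul_le_mul_of_nonneg_right _ (by positivity)
        have : (0 : ℝ) ≤ 1 / (D : ℝ) := by positivity
        linarith
      calc 1 / (D : ℝ) + (1 - 1 / (D : ℝ)) * (k / D) ≤ 1 / (D : ℝ) + 1 * (k / D) := by linarith
        _ = (k + 1) / D := by ring

end Pool.Agent.T9h34
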