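import Pool.Agent.T9h34.Gadget

/-!
Choice of the parameters.
-/

namespace Pool.Agent.T9h34

open Finset

theorem card_smalls_le {X : Type*} [Fintype X] [DecidableEq X] (c : ℕ) :
    (smalls (X := X) c).card ≤ (Fintype.card X + 1) ^ c := by
  classical
  have hsub : smalls (X := X) c ⊆ (univ : Finset (Fin c → Option X)).image
      (fun g => univ.filter (fun x => ∃ i, g i = some x)) := by
    intro T hT
    have hTc := mem_smalls.1 hT
    rw [Finset.mem_image]
    refine ⟨fun i => if h : (i : ℕ) < T.card then some (T.equivFin.symm ⟨i, h⟩ : X) else none,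
      Finset.mem_univ _, ?_⟩
    ext x
    simp only [Finset.mem_filter, Finset.mem_univ, true_and]
    constructor
    · rintro ⟨i, hi⟩
      by_cases h : (i : ℕ) < T.card
      · rw [dif_pos h] at hi
        rw [← Option.some.inj hi]
        exact (T.equivFin.symm ⟨i, h⟩).2
      · rw [dif_neg h] at hi
        exact absurd hi (by simp)
    · intro hx
      set k := T.equivFin ⟨x, hx⟩ with hk
      refine ⟨⟨k, lt_of_lt_of_le k.isLt hTc⟩, ?_⟩
      rw [dif_pos k.isLt]
      simp [hk]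
  refine le_trans (Finset.card_le_card hsub) (le_trans Finset.card_image_le ?_)
  rw [Finset.card_univ, Fintype.card_fun, Fintype.card_option, Fintype.card_fin]

set_option maxHeartbeats 4000000 in
theorem main_case {n lam l s t d : ℕ} (hn : n < 2 ^ lam) (hl : lam ≤ l) (hlam : 1 ≤ lam)
    (hs : s < 2 ^ l) (hbig : 2304 * lam ^ 3 * l ^ 2 < n)
    (C : Circuit (Fin (2 * n) × Fin (2 * n))) (hC : C.DecidesClique n) (hCs : C.size = s)
    (hCt : C.numOther = t) (hCd : C.FanIn d) :
    n ^ 2 ≤ 55738368 * lam ^ 3 * l ^ 4 * (d + 1) * 2 ^ t := by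
  have hl1 : 1 ≤ l := le_trans hlam hl
  have hll : 1 ≤ lam * l := Nat.one_le_iff_ne_zero.2 (by positivity)
  -- the number of bits
  set b := Nat.log 2 (n / (36 * lam * l)) with hb
  have h36 : 0 < 36 * lam * l := by positivity
  have hq : 2 ≤ n / (36 * lam * l) := by
    rw [Nat.le_div_iff_mul_le h36]
    have h1 : lam * l ≤ lam ^ 3 * l ^ 2 := by
      have : lam ^ 3 * l ^ 2 = (lam * l) * (lam ^ 2 * l) := by ring
      rw [this]
      exact Nat.le_mul_of_pos_right _ (by positivity)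
    nlinarith
  have hb1 : 1 ≤ b := by
    rw [hb]
    exact Nat.log_pos (by norm_num) hq
  have h2b : 2 ^ b * (36 * lam * l) ≤ n := by
    have := Nat.pow_log_le_self 2 (x := n / (36 * lam * l)) (by omega)
    rw [← hb] at this
    calc 2 ^ b * (36 * lam * l) ≤ n / (36 * lam * l) * (36 * lam * l) := Nat.mul_le_mul_right _ this
      _ ≤ n := Nat.div_mul_le_self _ _
  have h2b' : n < 2 ^ b * (72 * lam * l) := by
    have := Nat.lt_pow_succ_log_self (b := 2) (by norm_num) (n / (36 * lam * l))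
    rw [← hb, Nat.div_lt_iff_lt_mul h36, pow_succ] at this
    calc n < 2 ^ b * 2 * (36 * lam * l) := this
      _ = 2 ^ b * (72 * lam * l) := by ring
  have hbn : 2 ^ b ≤ n := by
    calc 2 ^ b = 2 ^ b * 1 := by ring
      _ ≤ 2 ^ b * (36 * lam * l) := Nat.mul_le_mul_left _ h36
      _ ≤ n := h2b
  have hblam : b ≤ lam := by
    by_contra hlt
    push Not at hlt
    have : 2 ^ lam ≤ 2 ^ b := Nat.pow_le_pow_right (by norm_num) hlt.le
    omega
  -- 2 ^ b is large
  have hQ1 : 32 * (lam ^ 2 * l) ≤ 2 ^ b := by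
    by_contra hlt
    push Not at hlt
    have h1 : 2 ^ b * (72 * lam * l) ≤ (32 * (lam ^ 2 * l)) * (72 * lam * l) :=
      Nat.mul_le_mul_right _ hlt.le
    have h2 : (32 * (lam ^ 2 * l)) * (72 * lam * l) = 2304 * lam ^ 3 * l ^ 2 := by ring
    omega
  have hQ2 : 1024 * (lam ^ 4 * l ^ 2) ≤ 2 ^ (2 * b) := by
    have h1 : 2 ^ (2 * b) = 2 ^ b * 2 ^ b := by rw [← pow_add]; congr 1; omega
    rw [h1]
    calc 1024 * (lam ^ 4 * l ^ 2) = (32 * (lam ^ 2 * l)) * (32 * (lam ^ 2 * l)) := by ring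
      _ ≤ _ := Nat.mul_le_mul hQ1 hQ1
  -- message length and number of positions
  set c := 2 * (2 * l) with hc
  set m := c * (2 * b) with hm
  set a := m + 1 with ha
  have hm' : m = 8 * (b * l) := by rw [hm, hc]; ring
  have hbl : b * l ≤ lam * l := Nat.mul_le_mul_right _ hblam
  have ha9 : a ≤ 9 * (lam * l) := by omega
  have hm8 : m ≤ 8 * (lam * l) := by omega
  have haQ : a ≤ 2 ^ (2 * b) := by
    refine le_trans ha9 (le_trans ?_ hQ2)
    have h1 : lam * l ≤ lam ^ 4 * l ^ 2 := by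
      have : lam ^ 4 * l ^ 2 = (lam * l) * (lam ^ 3 * l) := by ring
      rw [this]
      exact Nat.le_mul_of_pos_right _ (by positivity)
    omega
  -- sizes of the graph
  have hV1 : (a * 2) * 2 ^ b * 2 ≤ n := by
    calc (a * 2) * 2 ^ b * 2 ≤ (9 * (lam * l) * 2) * 2 ^ b * 2 := by
          apply Nat.mul_le_mul_right
          apply Nat.mul_le_mul_right
          exact Nat.mul_le_mul_right _ ha9
      _ = 2 ^ b * (36 * lam * l) := by ring
      _ ≤ n := h2b
  have hV2 : (a * (2 * (b * m))) * 4 * 2 ≤ n := by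
    calc (a * (2 * (b * m))) * 4 * 2 ≤ (9 * (lam * l) * (2 * (lam * (8 * (lam * l))))) * 4 * 2 := by
          apply Nat.mul_le_mul_right
          apply Nat.mul_le_mul_right
          apply Nat.mul_le_mul ha9
          apply Nat.mul_le_mul_left
          exact Nat.mul_le_mul hblam hm8
      _ = 1152 * lam ^ 3 * l ^ 2 := by ring
      _ ≤ n := by
          have : 1152 * lam ^ 3 * l ^ 2 ≤ 2304 * lam ^ 3 * l ^ 2 := by
            apply Nat.mul_le_mul_right
            apply Nat.mul_le_mul_right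
            norm_num
          omega
  have hG : a * 2 + a * (2 * (b * m)) ≤ n := by
    have h1 : a * 2 ≤ (a * 2) * 2 ^ b := Nat.le_mul_of_pos_right _ (by positivity)
    omega
  set u := n - (a * 2 + a * (2 * (b * m))) with hu
  have hcardG : Fintype.card (Grp a b m u) = n := by
    simp only [Grp, Fintype.card_sum, Fintype.card_prod, Fintype.card_fin, Fintype.card_bool]
    omega
  have hcardV : Fintype.card (Vtx a b m u) ≤ 2 * n := by
    simp only [Vtx, Fintype.card_sum, Fintype.card_prod, Fintype.card_fin, Fintype.card_bool,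
      Fintype.card_fun, ZMod.card]
    omega
  obtain ⟨f⟩ : Nonempty (Vtx a b m u ↪ Fin (2 * n)) := by
    apply Function.Embedding.nonempty_of_card_le
    rw [Fintype.card_fin]
    exact hcardV
  have ha0 : 0 < a := by omega
  have hm0 : 0 < m := by
    rw [hm']; have : 0 < b * l := by positivity
    omega
  haveI : Nonempty (Vtx a b m u) := ⟨.inl ((⟨0, ha0⟩, false), 0)⟩
  -- the code
  obtain ⟨W, hW⟩ := exists_code b c a (by omega) haQ
  have hspread := spread_code W hW
  -- the circuit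
  set C' := C.subst (proj W f) with hC'
  have hC'eval : ∀ Z : Finset (Ground a b), C'.eval (chi Z) = true ↔ ∃ ω, wordSet W ω ⊆ Z := by
    intro Z
    rw [hC', Circuit.eval_subst, pull_proj, hC, exists_clique_map]
    rw [← clique_iff (u := u) W ha0 (by omega) hm0 Z, hcardG]
  -- noise parameters
  set L := 13 * (lam * l) with hL
  have hL1 : L + 1 ≤ 14 * (lam * l) := by omega
  set q := 64 * l * (L + 1) with hqdef
  have hq0 : 0 < q := by positivity
  have hq896 : q ≤ 896 * (lam * l ^ 2) := by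
    calc q ≤ 64 * l * (14 * (lam * l)) := Nat.mul_le_mul_left _ hL1
      _ = 896 * (lam * l ^ 2) := by ring
  set r := 2 ^ (2 * b) / q with hr
  have hr1 : 1 ≤ r := by
    rw [hr, Nat.le_div_iff_mul_le hq0, one_mul]
    refine le_trans hq896 (le_trans ?_ hQ2)
    have h1 : lam * l ^ 2 ≤ lam ^ 4 * l ^ 2 := by
      apply Nat.mul_le_mul_right
      exact Nat.le_self_pow (by norm_num) lam
    omega
  have hrQ : r * q ≤ 2 ^ (2 * b) := Nat.div_mul_le_self _ _
  have hrQ' : 2 ^ (2 * b) < (r + 1) * q := by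
    have h1 := Nat.div_add_mod (2 ^ (2 * b)) q
    have h2 := Nat.mod_lt (2 ^ (2 * b)) hq0
    have h3 : (r + 1) * q = q * (2 ^ (2 * b) / q) + q := by rw [hr]; ring
    rw [h3]
    omega
  set D := 2 * (r * (L + 1)) with hD
  have hD0 : 0 < D := by positivity
  have hκ : (0 : ℝ) ≤ (1 / 2 : ℝ) ^ (2 * b) := by positivity
  have hBκ : 2 * ((2 * (2 * l) : ℕ) : ℝ) * D * (1 / 2 : ℝ) ^ (2 * b) ≤ 1 / 4 := by
    have h1 : ((r * q : ℕ) : ℝ) ≤ ((2 ^ (2 * b) : ℕ) : ℝ) := by exact_mod_cast hrQ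
    have h2 : (1 / 2 : ℝ) ^ (2 * b) * ((2 ^ (2 * b) : ℕ) : ℝ) = 1 := by
      push_cast
      rw [← mul_pow]; norm_num
    have h3 : 2 * ((2 * (2 * l) : ℕ) : ℝ) * D = ((r * q : ℕ) : ℝ) / 4 := by
      rw [hD, hqdef]
      push_cast
      ring
    rw [h3]
    calc ((r * q : ℕ) : ℝ) / 4 * (1 / 2 : ℝ) ^ (2 * b)
        ≤ ((2 ^ (2 * b) : ℕ) : ℝ) / 4 * (1 / 2 : ℝ) ^ (2 * b) := by
          apply mul_le_mul_of_nonneg_right _ hκ
          linarith
      _ = 1 / 4 := by linear_combination (1 / 4) * h2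
  have hfew : (Fintype.card (Fin m → ZMod 2) : ℝ) * ((r * (L + 1) : ℕ) / (D : ℝ)) ^ a ≤ 1 / 2 := by
    rw [Fintype.card_fun, ZMod.card, Fintype.card_fin]
    have h1 : ((r * (L + 1) : ℕ) : ℝ) / (D : ℝ) = 1 / 2 := by
      have h2 : (0 : ℝ) < ((r * (L + 1) : ℕ) : ℝ) := by
        exact_mod_cast (by positivity : 0 < r * (L + 1))
      rw [hD]
      push_cast at h2 ⊢
      field_simp
    rw [h1, ha, pow_succ]
    push_cast
    rw [← mul_assoc, ← mul_pow]
    norm_num
  have hbound := abstract_bound (v := wordSet W) (e := 2 * l) hD0 (by omega : 0 < L) (by omega) hκ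
    hspread hBκ r s d (card_wordSet W) hfew C' (by rw [hC', Circuit.size_subst, hCs])
    (Circuit.fanIn_subst _ _ hCd) hC'eval
  rw [hC', Circuit.numOther_subst, hCt] at hbound
  -- the error term
  have hr2 : r < 2 ^ (2 * lam) := by
    have h1 : r ≤ 2 ^ (2 * b) := Nat.div_le_self _ _
    have h2 : 2 ^ (2 * b) = 2 ^ b * 2 ^ b := by rw [← pow_add]; congr 1; omega
    have h3 : 2 ^ (2 * lam) = 2 ^ lam * 2 ^ lam := by rw [← pow_add]; congr 1; omega
    rw [h3]
    calc r ≤ 2 ^ b * 2 ^ b := by rw [← h2]; exact h1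
      _ ≤ n * n := Nat.mul_le_mul hbn hbn
      _ < 2 ^ lam * 2 ^ lam := Nat.mul_lt_mul_of_lt_of_lt hn hn
  have hXcard : Fintype.card (Ground a b) + 1 ≤ 2 ^ (2 * lam) := by
    have h1 : Fintype.card (Ground a b) = a * 2 ^ (2 * b) := by
      simp [Ground, Sym, ZMod.card]
    have h2 : 2 ^ (2 * b) = 2 ^ b * 2 ^ b := by rw [← pow_add]; congr 1; omega
    have h3 : 2 ^ (2 * lam) = 2 ^ lam * 2 ^ lam := by rw [← pow_add]; congr 1; omega
    rw [h1, h2, h3]
    have h4 : a * (2 ^ b * 2 ^ b) ≤ n * n := by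
      calc a * (2 ^ b * 2 ^ b) = (a * 2 ^ b) * 2 ^ b := by ring
        _ ≤ n * n := by
          apply Nat.mul_le_mul _ hbn
          calc a * 2 ^ b ≤ (a * 2 ^ b) * 4 := Nat.le_mul_of_pos_right _ (by norm_num)
            _ = (a * 2) * 2 ^ b * 2 := by ring
            _ ≤ n := hV1
    have h5 : n * n < 2 ^ lam * 2 ^ lam := Nat.mul_lt_mul_of_lt_of_lt hn hn
    omega
  have hsm : ((smalls (X := Ground a b) (2 * (2 * l))).card : ℝ) ≤ 2 ^ (8 * (lam * l)) := by
    have h1 := card_smalls_le (X := Ground a b) (2 * (2 * l))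
    have h2 : (Fintype.card (Ground a b) + 1) ^ (2 * (2 * l)) ≤ (2 ^ (2 * lam)) ^ (2 * (2 * l)) :=
      Nat.pow_le_pow_left hXcard _
    have h3 : (2 ^ (2 * lam)) ^ (2 * (2 * l)) = 2 ^ (8 * (lam * l)) := by
      rw [← pow_mul]; congr 1; ring
    rw [h3] at h2
    exact_mod_cast le_trans h1 h2
  have herr : (r : ℝ) * err (Ground a b) L (2 * l) s ≤ 1 := by
    unfold err
    have hrR : (r : ℝ) ≤ 2 ^ (2 * lam) := by exact_mod_cast hr2.le
    have hsR : (s : ℝ) + 1 ≤ 2 ^ l := by exact_mod_cast hs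
    have hlR : (2 : ℝ) ^ (2 * lam) ≤ 2 ^ (2 * l) :=
      pow_le_pow_right₀ (by norm_num) (by omega)
    have hs0 : (0 : ℝ) ≤ s := by positivity
    have hr0 : (0 : ℝ) ≤ r := by positivity
    have h1 : (r : ℝ) * (s * (1 / 4 : ℝ) ^ (2 * l)) ≤ 1 / 2 := by
      have h2 : (1 / 4 : ℝ) ^ (2 * l) = (1 / 2) ^ (4 * l) := by
        have : (1 / 4 : ℝ) = (1 / 2) ^ 2 := by norm_num
        rw [this, ← pow_mul]; congr 1; ring
      rw [h2]
      calc (r : ℝ) * (s * (1 / 2 : ℝ) ^ (4 * l))
          ≤ 2 ^ (2 * l) * (2 ^ l * (1 / 2 : ℝ) ^ (4 * l)) := by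
            apply mul_le_mul (le_trans hrR hlR) _ (by positivity) (by positivity)
            apply mul_le_mul_of_nonneg_right (by linarith) (by positivity)
        _ = (1 / 2) ^ l := by
            have h3 : (1 / 2 : ℝ) ^ (4 * l) = (1 / 2) ^ (3 * l) * (1 / 2) ^ l := by
              rw [← pow_add]; congr 1; ring
            have h4 : (2 : ℝ) ^ (2 * l) * 2 ^ l = 2 ^ (3 * l) := by
              rw [← pow_add]; congr 1; ring
            have h5 : (2 : ℝ) ^ (3 * l) * (1 / 2) ^ (3 * l) = 1 := by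
              rw [← mul_pow]; norm_num
            rw [h3]
            calc (2 : ℝ) ^ (2 * l) * (2 ^ l * ((1 / 2) ^ (3 * l) * (1 / 2) ^ l))
                = (2 ^ (2 * l) * 2 ^ l) * (1 / 2) ^ (3 * l) * (1 / 2) ^ l := by ring
              _ = (1 / 2) ^ l := by rw [h4, h5, one_mul]
        _ ≤ (1 / 2) ^ 1 := pow_le_pow_of_le_one (by norm_num) (by norm_num) hl1
        _ = 1 / 2 := by norm_num
    have h2 : (r : ℝ) * (2 * ((s + 1) * (((smalls (X := Ground a b) (2 * (2 * l))).card : ℝ)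
        * (1 / 2 : ℝ) ^ L))) ≤ 1 / 2 := by
      calc (r : ℝ) * (2 * ((s + 1) * (((smalls (X := Ground a b) (2 * (2 * l))).card : ℝ)
            * (1 / 2 : ℝ) ^ L)))
          ≤ 2 ^ (2 * lam) * (2 * (2 ^ l * (2 ^ (8 * (lam * l)) * (1 / 2 : ℝ) ^ L))) := by
            apply mul_le_mul hrR _ (by positivity) (by positivity)
            apply mul_le_mul_of_nonneg_left _ (by norm_num)
            apply mul_le_mul hsR _ (by positivity) (by positivity)
            exact mul_le_mul_of_nonneg_right hsm (by positivity)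
        _ = 2 ^ (2 * lam + 1 + l + 8 * (lam * l)) * (1 / 2 : ℝ) ^ L := by
            rw [pow_add, pow_add, pow_add]; ring
        _ ≤ 2 ^ (L - 1) * (1 / 2 : ℝ) ^ L := by
            apply mul_le_mul_of_nonneg_right _ (by positivity)
            apply pow_le_pow_right₀ (by norm_num)
            have h3 : lam ≤ lam * l := Nat.le_mul_of_pos_right _ hl1
            have h4 : l ≤ lam * l := Nat.le_mul_of_pos_left _ hlam
            omega
        _ = 1 / 2 := by
            have h5 : L = (L - 1) + 1 := by omega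
            have h6 : (1 / 2 : ℝ) ^ L = (1 / 2) ^ (L - 1) * (1 / 2) := by
              conv_lhs => rw [h5]
              rw [pow_succ]
            rw [h6, ← mul_assoc, ← mul_pow]
            norm_num
    rw [mul_add]
    linarith
  -- conclusion
  have hfin : (r : ℝ) ≤ 6 * (2 ^ t * (1 + d)) := by
    have h1 : (2 : ℝ) ^ t * (1 + d) * (2 + r * err (Ground a b) L (2 * l) s)
        ≤ (2 : ℝ) ^ t * (1 + d) * 3 := by
      apply mul_le_mul_of_nonneg_left (by linarith) (by positivity)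
    linarith
  have hfin' : r ≤ 6 * (2 ^ t * (1 + d)) := by exact_mod_cast hfin
  have hQr : 2 ^ (2 * b) ≤ 1792 * (lam * l ^ 2) * r := by
    calc 2 ^ (2 * b) ≤ (r + 1) * q := hrQ'.le
      _ ≤ (2 * r) * (896 * (lam * l ^ 2)) := Nat.mul_le_mul (by omega) hq896
      _ = 1792 * (lam * l ^ 2) * r := by ring
  calc n ^ 2 = n * n := by ring
    _ ≤ (2 ^ b * (72 * lam * l)) * (2 ^ b * (72 * lam * l)) := Nat.mul_le_mul h2b'.le h2b'.le
    _ = 5184 * (lam ^ 2 * l ^ 2) * 2 ^ (2 * b) := by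
        rw [two_mul b, pow_add]; ring
    _ ≤ 5184 * (lam ^ 2 * l ^ 2) * (1792 * (lam * l ^ 2) * r) := Nat.mul_le_mul_left _ hQr
    _ ≤ 5184 * (lam ^ 2 * l ^ 2) * (1792 * (lam * l ^ 2) * (6 * (2 ^ t * (1 + d)))) := by
        apply Nat.mul_le_mul_left
        exact Nat.mul_le_mul_left _ hfin'
    _ = 55738368 * lam ^ 3 * l ^ 4 * (d + 1) * 2 ^ t := by ring

end Pool.Agent.T9h34
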