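import Pool.Agent.T9h34.Params
import Pool.Agent.T9h34.Average

/-!
Choice of the parameters, average-case version.
-/

namespace Pool.Agent.T9h34

open Finset

/-- The error term is negligible. -/
theorem err_bound {X : Type*} [Fintype X] [DecidableEq X] {lam l r s : ℕ} (hl : lam ≤ l)
    (hlam : 1 ≤ lam) (hs : s < 2 ^ l) (hr2 : r < 2 ^ (2 * lam))
    (hXcard : Fintype.card X + 1 ≤ 2 ^ (2 * lam)) :
    (r : ℝ) * err X (13 * (lam * l)) (2 * l) s ≤ 1 := by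
  have hl1 : 1 ≤ l := le_trans hlam hl
  set L := 13 * (lam * l) with hL
  have hll : 1 ≤ lam * l := Nat.one_le_iff_ne_zero.2 (by positivity)
  have hsm : ((smalls (X := X) (2 * (2 * l))).card : ℝ) ≤ 2 ^ (8 * (lam * l)) := by
    have h1 := card_smalls_le (X := X) (2 * (2 * l))
    have h2 : (Fintype.card X + 1) ^ (2 * (2 * l)) ≤ (2 ^ (2 * lam)) ^ (2 * (2 * l)) :=
      Nat.pow_le_pow_left hXcard _
    have h3 : (2 ^ (2 * lam)) ^ (2 * (2 * l)) = 2 ^ (8 * (lam * l)) := by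
      rw [← pow_mul]; congr 1; ring
    rw [h3] at h2
    exact_mod_cast le_trans h1 h2
  unfold err
  have hrR : (r : ℝ) ≤ 2 ^ (2 * lam) := by exact_mod_cast hr2.le
  have hsR : (s : ℝ) + 1 ≤ 2 ^ l := by exact_mod_cast hs
  have hlR : (2 : ℝ) ^ (2 * lam) ≤ 2 ^ (2 * l) :=
    pow_le_pow_right₀ (by norm_num) (by omega)
  have hs0 : (0 : ℝ) ≤ s := Nat.cast_nonneg s
  have hr0 : (0 : ℝ) ≤ r := Nat.cast_nonneg r
  have h1 : (r : ℝ) * (s * (1 / 4 : ℝ) ^ (2 * l)) ≤ 1 / 2 := by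
    have h2 : (1 / 4 : ℝ) ^ (2 * l) = (1 / 2) ^ (4 * l) := by
      have : (1 / 4 : ℝ) = (1 / 2) ^ 2 := by norm_num
      rw [this, ← pow_mul]; congr 1; ring
    rw [h2]
    have hp1 : (0 : ℝ) ≤ (1 / 2 : ℝ) ^ (4 * l) := pow_nonneg (by norm_num) _
    calc (r : ℝ) * (s * (1 / 2 : ℝ) ^ (4 * l))
        ≤ 2 ^ (2 * l) * (2 ^ l * (1 / 2 : ℝ) ^ (4 * l)) := by
          apply mul_le_mul (le_trans hrR hlR) _ (mul_nonneg hs0 hp1) (pow_nonneg (by norm_num) _)
          apply mul_le_mul_of_nonneg_right (by linarith) hp1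
      _ = (1 / 2) ^ l := by
          have h3 : (1 / 2 : ℝ) ^ (4 * l) = (1 / 2) ^ (3 * l) * (1 / 2) ^ l := by
            rw [← pow_add]; congr 1; ring
          have h4 : (2 : ℝ) ^ (2 * l) * 2 ^ l = 2 ^ (3 * l) := by
            rw [← pow_add]; congr 1; ring
          have h5 : (2 : ℝ) ^ (3 * l) * (1 / 2) ^ (3 * l) = 1 := by
            rw [← mul_pow]; norm_num
          rw [h3]
          calc (2 : ℝ) ^ (2 * l) * (2 ^ l * ((1 / 2) ^ (3 * l) * (1 / 2) ^ l))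
              = (2 ^ (2 * l) * 2 ^ l) * (1 / 2) ^ (3 * l) * (1 / 2) ^ l := by ring
            _ = (1 / 2) ^ l := by rw [h4, h5, one_mul]
      _ ≤ (1 / 2) ^ 1 := pow_le_pow_of_le_one (by norm_num) (by norm_num) hl1
      _ = 1 / 2 := by norm_num
  have h2 : (r : ℝ) * (2 * ((s + 1) * (((smalls (X := X) (2 * (2 * l))).card : ℝ)
      * (1 / 2 : ℝ) ^ L))) ≤ 1 / 2 := by
    have hp1 : (0 : ℝ) ≤ (1 / 2 : ℝ) ^ L := pow_nonneg (by norm_num) _
    have hc0 : (0 : ℝ) ≤ ((smalls (X := X) (2 * (2 * l))).card : ℝ) := Nat.cast_nonneg _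
    calc (r : ℝ) * (2 * ((s + 1) * (((smalls (X := X) (2 * (2 * l))).card : ℝ)
          * (1 / 2 : ℝ) ^ L)))
        ≤ 2 ^ (2 * lam) * (2 * (2 ^ l * (2 ^ (8 * (lam * l)) * (1 / 2 : ℝ) ^ L))) := by
          apply mul_le_mul hrR _ _ (pow_nonneg (by norm_num) _)
          · apply mul_le_mul_of_nonneg_left _ (by norm_num)
            apply mul_le_mul hsR _ (mul_nonneg hc0 hp1) (pow_nonneg (by norm_num) _)
            exact mul_le_mul_of_nonneg_right hsm hp1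
          · exact mul_nonneg (by norm_num) (mul_nonneg (by linarith) (mul_nonneg hc0 hp1))
      _ = 2 ^ (2 * lam + 1 + l + 8 * (lam * l)) * (1 / 2 : ℝ) ^ L := by
          rw [pow_add, pow_add, pow_add]; ring
      _ ≤ 2 ^ (L - 1) * (1 / 2 : ℝ) ^ L := by
          apply mul_le_mul_of_nonneg_right _ hp1
          apply pow_le_pow_right₀ (by norm_num)
          have h3 : lam ≤ lam * l := Nat.le_mul_of_pos_right _ hl1
          have h4 : l ≤ lam * l := Nat.le_mul_of_pos_left _ hlam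
          omega
      _ = 1 / 2 := by
          have h5 : L = (L - 1) + 1 := by omega
          have h6 : (1 / 2 : ℝ) ^ L = (1 / 2) ^ (L - 1) * (1 / 2) := by
            conv_lhs => rw [h5]
            rw [pow_succ]
          rw [h6, ← mul_assoc, ← mul_pow]
          norm_num
  rw [mul_add]
  linarith

/-- The arithmetic of the choice of the number of bits. -/
theorem bits {n lam l : ℕ} (hn : n < 2 ^ lam) (hl : lam ≤ l) (hlam : 1 ≤ lam)
    (hbig : 2560 * lam ^ 3 * l ^ 2 < n) :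
    ∃ b : ℕ, 1 ≤ b ∧ b ≤ lam ∧ 2 ^ b ≤ n ∧ 2 ^ b * (40 * lam * l) ≤ n ∧
      n < 2 ^ b * (80 * lam * l) ∧ 1024 * (lam ^ 4 * l ^ 2) ≤ 2 ^ (2 * b) := by
  have hl1 : 1 ≤ l := le_trans hlam hl
  have h40 : 0 < 40 * lam * l := by positivity
  refine ⟨Nat.log 2 (n / (40 * lam * l)), ?_⟩
  set b := Nat.log 2 (n / (40 * lam * l)) with hb
  have hq : 2 ≤ n / (40 * lam * l) := by
    rw [Nat.le_div_iff_mul_le h40]
    have h1 : lam * l ≤ lam ^ 3 * l ^ 2 := by
      have : lam ^ 3 * l ^ 2 = (lam * l) * (lam ^ 2 * l) := by ring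
      rw [this]
      exact Nat.le_mul_of_pos_right _ (by positivity)
    have h2 : 2560 * (lam * l) ≤ 2560 * lam ^ 3 * l ^ 2 := by
      rw [mul_assoc 2560]
      exact Nat.mul_le_mul_left _ h1
    have h3 : 2 * (40 * lam * l) = 80 * (lam * l) := by ring
    rw [h3]
    omega
  have hb1 : 1 ≤ b := Nat.log_pos (by norm_num) hq
  have h2b : 2 ^ b * (40 * lam * l) ≤ n := by
    have := Nat.pow_log_le_self 2 (x := n / (40 * lam * l)) (by omega)
    rw [← hb] at this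
    exact le_trans (Nat.mul_le_mul_right _ this) (Nat.div_mul_le_self _ _)
  have h2b' : n < 2 ^ b * (80 * lam * l) := by
    have := Nat.lt_pow_succ_log_self (b := 2) (by norm_num) (n / (40 * lam * l))
    rw [← hb, Nat.div_lt_iff_lt_mul h40, pow_succ] at this
    calc n < 2 ^ b * 2 * (40 * lam * l) := this
      _ = 2 ^ b * (80 * lam * l) := by ring
  have hbn : 2 ^ b ≤ n := le_trans (Nat.le_mul_of_pos_right _ h40) h2b
  have hblam : b ≤ lam := by
    by_contra hlt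
    push Not at hlt
    have : 2 ^ lam ≤ 2 ^ b := Nat.pow_le_pow_right (by norm_num) hlt.le
    omega
  have hQ1 : 32 * (lam ^ 2 * l) ≤ 2 ^ b := by
    by_contra hlt
    push Not at hlt
    have h1 : 2 ^ b * (80 * lam * l) ≤ (32 * (lam ^ 2 * l)) * (80 * lam * l) :=
      Nat.mul_le_mul_right _ hlt.le
    have h2 : (32 * (lam ^ 2 * l)) * (80 * lam * l) = 2560 * lam ^ 3 * l ^ 2 := by ring
    omega
  refine ⟨hb1, hblam, hbn, h2b, h2b', ?_⟩
  have h1 : 2 ^ (2 * b) = 2 ^ b * 2 ^ b := by rw [← pow_add]; congr 1; omega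
  rw [h1]
  calc 1024 * (lam ^ 4 * l ^ 2) = (32 * (lam ^ 2 * l)) * (32 * (lam ^ 2 * l)) := by ring
    _ ≤ _ := Nat.mul_le_mul hQ1 hQ1

/-- The sizes of the graph. -/
theorem sizes {n lam l b m a : ℕ} (hlam : 1 ≤ lam) (hl1 : 1 ≤ l)
    (hbig : 2560 * lam ^ 3 * l ^ 2 < n) (hblam : b ≤ lam)
    (h2b : 2 ^ b * (40 * lam * l) ≤ n) (hm : m = 8 * (b * l)) (ha : a = m + 2 * lam) :
    a ≤ 10 * (lam * l) ∧ (a * 2) * 2 ^ b * 2 ≤ n ∧ (a * (2 * (b * m))) * 4 * 2 ≤ n ∧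
      a * 2 + a * (2 * (b * m)) ≤ n := by
  have hbl : b * l ≤ lam * l := Nat.mul_le_mul_right _ hblam
  have hlaml : lam ≤ lam * l := Nat.le_mul_of_pos_right _ hl1
  have ha9 : a ≤ 10 * (lam * l) := by omega
  have hm8 : m ≤ 8 * (lam * l) := by omega
  have hV1 : (a * 2) * 2 ^ b * 2 ≤ n := by
    calc (a * 2) * 2 ^ b * 2 ≤ (10 * (lam * l) * 2) * 2 ^ b * 2 := by
          apply Nat.mul_le_mul_right
          apply Nat.mul_le_mul_right
          exact Nat.mul_le_mul_right _ ha9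
      _ = 2 ^ b * (40 * lam * l) := by ring
      _ ≤ n := h2b
  have hV2 : (a * (2 * (b * m))) * 4 * 2 ≤ n := by
    calc (a * (2 * (b * m))) * 4 * 2 ≤ (10 * (lam * l) * (2 * (lam * (8 * (lam * l))))) * 4 * 2 := by
          apply Nat.mul_le_mul_right
          apply Nat.mul_le_mul_right
          apply Nat.mul_le_mul ha9
          apply Nat.mul_le_mul_left
          exact Nat.mul_le_mul hblam hm8
      _ = 1280 * lam ^ 3 * l ^ 2 := by ring
      _ ≤ n := by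
          have : 1280 * lam ^ 3 * l ^ 2 ≤ 2560 * lam ^ 3 * l ^ 2 := by
            apply Nat.mul_le_mul_right
            apply Nat.mul_le_mul_right
            norm_num
          omega
  refine ⟨ha9, hV1, hV2, ?_⟩
  have h1 : a * 2 ≤ (a * 2) * 2 ^ b := Nat.le_mul_of_pos_right _ (by positivity)
  omega

theorem main_case_avg {n lam l s : ℕ} (hn : n < 2 ^ lam) (hl : lam ≤ l) (hlam : 1 ≤ lam)
    (hs : s < 2 ^ l) (hbig : 2560 * lam ^ 3 * l ^ 2 < n) :
    ∃ μ : SimpleGraph (Fin (2 * n)) → ℝ, (∀ G, 0 ≤ μ G) ∧ ∑ G, μ G = 1 ∧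
      ∀ (d : ℕ) (C : Circuit (Fin (2 * n) × Fin (2 * n))), C.size ≤ s → C.FanIn d →
        (n : ℝ) ^ 2 * ((∑ G, μ G * ind (C.eval (graphInput G) = true ↔ ∃ S, G.IsNClique n S))
            - 1 / 2)
          ≤ 17203201 * (lam : ℝ) ^ 3 * (l : ℝ) ^ 4 * (d + 1) * 2 ^ C.numOther := by
  have hl1 : 1 ≤ l := le_trans hlam hl
  have hll : 1 ≤ lam * l := Nat.one_le_iff_ne_zero.2 (by positivity)
  obtain ⟨b, hb1, hblam, hbn, h2b, h2b', hQ2⟩ := bits hn hl hlam hbig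
  set c := 2 * (2 * l) with hc
  set m := c * (2 * b) with hm
  set a := m + 2 * lam with ha
  have hm' : m = 8 * (b * l) := by rw [hm, hc]; ring
  obtain ⟨ha10, hV1, hV2, hG⟩ := sizes hlam hl1 hbig hblam h2b hm' ha
  have haQ : a ≤ 2 ^ (2 * b) := by
    refine le_trans ha10 (le_trans ?_ hQ2)
    have h1 : lam * l ≤ lam ^ 4 * l ^ 2 := by
      have : lam ^ 4 * l ^ 2 = (lam * l) * (lam ^ 3 * l) := by ring
      rw [this]
      exact Nat.le_mul_of_pos_right _ (by positivity)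
    omega
  set u := n - (a * 2 + a * (2 * (b * m))) with hu
  have hcardG : Fintype.card (Grp a b m u) = n := by
    simp only [Grp, Fintype.card_sum, Fintype.card_prod, Fintype.card_fin, Fintype.card_bool]
    omega
  have hcardV : Fintype.card (Vtx a b m u) ≤ 2 * n := by
    simp only [Vtx, Fintype.card_sum, Fintype.card_prod, Fintype.card_fin, Fintype.card_bool,
      Fintype.card_fun, ZMod.card]
    omega
  obtain ⟨f⟩ : Nonempty (Vtx a b m u ↪ Fin (2 * n)) := by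
    apply Function.Embedding.nonempty_of_card_le
    rw [Fintype.card_fin]
    exact hcardV
  have ha0 : 0 < a := by omega
  have hm0 : 0 < m := by
    rw [hm']; have : 0 < b * l := Nat.mul_pos hb1 hl1
    omega
  haveI : Nonempty (Vtx a b m u) := ⟨.inl ((⟨0, ha0⟩, false), 0)⟩
  obtain ⟨W, hW⟩ := exists_code b c a (by omega) haQ
  have hspread := spread_code W hW
  -- noise parameters
  set L := 13 * (lam * l) with hL
  have hL1 : L + 1 ≤ 14 * (lam * l) := by omega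
  set q := 64 * l * (L + 1) with hqdef
  have hq0 : 0 < q := by positivity
  have hq896 : q ≤ 896 * (lam * l ^ 2) := by
    calc q ≤ 64 * l * (14 * (lam * l)) := Nat.mul_le_mul_left _ hL1
      _ = 896 * (lam * l ^ 2) := by ring
  set r := 2 ^ (2 * b) / q with hr
  have hr1 : 1 ≤ r := by
    rw [hr, Nat.le_div_iff_mul_le hq0, one_mul]
    refine le_trans hq896 (le_trans ?_ hQ2)
    have h1 : lam * l ^ 2 ≤ lam ^ 4 * l ^ 2 := by
      apply Nat.mul_le_mul_right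
      exact Nat.le_self_pow (by norm_num) lam
    omega
  have hrQ : r * q ≤ 2 ^ (2 * b) := Nat.div_mul_le_self _ _
  have hrQ' : 2 ^ (2 * b) < (r + 1) * q := by
    have h1 := Nat.div_add_mod (2 ^ (2 * b)) q
    have h2 := Nat.mod_lt (2 ^ (2 * b)) hq0
    have h3 : (r + 1) * q = q * (2 ^ (2 * b) / q) + q := by rw [hr]; ring
    rw [h3]
    omega
  set D := 2 * (r * (L + 1)) with hD
  have hD0 : 0 < D := by positivity
  have hκ : (0 : ℝ) ≤ (1 / 2 : ℝ) ^ (2 * b) := pow_nonneg (by norm_num) _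
  have hBκ : 2 * ((2 * (2 * l) : ℕ) : ℝ) * D * (1 / 2 : ℝ) ^ (2 * b) ≤ 1 / 4 := by
    have h1 : ((r * q : ℕ) : ℝ) ≤ ((2 ^ (2 * b) : ℕ) : ℝ) := by exact_mod_cast hrQ
    have h2 : (1 / 2 : ℝ) ^ (2 * b) * ((2 ^ (2 * b) : ℕ) : ℝ) = 1 := by
      push_cast
      rw [← mul_pow]; norm_num
    have h3 : 2 * ((2 * (2 * l) : ℕ) : ℝ) * D = ((r * q : ℕ) : ℝ) / 4 := by
      rw [hD, hqdef]
      push_cast
      ring
    rw [h3]
    calc ((r * q : ℕ) : ℝ) / 4 * (1 / 2 : ℝ) ^ (2 * b)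
        ≤ ((2 ^ (2 * b) : ℕ) : ℝ) / 4 * (1 / 2 : ℝ) ^ (2 * b) := by
          apply mul_le_mul_of_nonneg_right _ hκ
          linarith
      _ = 1 / 4 := by linear_combination (1 / 4) * h2
  have hfew : (Fintype.card (Fin m → ZMod 2) : ℝ) * ((r * (L + 1) : ℕ) / (D : ℝ)) ^ a
      = (1 / 2) ^ (2 * lam) := by
    rw [Fintype.card_fun, ZMod.card, Fintype.card_fin]
    have h1 : ((r * (L + 1) : ℕ) : ℝ) / (D : ℝ) = 1 / 2 := by
      have h2 : (0 : ℝ) < ((r * (L + 1) : ℕ) : ℝ) := by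
        exact_mod_cast (by positivity : 0 < r * (L + 1))
      rw [hD]
      push_cast at h2 ⊢
      field_simp
    rw [h1, ha, pow_add]
    push_cast
    rw [← mul_assoc, ← mul_pow]
    norm_num
  have hr2 : r < 2 ^ (2 * lam) := by
    have h1 : r ≤ 2 ^ (2 * b) := Nat.div_le_self _ _
    have h2 : 2 ^ (2 * b) = 2 ^ b * 2 ^ b := by rw [← pow_add]; congr 1; omega
    have h3 : 2 ^ (2 * lam) = 2 ^ lam * 2 ^ lam := by rw [← pow_add]; congr 1; omega
    rw [h3]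
    calc r ≤ 2 ^ b * 2 ^ b := by rw [← h2]; exact h1
      _ ≤ n * n := Nat.mul_le_mul hbn hbn
      _ < 2 ^ lam * 2 ^ lam := Nat.mul_lt_mul_of_lt_of_lt hn hn
  have hn2 : n * n < 2 ^ (2 * lam) := by
    have h3 : 2 ^ (2 * lam) = 2 ^ lam * 2 ^ lam := by rw [← pow_add]; congr 1; omega
    rw [h3]
    exact Nat.mul_lt_mul_of_lt_of_lt hn hn
  have hXcard : Fintype.card (Ground a b) + 1 ≤ 2 ^ (2 * lam) := by
    have h1 : Fintype.card (Ground a b) = a * 2 ^ (2 * b) := by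
      simp [Ground, Sym, ZMod.card]
    have h2 : 2 ^ (2 * b) = 2 ^ b * 2 ^ b := by rw [← pow_add]; congr 1; omega
    rw [h1, h2]
    have h4 : a * (2 ^ b * 2 ^ b) ≤ n * n := by
      calc a * (2 ^ b * 2 ^ b) = (a * 2 ^ b) * 2 ^ b := by ring
        _ ≤ n * n := by
          apply Nat.mul_le_mul _ hbn
          calc a * 2 ^ b ≤ (a * 2 ^ b) * 4 := Nat.le_mul_of_pos_right _ (by norm_num)
            _ = (a * 2) * 2 ^ b * 2 := by ring
            _ ≤ n := hV1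
    omega
  have herr := err_bound (X := Ground a b) hl hlam hs hr2 hXcard
  -- the distribution
  set Φ : Finset (Ground a b) → SimpleGraph (Fin (2 * n)) := fun Z =>
    (graphOf (u := u) W Z).map f with hΦ
  refine ⟨pushW D L r (wordSet W) Φ, fun G => pushW_nonneg _ _, sum_pushW hD0 (by omega) Φ, ?_⟩
  intro d C hCs hCd
  rw [sum_pushW_mul hD0]
  have hcl : ∀ Z : Finset (Ground a b), (∃ S, (Φ Z).IsNClique n S) ↔ ∃ ω, wordSet W ω ⊆ Z := by
    intro Z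
    rw [hΦ]
    simp only
    rw [exists_clique_map, ← clique_iff (u := u) W ha0 (by omega) hm0 Z, hcardG]
  have hev : ∀ Z : Finset (Ground a b),
      C.eval (graphInput (Φ Z)) = (C.subst (proj W f)).eval (chi Z) := by
    intro Z
    rw [Circuit.eval_subst, pull_proj]
  simp only [hcl, hev]
  have hscore := score_le (v := wordSet W) (e := 2 * l) hD0 (by omega : 0 < L) (by omega) hκ
    hspread hBκ r s d (card_wordSet W) (C.subst (proj W f))
    (by rw [Circuit.size_subst]; exact hCs) (Circuit.fanIn_subst _ _ hCd)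
  rw [hfew, Circuit.numOther_subst] at hscore
  set sc := score D L r (wordSet W)
    (fun Z => ind ((C.subst (proj W f)).eval (chi Z) = true ↔ ∃ ω, wordSet W ω ⊆ Z)) with hsc
  set T : ℝ := (2 : ℝ) ^ C.numOther * (1 + d) with hT
  have hT1 : 1 ≤ T := by
    have h1 : (1 : ℝ) ≤ 2 ^ C.numOther := one_le_pow₀ (by norm_num)
    have h2 : (1 : ℝ) ≤ 1 + d := by linarith [(Nat.cast_nonneg d : (0 : ℝ) ≤ d)]
    calc (1 : ℝ) = 1 * 1 := by ring
      _ ≤ _ := mul_le_mul h1 h2 (by norm_num) (by linarith)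
  have h3T : T * (2 + r * err (Ground a b) L (2 * l) s) ≤ T * 3 := by
    apply mul_le_mul_of_nonneg_left (by linarith) (by linarith)
  have hrpos : (0 : ℝ) < r := by exact_mod_cast hr1
  have h4 : sc / (2 * r) - 1 / 2 ≤ T * 3 / (2 * r) + (1 / 2) ^ (2 * lam) / 2 := by
    have h5 : sc ≤ r + T * 3 + r * (1 / 2) ^ (2 * lam) := by linarith
    have h6 : sc / (2 * r) ≤ (r + T * 3 + r * (1 / 2) ^ (2 * lam)) / (2 * r) :=
      div_le_div_of_nonneg_right h5 (by linarith)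
    have h7 : (r + T * 3 + r * (1 / 2) ^ (2 * lam)) / (2 * r)
        = 1 / 2 + (T * 3 / (2 * r) + (1 / 2) ^ (2 * lam) / 2) := by
      field_simp
      ring
    linarith
  have hQr : 2 ^ (2 * b) ≤ 1792 * (lam * l ^ 2) * r := by
    calc 2 ^ (2 * b) ≤ (r + 1) * q := hrQ'.le
      _ ≤ (2 * r) * (896 * (lam * l ^ 2)) := Nat.mul_le_mul (by omega) hq896
      _ = 1792 * (lam * l ^ 2) * r := by ring
  have hn2r : n ^ 2 ≤ 11468800 * lam ^ 3 * l ^ 4 * r := by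
    calc n ^ 2 = n * n := by ring
      _ ≤ (2 ^ b * (80 * lam * l)) * (2 ^ b * (80 * lam * l)) := Nat.mul_le_mul h2b'.le h2b'.le
      _ = 6400 * (lam ^ 2 * l ^ 2) * 2 ^ (2 * b) := by
          rw [two_mul b, pow_add]; ring
      _ ≤ 6400 * (lam ^ 2 * l ^ 2) * (1792 * (lam * l ^ 2) * r) := Nat.mul_le_mul_left _ hQr
      _ = 11468800 * lam ^ 3 * l ^ 4 * r := by ring
  have hn2rR : (n : ℝ) ^ 2 ≤ 11468800 * (lam : ℝ) ^ 3 * (l : ℝ) ^ 4 * r := by exact_mod_cast hn2r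
  have h8 : (n : ℝ) ^ 2 * (T * 3 / (2 * r)) ≤ 17203200 * (lam : ℝ) ^ 3 * (l : ℝ) ^ 4 * T := by
    have h9 : (n : ℝ) ^ 2 * (T * 3 / (2 * r))
        ≤ (11468800 * (lam : ℝ) ^ 3 * (l : ℝ) ^ 4 * r) * (T * 3 / (2 * r)) := by
      apply mul_le_mul_of_nonneg_right hn2rR
      apply div_nonneg <;> linarith
    have h10 : (11468800 * (lam : ℝ) ^ 3 * (l : ℝ) ^ 4 * r) * (T * 3 / (2 * r))
        = 17203200 * (lam : ℝ) ^ 3 * (l : ℝ) ^ 4 * T := by
      field_simp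
      ring
    linarith
  have h11 : (n : ℝ) ^ 2 * ((1 / 2) ^ (2 * lam) / 2) ≤ 1 := by
    have h12 : (n : ℝ) ^ 2 ≤ 2 ^ (2 * lam) := by
      have : n ^ 2 ≤ 2 ^ (2 * lam) := by rw [sq]; exact hn2.le
      exact_mod_cast this
    have h13 : (2 : ℝ) ^ (2 * lam) * (1 / 2) ^ (2 * lam) = 1 := by rw [← mul_pow]; norm_num
    have h14 : (n : ℝ) ^ 2 * (1 / 2) ^ (2 * lam) ≤ 2 ^ (2 * lam) * (1 / 2) ^ (2 * lam) :=
      mul_le_mul_of_nonneg_right h12 (pow_nonneg (by norm_num) _)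
    linarith
  have h15 : (1 : ℝ) ≤ (lam : ℝ) ^ 3 * (l : ℝ) ^ 4 * T := by
    have h16 : (1 : ℝ) ≤ (lam : ℝ) ^ 3 := one_le_pow₀ (by exact_mod_cast hlam)
    have h17 : (1 : ℝ) ≤ (l : ℝ) ^ 4 := one_le_pow₀ (by exact_mod_cast hl1)
    have h18 : (1 : ℝ) ≤ (lam : ℝ) ^ 3 * (l : ℝ) ^ 4 := by
      calc (1 : ℝ) = 1 * 1 := by ring
        _ ≤ _ := mul_le_mul h16 h17 (by norm_num) (by linarith)
    calc (1 : ℝ) = 1 * 1 := by ring
      _ ≤ _ := mul_le_mul h18 hT1 (by norm_num) (by linarith)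
  calc (n : ℝ) ^ 2 * (sc / (2 * r) - 1 / 2)
      ≤ (n : ℝ) ^ 2 * (T * 3 / (2 * r) + (1 / 2) ^ (2 * lam) / 2) :=
        mul_le_mul_of_nonneg_left h4 (sq_nonneg _)
    _ = (n : ℝ) ^ 2 * (T * 3 / (2 * r)) + (n : ℝ) ^ 2 * ((1 / 2) ^ (2 * lam) / 2) := by ring
    _ ≤ 17203200 * (lam : ℝ) ^ 3 * (l : ℝ) ^ 4 * T + (lam : ℝ) ^ 3 * (l : ℝ) ^ 4 * T := by linarith
    _ = 17203201 * (lam : ℝ) ^ 3 * (l : ℝ) ^ 4 * (d + 1) * 2 ^ C.numOther := by rw [hT]; ring

end Pool.Agent.T9h34
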