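import Pool.Agent.T9h34.Alternation
import Pool.Agent.T9h34.ParamsAvg

/-!
Choice of the parameters for the alternation theorem.
-/

namespace Pool.Agent.T9h34

open Finset

section subst

variable {ι κ : Type*}

theorem Gate.args_subst (σ : ι → κ ⊕ Bool) (g : Gate ι) :
    (g.subst σ).args = g.args.map (Src.subst σ) := by
  cases g <;> simp [Gate.subst, Gate.args]

theorem Circuit.numReads_subst (σ : ι → κ ⊕ Bool) (C : Circuit ι) :
    (C.subst σ).numReads = C.numReads := by
  unfold Circuit.numReads Circuit.subst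
  simp only [List.map_map]
  congr 1
  apply List.map_congr_left
  intro g _
  simp [Gate.args_subst]

theorem Circuit.reads_subst (σ : ι → κ ⊕ Bool) (C : Circuit ι) (y : κ → Bool) :
    (C.subst σ).reads y = C.reads (pull σ y) := by
  unfold Circuit.reads
  have hlen : (C.subst σ).gates.length = C.gates.length := by simp [Circuit.subst]
  rw [hlen]
  apply List.map_congr_left
  intro j _
  unfold Circuit.readsAt
  have h1 : (C.subst σ).gates[j]? = (C.gates[j]?).map (Gate.subst σ) := by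
    simp [Circuit.subst]
  rw [h1]
  cases hg : C.gates[j]? with
  | none => rfl
  | some g =>
    simp only [Option.map_some]
    rw [Gate.args_subst, List.map_map]
    apply List.map_congr_left
    intro a _
    simp only [Function.comp]
    have h2 : (C.subst σ).gates.take j = (C.gates.take j).map (Gate.subst σ) := by
      simp [Circuit.subst, List.map_take]
    rw [h2, runGates_subst, Src.eval_subst]

end subst

theorem alt_case {n lam l s R : ℕ} (hn : n < 2 ^ lam) (hl : lam ≤ l) (hlam : 1 ≤ lam)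
    (hs : s < 2 ^ l) (hbig : 2560 * lam ^ 3 * l ^ 2 < n)
    (C : Circuit (Fin (2 * n) × Fin (2 * n))) (hC : C.DecidesClique n)
    (hCs : C.size + C.numReads + 1 ≤ s)
    (hR : ∀ (k : ℕ) (G : ℕ → SimpleGraph (Fin (2 * n))), Monotone G →
      (∀ i, (G i).CliqueFree n) → (∀ i < k, C.reads (graphInput (G i)) ≠ C.reads (graphInput (G (i + 1)))) → k ≤ R) :
    n ^ 2 ≤ 45875200 * lam ^ 3 * l ^ 4 * (R + 1) := by
  have hl1 : 1 ≤ l := le_trans hlam hl
  have hll : 1 ≤ lam * l := Nat.one_le_iff_ne_zero.2 (by positivity)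
  obtain ⟨b, hb1, hblam, hbn, h2b, h2b', hQ2⟩ := bits hn hl hlam hbig
  set c := 2 * (2 * l) with hc
  set m := c * (2 * b) with hm
  set a := m + 2 * lam with ha
  have hm' : m = 8 * (b * l) := by rw [hm, hc]; ring
  obtain ⟨ha10, hV1, hV2, hG⟩ := sizes hlam hl1 hbig hblam h2b hm' ha
  have haQ : a ≤ 2 ^ (2 * b) := by
    refine le_trans ha10 (le_trans ?_ hQ2)
    have h1 : lam * l ≤ lam ^ 4 * l ^ 2 := by
      have : lam ^ 4 * l ^ 2 = (lam * l) * (lam ^ 3 * l) := by ring
      rw [this]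
      exact Nat.le_mul_of_pos_right _ (by positivity)
    omega
  set u := n - (a * 2 + a * (2 * (b * m))) with hu
  have hcardG : Fintype.card (Grp a b m u) = n := by
    simp only [Grp, Fintype.card_sum, Fintype.card_prod, Fintype.card_fin, Fintype.card_bool]
    omega
  have hcardV : Fintype.card (Vtx a b m u) ≤ 2 * n := by
    simp only [Vtx, Fintype.card_sum, Fintype.card_prod, Fintype.card_fin, Fintype.card_bool,
      Fintype.card_fun, ZMod.card]
    omega
  obtain ⟨f⟩ : Nonempty (Vtx a b m u ↪ Fin (2 * n)) := by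
    apply Function.Embedding.nonempty_of_card_le
    rw [Fintype.card_fin]
    exact hcardV
  have ha0 : 0 < a := by omega
  have hm0 : 0 < m := by
    rw [hm']; have : 0 < b * l := Nat.mul_pos hb1 hl1
    omega
  haveI : Nonempty (Vtx a b m u) := ⟨.inl ((⟨0, ha0⟩, false), 0)⟩
  obtain ⟨W, hW⟩ := exists_code b c a (by omega) haQ
  have hspread := spread_code W hW
  -- noise parameters
  set L := 13 * (lam * l) with hL
  have hL1 : L + 1 ≤ 14 * (lam * l) := by omega
  set q := 64 * l * (L + 1) with hqdef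
  have hq0 : 0 < q := by positivity
  have hq896 : q ≤ 896 * (lam * l ^ 2) := by
    calc q ≤ 64 * l * (14 * (lam * l)) := Nat.mul_le_mul_left _ hL1
      _ = 896 * (lam * l ^ 2) := by ring
  set r := 2 ^ (2 * b) / q with hr
  have hr1 : 1 ≤ r := by
    rw [hr, Nat.le_div_iff_mul_le hq0, one_mul]
    refine le_trans hq896 (le_trans ?_ hQ2)
    have h1 : lam * l ^ 2 ≤ lam ^ 4 * l ^ 2 := by
      apply Nat.mul_le_mul_right
      exact Nat.le_self_pow (by norm_num) lam
    omega
  have hrQ : r * q ≤ 2 ^ (2 * b) := Nat.div_mul_le_self _ _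
  have hrQ' : 2 ^ (2 * b) < (r + 1) * q := by
    have h1 := Nat.div_add_mod (2 ^ (2 * b)) q
    have h2 := Nat.mod_lt (2 ^ (2 * b)) hq0
    have h3 : (r + 1) * q = q * (2 ^ (2 * b) / q) + q := by rw [hr]; ring
    rw [h3]
    omega
  set D := 2 * (r * (L + 1)) with hD
  have hD0 : 0 < D := by positivity
  have hκ : (0 : ℝ) ≤ (1 / 2 : ℝ) ^ (2 * b) := pow_nonneg (by norm_num) _
  have hBκ : 2 * ((2 * (2 * l) : ℕ) : ℝ) * D * (1 / 2 : ℝ) ^ (2 * b) ≤ 1 / 4 := by
    have h1 : ((r * q : ℕ) : ℝ) ≤ ((2 ^ (2 * b) : ℕ) : ℝ) := by exact_mod_cast hrQ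
    have h2 : (1 / 2 : ℝ) ^ (2 * b) * ((2 ^ (2 * b) : ℕ) : ℝ) = 1 := by
      push_cast
      rw [← mul_pow]; norm_num
    have h3 : 2 * ((2 * (2 * l) : ℕ) : ℝ) * D = ((r * q : ℕ) : ℝ) / 4 := by
      rw [hD, hqdef]
      push_cast
      ring
    rw [h3]
    calc ((r * q : ℕ) : ℝ) / 4 * (1 / 2 : ℝ) ^ (2 * b)
        ≤ ((2 ^ (2 * b) : ℕ) : ℝ) / 4 * (1 / 2 : ℝ) ^ (2 * b) := by
          apply mul_le_mul_of_nonneg_right _ hκ
          linarith
      _ = 1 / 4 := by linear_combination (1 / 4) * h2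
  have hfew : (Fintype.card (Fin m → ZMod 2) : ℝ) * ((r * (L + 1) : ℕ) / (D : ℝ)) ^ a
      = (1 / 2) ^ (2 * lam) := by
    rw [Fintype.card_fun, ZMod.card, Fintype.card_fin]
    have h1 : ((r * (L + 1) : ℕ) : ℝ) / (D : ℝ) = 1 / 2 := by
      have h2 : (0 : ℝ) < ((r * (L + 1) : ℕ) : ℝ) := by
        exact_mod_cast (by positivity : 0 < r * (L + 1))
      rw [hD]
      push_cast at h2 ⊢
      field_simp
    rw [h1, ha, pow_add]
    push_cast
    rw [← mul_assoc, ← mul_pow]
    norm_num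
  have hr2 : r < 2 ^ (2 * lam) := by
    have h1 : r ≤ 2 ^ (2 * b) := Nat.div_le_self _ _
    have h2 : 2 ^ (2 * b) = 2 ^ b * 2 ^ b := by rw [← pow_add]; congr 1; omega
    have h3 : 2 ^ (2 * lam) = 2 ^ lam * 2 ^ lam := by rw [← pow_add]; congr 1; omega
    rw [h3]
    calc r ≤ 2 ^ b * 2 ^ b := by rw [← h2]; exact h1
      _ ≤ n * n := Nat.mul_le_mul hbn hbn
      _ < 2 ^ lam * 2 ^ lam := Nat.mul_lt_mul_of_lt_of_lt hn hn
  have hn2 : n * n < 2 ^ (2 * lam) := by
    have h3 : 2 ^ (2 * lam) = 2 ^ lam * 2 ^ lam := by rw [← pow_add]; congr 1; omega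
    rw [h3]
    exact Nat.mul_lt_mul_of_lt_of_lt hn hn
  have hXcard : Fintype.card (Ground a b) + 1 ≤ 2 ^ (2 * lam) := by
    have h1 : Fintype.card (Ground a b) = a * 2 ^ (2 * b) := by
      simp [Ground, Sym, ZMod.card]
    have h2 : 2 ^ (2 * b) = 2 ^ b * 2 ^ b := by rw [← pow_add]; congr 1; omega
    rw [h1, h2]
    have h4 : a * (2 ^ b * 2 ^ b) ≤ n * n := by
      calc a * (2 ^ b * 2 ^ b) = (a * 2 ^ b) * 2 ^ b := by ring
        _ ≤ n * n := by
          apply Nat.mul_le_mul _ hbn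
          calc a * 2 ^ b ≤ (a * 2 ^ b) * 4 := Nat.le_mul_of_pos_right _ (by norm_num)
            _ = (a * 2) * 2 ^ b * 2 := by ring
            _ ≤ n := hV1
    omega
  have hlam2 : 2 ≤ lam := by
    by_contra hcon
    have h1 : lam = 1 := by omega
    rw [h1] at hn hbig
    have h2 : 1 ≤ l ^ 2 := Nat.one_le_iff_ne_zero.2 (by positivity)
    omega
  have hfew4 : (Fintype.card (Fin m → ZMod 2) : ℝ) * ((r * (L + 1) : ℕ) / (D : ℝ)) ^ a
      ≤ 1 / 16 := by
    rw [hfew]
    have h1 : (1 / 2 : ℝ) ^ (2 * lam) ≤ (1 / 2) ^ 4 :=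
      pow_le_pow_of_le_one (by norm_num) (by norm_num) (by omega)
    refine le_trans h1 (by norm_num)
  have herr := err_bound (X := Ground a b) hl hlam hs hr2 hXcard
  -- the circuit
  set C' := C.subst (proj W f) with hC'
  have hC'eval : ∀ Z : Finset (Ground a b), C'.eval (chi Z) = true ↔ ∃ ω, wordSet W ω ⊆ Z := by
    intro Z
    rw [hC', Circuit.eval_subst, pull_proj, hC, exists_clique_map]
    rw [← clique_iff (u := u) W ha0 (by omega) hm0 Z, hcardG]
  have hR' : ∀ (k : ℕ) (G : ℕ → Finset (Ground a b)), Monotone G →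
      (∀ i, ¬ ∃ ω, wordSet W ω ⊆ G i) →
      (∀ i < k, C'.reads (chi (G i)) ≠ C'.reads (chi (G (i + 1)))) → k ≤ R := by
    intro k G hG hneg hch
    refine hR k (fun i => (graphOf (u := u) W (G i)).map f) ?_ ?_ ?_
    · intro i j hij
      simp only
      intro x y hxy
      rw [SimpleGraph.map_adj] at hxy ⊢
      obtain ⟨x', y', h1, h2, h3⟩ := hxy
      refine ⟨x', y', ?_, h2, h3⟩
      rw [graphOf_adj] at h1 ⊢
      cases hE : edge W x' y' with
      | inl q =>
        rw [hE] at h1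
        simp only [Sum.elim_inl] at h1 ⊢
        exact hG hij h1
      | inr c =>
        rw [hE] at h1
        simpa using h1
    · intro i S hS
      apply hneg i
      rw [← clique_iff (u := u) W ha0 (by omega) hm0 (G i), hcardG, ← exists_clique_map W f]
      exact ⟨S, hS⟩
    · intro i hi
      have h1 := hch i hi
      rw [hC', Circuit.reads_subst, Circuit.reads_subst, pull_proj, pull_proj] at h1
      exact h1
  have halt := alternation_bound (v := wordSet W) (e := 2 * l) hD0 (by omega : 0 < L) (by omega)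
    hκ hspread hBκ r s R (card_wordSet W) hfew4 C'
    (by rw [hC', Circuit.size_subst, Circuit.numReads_subst]; exact hCs) hC'eval hR'
  have hrR : (r : ℝ) ≤ 4 * (R + 1) := by linarith
  have hrR' : r ≤ 4 * (R + 1) := by exact_mod_cast hrR
  have hQr : 2 ^ (2 * b) ≤ 1792 * (lam * l ^ 2) * r := by
    calc 2 ^ (2 * b) ≤ (r + 1) * q := hrQ'.le
      _ ≤ (2 * r) * (896 * (lam * l ^ 2)) := Nat.mul_le_mul (by omega) hq896
      _ = 1792 * (lam * l ^ 2) * r := by ring
  calc n ^ 2 = n * n := by ring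
    _ ≤ (2 ^ b * (80 * lam * l)) * (2 ^ b * (80 * lam * l)) := Nat.mul_le_mul h2b'.le h2b'.le
    _ = 6400 * (lam ^ 2 * l ^ 2) * 2 ^ (2 * b) := by
        rw [two_mul b, pow_add]; ring
    _ ≤ 6400 * (lam ^ 2 * l ^ 2) * (1792 * (lam * l ^ 2) * r) := Nat.mul_le_mul_left _ hQr
    _ ≤ 6400 * (lam ^ 2 * l ^ 2) * (1792 * (lam * l ^ 2) * (4 * (R + 1))) := by
        apply Nat.mul_le_mul_left
        exact Nat.mul_le_mul_left _ hrR'
    _ = 45875200 * lam ^ 3 * l ^ 4 * (R + 1) := by ring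

end Pool.Agent.T9h34
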