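import Pool.Agent.T9h34.NegCircuit

/-!
# The values read by the gates other than AND and OR gates
-/

namespace Pool.Agent.T9h34

variable {ι : Type*}

/-- What a gate other than an AND or OR gate reads (nothing for AND and OR gates). -/
def Gate.args : Gate ι → List (Src ι)
  | .and _ _ => []
  | .or _ _ => []
  | .other args _ => args

/-- The number of values read by the gates other than AND and OR gates. -/
def Circuit.numReads (C : Circuit ι) : ℕ := (C.gates.map (fun g => g.args.length)).sum

/-- The values that gate number `j` reads on the input `x`, if it is not an AND or OR gate. -/
def Circuit.readsAt (C : Circuit ι) (x : ι → Bool) (j : ℕ) : List Bool :=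
  match C.gates[j]? with
  | some g => g.args.map (fun a => a.eval x (runGates x (C.gates.take j)))
  | none => []

/-- The values that all gates other than AND and OR gates read on the input `x`. -/
def Circuit.reads (C : Circuit ι) (x : ι → Bool) : List (List Bool) :=
  (List.range C.gates.length).map (C.readsAt x)

end Pool.Agent.T9h34
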