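import Pool.Agent.T9h34.Params

/-!
# Circuits with few NOT gates for the clique problem

A circuit is a straight-line program with AND gates and OR gates of fan-in two and `t` further
gates, each computing an arbitrary Boolean function of at most `d` values (NOT gates are the case
`d = 1`).  The theorem bounds from below the size of a circuit that decides whether a graph on
`2 n` vertices has a clique with `n` vertices, in terms of `t` and `d`:
`n ^ 2 ≤ K * (log n + 1) ^ 6 * (log size + log n + 1) ^ 4 * (d + 1) * 2 ^ t`.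

So circuits of polynomial size need `t ≥ 2 log n - O (log log n)` further gates (for bounded `d`),
and circuits with `t ≤ (2 - ε) log n` such gates need size exponential in a power of `n`.
By the theorem of Markov and Fischer, NOT gates beyond `⌈log (N + 1)⌉ ≤ 2 log n + 2` (where `N` is
the number of pairs of vertices) never save more than a polynomial factor in the size.
-/

namespace Pool.Agent.T9h34.WorstCaseClique

open Pool.Agent.T9h34

theorem result : ∃ K : ℕ, ∀ (n d : ℕ) (C : Circuit (Fin (2 * n) × Fin (2 * n))),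
    C.DecidesClique n → C.FanIn d →
      n ^ 2 ≤ K * (Nat.log 2 n + 1) ^ 6 * (Nat.log 2 C.size + Nat.log 2 n + 1) ^ 4 * (d + 1)
        * 2 ^ C.numOther := by
  refine ⟨55738368, ?_⟩
  intro n d C hC hd
  set lam := Nat.log 2 n + 1 with hlam
  set l := Nat.log 2 C.size + Nat.log 2 n + 1 with hl
  have hn : n < 2 ^ lam := Nat.lt_pow_succ_log_self (by norm_num) n
  have hs : C.size < 2 ^ l := by
    have h1 : C.size < 2 ^ (Nat.log 2 C.size + 1) := Nat.lt_pow_succ_log_self (by norm_num) _
    exact lt_of_lt_of_le h1 (Nat.pow_le_pow_right (by norm_num) (by omega))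
  by_cases hbig : 2304 * lam ^ 3 * l ^ 2 < n
  · have h := main_case hn (by omega : lam ≤ l) (by omega) hs hbig C hC rfl rfl hd
    have hlam1 : 1 ≤ lam := by omega
    have h1 : lam ^ 3 ≤ lam ^ 6 := Nat.pow_le_pow_right hlam1 (by norm_num)
    refine le_trans h ?_
    apply Nat.mul_le_mul_right
    apply Nat.mul_le_mul_right
    apply Nat.mul_le_mul_right
    exact Nat.mul_le_mul_left _ h1
  · push Not at hbig
    have h1 : n ^ 2 ≤ (2304 * lam ^ 3 * l ^ 2) ^ 2 := Nat.pow_le_pow_left hbig 2
    have h2 : (2304 * lam ^ 3 * l ^ 2) ^ 2 = 5308416 * lam ^ 6 * l ^ 4 := by ring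
    have h3 : 5308416 * lam ^ 6 * l ^ 4 ≤ 55738368 * lam ^ 6 * l ^ 4 := by
      apply Nat.mul_le_mul_right
      apply Nat.mul_le_mul_right
      norm_num
    have h4 : 1 ≤ (d + 1) * 2 ^ C.numOther := Nat.one_le_iff_ne_zero.2 (by positivity)
    calc n ^ 2 ≤ 55738368 * lam ^ 6 * l ^ 4 := by omega
      _ ≤ 55738368 * lam ^ 6 * l ^ 4 * ((d + 1) * 2 ^ C.numOther) :=
          Nat.le_mul_of_pos_right _ h4
      _ = 55738368 * lam ^ 6 * l ^ 4 * (d + 1) * 2 ^ C.numOther := by ring

end Pool.Agent.T9h34.WorstCaseClique
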